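import Pool.Agent.H55.AC.Planar

/-!
# All infinite finitely generated abelian groups
-/

namespace Pool.Agent.H55.AC

open Relation Pool.Agent.H55.SC

variable {G : Type} [AddCommGroup G] {S : Set G}

lemma finite_module (hS : S.Finite) (hgen : AddSubgroup.closure S = ⊤) : Module.Finite ℤ G := by
  rw [Module.Finite.iff_addGroup_fg, AddGroup.fg_iff]
  exact ⟨S, hgen, hS⟩

/-- two independent edge differences -/
theorem good_rank_two (hS : S.Finite)
    (hgenE : ∀ H : AddSubgroup G, (∀ x ∈ ES S, x ∈ H) → H = ⊤) {a b : G} (ha : a ∈ ES S)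
    (hb : b ∈ ES S) (hab : Ind a b) : Good S := by
  by_cases hthree : ∃ x ∈ ES S, ∃ y ∈ ES S, ∃ w ∈ ES S, Ind x y ∧ ∀ i j : ℤ, w ≠ i • x + j • y
  · obtain ⟨x, hx, y, hy, w, hw, hxy, hwxy⟩ := hthree
    exact good_of_three hS hx hy hw hxy hwxy
  · have hbas : ∀ x ∈ ES S, ∀ y ∈ ES S, Ind x y → ∀ w ∈ ES S, ∃ i j : ℤ, w = i • x + j • y := by
      intro x hx y hy hxy w hw
      by_contra hno
      apply hthree
      refine ⟨x, hx, y, hy, w, hw, hxy, ?_⟩
      intro i j h
      exact hno ⟨i, j, h⟩
    -- coordinates are at most one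
    have hcoef : ∀ x ∈ ES S, ∀ y ∈ ES S, Ind x y → ∀ w ∈ ES S, ∀ i j : ℤ, w = i • x + j • y →
        (i = 0 ∨ i = 1 ∨ i = -1) := by
      intro x hx y hy hxy w hw i j hwij
      by_cases hi : i = 0
      · exact Or.inl hi
      · right
        have hind : Ind w y := by
          intro k l hkl
          have h1 : (k * i) • x + (k * j + l) • y = 0 := by
            rw [hwij] at hkl
            rw [← hkl, smul_add, ← mul_smul, ← mul_smul, add_smul]; abel
          have h2 := hxy _ _ h1
          rcases mul_eq_zero.1 h2.1 with h3 | h3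
          · refine ⟨h3, ?_⟩
            have := h2.2
            rw [h3, zero_mul, zero_add] at this
            exact this
          · exact absurd h3 hi
        obtain ⟨k, l, hkl⟩ := hbas w hw y hy hind x hx
        have h1 : (k * i - 1) • x + (k * j + l) • y = 0 := by
          have h2 : x = (k * i) • x + (k * j + l) • y := by
            conv_lhs => rw [hkl, hwij]
            rw [smul_add, ← mul_smul, ← mul_smul, add_smul]; abel
          rw [sub_smul, one_smul]
          have h3 : (k * i) • x + (k * j + l) • y - x = 0 := sub_eq_zero.2 h2.symm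
          rw [← h3]; abel
        have h2 := (hxy _ _ h1).1
        have h3 : i * k = 1 := by linarith [mul_comm k i]
        rcases Int.eq_one_or_neg_one_of_mul_eq_one h3 with h4 | h4
        · exact Or.inl h4
        · exact Or.inr h4
    have hlist : ∀ w ∈ ES S, w = a ∨ w = -a ∨ w = b ∨ w = -b ∨ w = a + b ∨ w = -(a + b) ∨
        w = a - b ∨ w = -(a - b) := by
      intro w hw
      obtain ⟨i, j, hij⟩ := hbas a ha b hb hab w hw
      have h1 := hcoef a ha b hb hab w hw i j hij
      have h2 := hcoef b hb a ha hab.swap w hw j i (by rw [hij]; abel)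
      rcases h1 with rfl | rfl | rfl <;> rcases h2 with rfl | rfl | rfl
      · exfalso; apply hw.1; rw [hij]; simp
      · right; right; left; rw [hij]; simp
      · right; right; right; left; rw [hij]; simp
      · left; rw [hij]; simp
      · right; right; right; right; left; rw [hij]; simp
      · right; right; right; right; right; right; left; rw [hij]; simp [sub_eq_add_neg]
      · right; left; rw [hij]; simp
      · right; right; right; right; right; right; right; rw [hij]; simp; abel
      · right; right; right; right; right; left; rw [hij]; simp; abel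
    by_cases hminus : a - b ∈ ES S
    · -- use `-b`
      have hplus : a + b ∉ ES S := by
        intro hplus
        have hind : Ind (a + b) (a - b) := by
          intro i j hij
          have h1 : (i + j) • a + (i - j) • b = 0 := by
            rw [← hij, smul_add, smul_sub, add_smul, sub_smul]; abel
          have h2 := hab _ _ h1
          omega
        obtain ⟨i, j, hij⟩ := hbas _ hplus _ hminus hind a ha
        have h1 : (i + j - 1) • a + (i - j) • b = 0 := by
          have h2 : a = (i + j) • a + (i - j) • b := by
            conv_lhs => rw [hij]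
            rw [smul_add, smul_sub, add_smul, sub_smul]; abel
          rw [sub_smul, one_smul]
          have h3 : (i + j) • a + (i - j) • b - a = 0 := sub_eq_zero.2 h2.symm
          rw [← h3]; abel
        have h2 := hab _ _ h1
        omega
      have hind : Ind a (-b) := by
        intro i j hij
        rw [smul_neg, ← neg_smul] at hij
        have := hab _ _ hij
        omega
      apply good_planar hgenE ha (ES_symm b hb) hind
      intro x hx
      rcases hlist x hx with h | h | h | h | h | h | h | h
      · exact Or.inl h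
      · exact Or.inr (Or.inl h)
      · right; right; right; left; rw [neg_neg]; exact h
      · right; right; left; exact h
      · exact absurd (h ▸ hx) hplus
      · exfalso
        apply hplus
        have := ES_symm x hx
        rwa [h, neg_neg] at this
      · right; right; right; right; left; rw [← sub_eq_add_neg]; exact h
      · right; right; right; right; right; rw [← sub_eq_add_neg]; exact h
    · apply good_planar hgenE ha hb hab
      intro x hx
      rcases hlist x hx with h | h | h | h | h | h | h | h
      · exact Or.inl h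
      · exact Or.inr (Or.inl h)
      · exact Or.inr (Or.inr (Or.inl h))
      · exact Or.inr (Or.inr (Or.inr (Or.inl h)))
      · exact Or.inr (Or.inr (Or.inr (Or.inr (Or.inl h))))
      · exact Or.inr (Or.inr (Or.inr (Or.inr (Or.inr h))))
      · exact absurd (h ▸ hx) hminus
      · exfalso
        apply hminus
        have := ES_symm x hx
        rwa [h, neg_neg] at this

/-- a group of rank one has a height function -/
theorem exists_height (hS : S.Finite) (hgen : AddSubgroup.closure S = ⊤) {a : G}
    (ha : ∀ k : ℤ, k • a = 0 → k = 0) {q : ℤ} (hq : q ≠ 0) (hqa : ∀ g : G, ∃ k : ℤ, q • g = k • a) :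
    ∃ ℓ : G →+ ℤ, Function.Surjective ℓ ∧ {x | ℓ x = 0}.Finite := by
  choose L hL using hqa
  have huniq : ∀ k l : ℤ, k • a = l • a → k = l := by
    intro k l h
    have := ha (k - l) (by rw [sub_smul, h, sub_self])
    omega
  let L' : G →+ ℤ :=
    { toFun := L
      map_zero' := huniq _ _ (by rw [← hL, smul_zero, zero_smul])
      map_add' := fun x y => huniq _ _ (by rw [← hL, smul_add, hL, hL, add_smul]) }
  have hL' : ∀ x, q • x = L' x • a := hL
  have hLa : L' a = q := huniq _ _ (hL' a).symm
  obtain ⟨m, hm⟩ := Int.subgroup_cyclic L'.range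
  have hmem : ∀ z : ℤ, z ∈ L'.range ↔ m ∣ z := by
    intro z
    rw [hm, AddSubgroup.mem_closure_singleton]
    constructor
    · rintro ⟨n, hn⟩
      exact ⟨n, by rw [← hn, smul_eq_mul, mul_comm]⟩
    · rintro ⟨n, hn⟩
      exact ⟨n, by rw [hn, smul_eq_mul, mul_comm]⟩
  have hm0 : m ≠ 0 := by
    intro h0
    have := (hmem q).1 ⟨a, hLa⟩
    rw [h0, zero_dvd_iff] at this
    exact hq this
  have hdvd : ∀ x, ∃ k, L' x = m * k := fun x => (hmem _).1 ⟨x, rfl⟩
  choose R hR using hdvd
  let ℓ : G →+ ℤ :=
    { toFun := R
      map_zero' := by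
        have := hR 0
        rw [map_zero] at this
        rcases mul_eq_zero.1 this.symm with h | h
        · exact absurd h hm0
        · exact h
      map_add' := fun x y => by
        have h1 := hR (x + y)
        rw [map_add, hR x, hR y, ← mul_add] at h1
        exact (mul_left_cancel₀ hm0 h1).symm }
  have hℓ : ∀ x, L' x = m * ℓ x := hR
  refine ⟨ℓ, ?_, ?_⟩
  · intro z
    obtain ⟨x, hx⟩ := (hmem (m * z)).2 ⟨z, rfl⟩
    refine ⟨x, ?_⟩
    rw [hℓ] at hx
    exact mul_left_cancel₀ hm0 hx
  · have h1 : Module.Finite ℤ G := finite_module hS hgen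
    have h2 : IsNoetherian ℤ G := isNoetherian_of_isNoetherianRing_of_finite ℤ G
    let K : Submodule ℤ G := LinearMap.ker ℓ.toIntLinearMap
    have h3 : Finite K := by
      apply Module.finite_of_fg_torsion
      intro x
      refine ⟨⟨q, mem_nonZeroDivisors_of_ne_zero hq⟩, ?_⟩
      apply Subtype.ext
      show q • (x : G) = 0
      have h4 : ℓ (x : G) = 0 := x.2
      rw [hL', hℓ, h4, mul_zero, zero_smul]
    have h4 : {x | ℓ x = 0} = (K : Set G) := by
      ext x; rfl
    rw [h4]
    exact Set.toFinite _

theorem good_all (hS : S.Finite) (hgen : AddSubgroup.closure S = ⊤) (hinf : Infinite G) :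
    Good S := by
  classical
  have hgenE : ∀ H : AddSubgroup G, (∀ x ∈ ES S, x ∈ H) → H = ⊤ := by
    intro H hH
    rw [eq_top_iff, ← hgen, AddSubgroup.closure_le]
    intro x hx
    by_cases h0 : x = 0
    · rw [h0]; exact H.zero_mem
    · exact hH x ⟨h0, Or.inl hx⟩
  have hESfin : (ES S).Finite := by
    apply (hS.union (hS.image fun x => -x)).subset
    rintro x ⟨_, hx | hx⟩
    · exact Or.inl hx
    · exact Or.inr ⟨-x, hx, neg_neg x⟩
  by_cases htwo : ∃ a ∈ ES S, ∃ b ∈ ES S, Ind a b
  · obtain ⟨a, ha, b, hb, hab⟩ := htwo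
    exact good_rank_two hS hgenE ha hb hab
  · -- an element of infinite order
    obtain ⟨a, haE, ha⟩ : ∃ a ∈ ES S, ∀ k : ℤ, k • a = 0 → k = 0 := by
      by_contra hno
      have htor : ∀ x ∈ ES S, ∃ k : ℤ, k ≠ 0 ∧ k • x = 0 := by
        intro x hx
        by_contra hx'
        apply hno
        refine ⟨x, hx, ?_⟩
        intro k hk
        by_contra hk0
        exact hx' ⟨k, hk0, hk⟩
      let H : AddSubgroup G :=
        { carrier := {x | ∃ k : ℤ, k ≠ 0 ∧ k • x = 0}
          add_mem' := by
            rintro x y ⟨k, hk, hkx⟩ ⟨l, hl, hly⟩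
            refine ⟨k * l, mul_ne_zero hk hl, ?_⟩
            rw [smul_add, mul_comm, mul_smul, hkx, smul_zero, mul_comm, mul_smul, hly, smul_zero,
              add_zero]
          zero_mem' := ⟨1, one_ne_zero, smul_zero _⟩
          neg_mem' := by
            rintro x ⟨k, hk, hkx⟩
            exact ⟨k, hk, by rw [smul_neg, hkx, neg_zero]⟩ }
      have hH : H = ⊤ := hgenE H htor
      have h1 : Module.Finite ℤ G := finite_module hS hgen
      have h2 : Finite G := by
        apply Module.finite_of_fg_torsion
        intro x
        have hx : x ∈ H := by rw [hH]; trivial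
        obtain ⟨k, hk, hkx⟩ := hx
        exact ⟨⟨k, mem_nonZeroDivisors_of_ne_zero hk⟩, hkx⟩
      exact not_finite G
    -- a common multiple
    have hdep : ∀ x ∈ ES S, ∃ n : ℤ, n ≠ 0 ∧ ∃ k : ℤ, n • x = k • a := by
      intro x hx
      have h1 : ¬ Ind a x := fun h => htwo ⟨a, haE, x, hx, h⟩
      unfold Ind at h1
      push Not at h1
      obtain ⟨i, j, hij, h2⟩ := h1
      have hj : j ≠ 0 := by
        intro hj0
        rw [hj0, zero_smul, add_zero] at hij
        exact h2 (ha i hij) hj0
      refine ⟨j, hj, -i, ?_⟩
      rw [neg_smul]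
      exact eq_neg_of_add_eq_zero_right hij
    choose! n hn0 hn using hdep
    set q : ℤ := ∏ x ∈ hESfin.toFinset, n x with hq
    have hq0 : q ≠ 0 := by
      rw [hq, Finset.prod_ne_zero_iff]
      intro x hx
      exact hn0 x ((Set.Finite.mem_toFinset hESfin).1 hx)
    let H : AddSubgroup G :=
      { carrier := {x | ∃ k : ℤ, q • x = k • a}
        add_mem' := by
          rintro x y ⟨k, hk⟩ ⟨l, hl⟩
          exact ⟨k + l, by rw [smul_add, hk, hl, add_smul]⟩
        zero_mem' := ⟨0, by rw [smul_zero, zero_smul]⟩
        neg_mem' := by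
          rintro x ⟨k, hk⟩
          exact ⟨-k, by rw [smul_neg, hk, neg_smul]⟩ }
    have hH : H = ⊤ := by
      apply hgenE
      intro x hx
      obtain ⟨k, hk⟩ := hn x hx
      obtain ⟨c, hc⟩ := Finset.dvd_prod_of_mem n ((Set.Finite.mem_toFinset hESfin).2 hx)
      refine ⟨c * k, ?_⟩
      rw [hq, hc, mul_comm, mul_smul, hk, mul_smul]
    obtain ⟨ℓ, hℓ, hker⟩ := exists_height hS hgen ha hq0 (fun g => by
      have : g ∈ H := by rw [hH]; trivial
      exact this)
    exact good_of_ringOK hℓ hker (ringOK_of_rank_one hS hgen hℓ hker)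

end Pool.Agent.H55.AC
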