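import Pool.Agent.H55.AC.All

/-!
# From infinite groups to large finite groups
-/

namespace Pool.Agent.H55.AC

open Relation Pool.Agent.H55.SC Filter

lemma exists_tuple {Γ : Type} [AddCommGroup Γ] (S : Finset Γ) {s : ℕ} (h : S.card ≤ s) :
    ∃ a : Fin s → Γ, (∀ x ∈ S, ∃ i, a i = x) ∧ ∀ i, a i ∈ S ∨ a i = 0 := by
  classical
  refine ⟨fun i => if h : i.1 < S.card then (S.equivFin.symm ⟨i.1, h⟩ : S).1 else 0, ?_, ?_⟩
  · intro x hx
    refine ⟨⟨(S.equivFin ⟨x, hx⟩).1, lt_of_lt_of_le (S.equivFin ⟨x, hx⟩).2 h⟩, ?_⟩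
    have h1 : (S.equivFin ⟨x, hx⟩).1 < S.card := (S.equivFin ⟨x, hx⟩).2
    simp only [h1, dif_pos, Fin.eta, Equiv.symm_apply_apply]
  · intro i
    by_cases hi : i.1 < S.card
    · left
      simp only [hi, dif_pos]
      exact (S.equivFin.symm ⟨i.1, hi⟩).2
    · right
      simp only [hi, dif_neg, not_false_iff]

lemma cay_eq {Γ : Type} [AddCommGroup Γ] {S T : Set Γ} (h1 : S ⊆ T) (h2 : ∀ x ∈ T, x ∈ S ∨ x = 0) :
    cay T = cay S := by
  ext u v
  rw [SimpleGraph.circulantGraph_adj, SimpleGraph.circulantGraph_adj]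
  constructor
  · rintro ⟨h, h3 | h3⟩
    · refine ⟨h, Or.inl ((h2 _ h3).resolve_right ?_)⟩
      intro h4
      exact h (sub_eq_zero.1 h4)
    · refine ⟨h, Or.inr ((h2 _ h3).resolve_right ?_)⟩
      intro h4
      exact h (sub_eq_zero.1 h4).symm
  · rintro ⟨h, h3 | h3⟩
    · exact ⟨h, Or.inl (h1 h3)⟩
    · exact ⟨h, Or.inr (h1 h3)⟩

theorem compact (s : ℕ) : ∃ N : ℕ, ∀ (Γ : Type) [AddCommGroup Γ] [Finite Γ] (S : Finset Γ),
    AddSubgroup.closure (S : Set Γ) = ⊤ → S.card ≤ s → N ≤ Nat.card Γ →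
    Had (cay (S : Set Γ)) := by
  by_contra hno
  push Not at hno
  choose Γ i1 i2 S hgen hcard hN hbad using hno
  choose a ha1 ha2 using fun N => exists_tuple (S N) (hcard N)
  let U : Ultrafilter ℕ := hyperfilter ℕ
  let φ : ∀ N, (Fin s → ℤ) →ₗ[ℤ] Γ N := fun N => Fintype.linearCombination ℤ (a N)
  have hφ : ∀ N i, φ N (Pi.single i 1) = a N i := by
    intro N i
    simp [φ, Fintype.linearCombination_apply_single]
  have hsurj : ∀ N, Function.Surjective (φ N) := by
    intro N x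
    have h1 : x ∈ AddSubgroup.closure ((S N : Set (Γ N))) := by rw [hgen N]; trivial
    have h2 : AddSubgroup.closure ((S N : Set (Γ N))) ≤ (φ N).toAddMonoidHom.range := by
      rw [AddSubgroup.closure_le]
      intro y hy
      obtain ⟨i, hi⟩ := ha1 N y hy
      exact ⟨Pi.single i 1, by rw [← hi]; exact hφ N i⟩
    obtain ⟨z, hz⟩ := h2 h1
    exact ⟨z, hz⟩
  let Λ : Submodule ℤ (Fin s → ℤ) :=
    { carrier := {z | ∀ᶠ N in (U : Filter ℕ), φ N z = 0}
      add_mem' := by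
        intro x y hx hy
        filter_upwards [hx, hy] with N h1 h2
        rw [map_add, h1, h2, add_zero]
      zero_mem' := Eventually.of_forall fun N => map_zero _
      smul_mem' := by
        intro c x hx
        filter_upwards [hx] with N h1
        rw [map_smul, h1, smul_zero] }
  have hΛ : ∀ z, z ∈ Λ ↔ ∀ᶠ N in (U : Filter ℕ), φ N z = 0 := fun z => Iff.rfl
  have hker : ∀ᶠ N in (U : Filter ℕ), Λ ≤ LinearMap.ker (φ N) := by
    obtain ⟨T, hT⟩ := IsNoetherian.noetherian Λ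
    have h1 : ∀ᶠ N in (U : Filter ℕ), ∀ t ∈ T, φ N t = 0 := by
      rw [Filter.eventually_all_finset]
      intro t ht
      rw [← hΛ, ← hT]
      exact Submodule.subset_span ht
    filter_upwards [h1] with N h2
    rw [← hT, Submodule.span_le]
    intro t ht
    exact h2 t ht
  have hlarge : ∀ C : ℕ, ∀ᶠ N in (U : Filter ℕ), C < N := fun C =>
    Nat.hyperfilter_le_atTop (eventually_gt_atTop C)
  let G := (Fin s → ℤ) ⧸ Λ
  let SG : Set G := Set.range fun i => Λ.mkQ (Pi.single i 1)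
  have hgenG : AddSubgroup.closure SG = ⊤ := by
    rw [eq_top_iff]
    intro g _
    obtain ⟨z, rfl⟩ := Λ.mkQ_surjective g
    have h1 : z = ∑ i, z i • (Pi.single i 1 : Fin s → ℤ) := by
      ext j
      simp [Finset.sum_apply, Pi.single_apply]
    rw [h1, map_sum]
    apply AddSubgroup.sum_mem
    intro i _
    rw [map_smul]
    apply AddSubgroup.zsmul_mem
    exact AddSubgroup.subset_closure ⟨i, rfl⟩
  have hinf : Infinite G := by
    by_contra hfin
    rw [not_infinite_iff_finite] at hfin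
    obtain ⟨N, h1, h2⟩ := (hker.and (hlarge (Nat.card G))).exists
    have h3 : Function.Surjective (Λ.liftQ (φ N) h1) := by
      intro x
      obtain ⟨z, hz⟩ := hsurj N x
      exact ⟨Λ.mkQ z, by rw [← hz]; rfl⟩
    have h4 : Nat.card (Γ N) ≤ Nat.card G := Nat.card_le_card_of_surjective _ h3
    have h5 := hN N
    omega
  obtain ⟨F, hF, hF0, hgood⟩ := good_all (G := G) (S := SG) (Set.finite_range _) hgenG hinf
  have hav : ∀ᶠ N in (U : Filter ℕ), ∀ x ∈ F, ∀ h : Λ ≤ LinearMap.ker (φ N),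
      Λ.liftQ (φ N) h x ≠ 0 := by
    rw [Filter.eventually_all_finite hF]
    intro x hx
    obtain ⟨z, rfl⟩ := Λ.mkQ_surjective x
    have h1 : ¬ ∀ᶠ N in (U : Filter ℕ), φ N z = 0 := by
      rw [← hΛ]
      intro h2
      apply hF0
      have : Λ.mkQ z = 0 := by
        rw [Submodule.mkQ_apply, Submodule.Quotient.mk_eq_zero]
        exact h2
      rw [this] at hx
      exact hx
    rw [← Ultrafilter.eventually_not] at h1
    filter_upwards [h1] with N h3 h4 h5
    exact h3 h5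
  obtain ⟨N, h1, h2⟩ := (hker.and hav).exists
  have h3 := hgood (Γ N) (Λ.liftQ (φ N) h1).toAddMonoidHom (by
    intro x
    obtain ⟨z, hz⟩ := hsurj N x
    exact ⟨Λ.mkQ z, by rw [← hz]; rfl⟩) (fun x hx => h2 x hx h1)
  have h4 : ((Λ.liftQ (φ N) h1).toAddMonoidHom '' SG) = Set.range (a N) := by
    ext x
    constructor
    · rintro ⟨_, ⟨i, rfl⟩, rfl⟩
      exact ⟨i, (hφ N i).symm⟩
    · rintro ⟨i, rfl⟩
      exact ⟨_, ⟨i, rfl⟩, hφ N i⟩
  rw [h4, cay_eq (S := ((S N : Finset (Γ N)) : Set (Γ N))) (by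
    intro x hx
    obtain ⟨i, hi⟩ := ha1 N x hx
    exact ⟨i, hi⟩) (by
    rintro x ⟨i, rfl⟩
    rcases ha2 N i with h | h
    · exact Or.inl h
    · exact Or.inr h)] at h3
  exact hbad N h3

end Pool.Agent.H55.AC
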