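import Pool.Agent.H55.SC.Conn

/-!
# Sliding tokens on a Cayley graph of a finite abelian group
-/

namespace Pool.Agent.H55.AC

open Relation Finset Pointwise Pool.Agent.H55.SC

variable {Q : Type} [AddCommGroup Q] {BB : Finset Q}

/-- a symmetric generating set that contains `0` -/
structure Gen (BB : Finset Q) : Prop where
  zero : (0 : Q) ∈ BB
  neg : ∀ x ∈ BB, -x ∈ BB
  gen : ∀ H : AddSubgroup Q, (∀ x ∈ BB, x ∈ H) → H = ⊤

/-- the Cayley graph of the tracks -/
def Hg (BB : Finset Q) : SimpleGraph Q := SimpleGraph.fromRel fun a b => b - a ∈ BB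

lemma Hg_adj (hB : Gen BB) {a b : Q} : (Hg BB).Adj a b ↔ a ≠ b ∧ b - a ∈ BB := by
  unfold Hg
  rw [SimpleGraph.fromRel_adj]
  constructor
  · rintro ⟨h1, h2 | h2⟩
    · exact ⟨h1, h2⟩
    · refine ⟨h1, ?_⟩
      have := hB.neg _ h2
      rwa [neg_sub] at this
  · rintro ⟨h1, h2⟩
    exact ⟨h1, Or.inl h2⟩

lemma Gen.swap (hB : Gen BB) {a b : Q} (h : b - a ∈ BB) : a - b ∈ BB := by
  have := hB.neg _ h
  rwa [neg_sub] at this

lemma Hg_reach (hB : Gen BB) {a x : Q} (hx : x ∈ BB) : (Hg BB).Reachable a (a + x) := by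
  by_cases h0 : a = a + x
  · rw [← h0]
  · apply SimpleGraph.Adj.reachable
    rw [Hg_adj hB]
    exact ⟨h0, by simpa using hx⟩

lemma Hg_conn (hB : Gen BB) : (Hg BB).Connected := by
  let H : AddSubgroup Q :=
    { carrier := {x | ∀ a, (Hg BB).Reachable a (a + x)}
      add_mem' := by
        intro x y hx hy a
        have h1 := hx a
        have h2 := hy (a + x)
        rw [add_assoc] at h2
        exact h1.trans h2
      zero_mem' := by
        intro a
        rw [add_zero]
      neg_mem' := by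
        intro x hx a
        have h1 := hx (a + -x)
        rw [neg_add_cancel_right] at h1
        exact h1.symm }
  have hH : H = ⊤ := hB.gen H fun x hx a => Hg_reach hB hx
  rw [SimpleGraph.connected_iff]
  refine ⟨?_, ⟨0⟩⟩
  intro a b
  have h1 : b - a ∈ H := by rw [hH]; trivial
  have h2 := h1 a
  simpa using h2

lemma Hg_three [Fintype Q] [DecidableEq Q] (hB : Gen BB) (h4 : 4 ≤ BB.card) (u v : Q) :
    ((Hg BB).induce {x | x ≠ u ∧ x ≠ v}).Preconnected := by
  classical
  intro x y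
  by_contra hxy
  let A : Finset Q := univ.filter fun z =>
    ∃ hz : z ∈ {x | x ≠ u ∧ x ≠ v}, ((Hg BB).induce {x | x ≠ u ∧ x ≠ v}).Reachable x ⟨z, hz⟩
  have hxA : x.1 ∈ A := by
    simp only [A, mem_filter, mem_univ, true_and]
    exact ⟨x.2, SimpleGraph.Reachable.refl _⟩
  have hsub : A + BB ⊆ A ∪ {u, v} := by
    intro z hz
    obtain ⟨a, ha, b, hb, rfl⟩ := mem_add.1 hz
    by_cases hab : a + b ≠ u ∧ a + b ≠ v
    · rw [mem_union]
      left
      simp only [A, mem_filter, mem_univ, true_and] at ha ⊢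
      obtain ⟨ha1, ha2⟩ := ha
      refine ⟨hab, ha2.trans ?_⟩
      by_cases h0 : a = a + b
      · have : (⟨a, ha1⟩ : {x : Q | x ≠ u ∧ x ≠ v}) = ⟨a + b, hab⟩ := Subtype.ext h0
        rw [this]
      · apply SimpleGraph.Adj.reachable
        rw [SimpleGraph.comap_adj]
        exact (Hg_adj hB).2 ⟨h0, by simpa using hb⟩
    · rw [mem_union]
      right
      rw [mem_insert, mem_singleton]
      tauto
  have huniv : A + BB = univ := by
    by_contra hne
    have h1 := expand A BB ⟨x.1, hxA⟩ hB.zero hB.neg h4 hB.gen hne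
    have h2 := card_le_card hsub
    have h3 : (A ∪ {u, v}).card ≤ A.card + 2 := by
      refine (card_union_le _ _).trans ?_
      have : ({u, v} : Finset Q).card ≤ 2 := card_le_two
      omega
    omega
  have hy : y.1 ∈ A ∪ {u, v} := hsub (by rw [huniv]; exact mem_univ _)
  rw [mem_union, mem_insert, mem_singleton] at hy
  rcases hy with hy | hy | hy
  · simp only [A, mem_filter, mem_univ, true_and] at hy
    obtain ⟨h1, h2⟩ := hy
    exact hxy h2
  · exact y.2.1 hy
  · exact y.2.2 hy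

variable [DecidableEq Q]

/-- one move: the token on a track next to the vacant track slides to it -/
def Step (BB : Finset Q) (σ σ' : Equiv.Perm Q) : Prop :=
  σ' = σ ∨ ∃ v, v - σ 0 ∈ BB ∧ σ' = Equiv.swap (σ 0) v * σ

/-- `σ'` can be reached from `σ` in at most `k` moves -/
def Reach (BB : Finset Q) (k : ℕ) (σ σ' : Equiv.Perm Q) : Prop :=
  ∃ w : ℕ → Equiv.Perm Q, w 0 = σ ∧ w k = σ' ∧ ∀ t, t < k → Step BB (w t) (w (t + 1))

lemma Reach.refl (k : ℕ) (σ : Equiv.Perm Q) : Reach BB k σ σ :=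
  ⟨fun _ => σ, rfl, rfl, fun _ _ => Or.inl rfl⟩

lemma Reach.one {σ σ' : Equiv.Perm Q} (h : Step BB σ σ') : Reach BB 1 σ σ' := by
  refine ⟨fun t => if t = 0 then σ else σ', by simp, by simp, ?_⟩
  intro t ht
  have : t = 0 := by omega
  subst this
  simpa using h

lemma Reach.trans {k l : ℕ} {σ σ' σ'' : Equiv.Perm Q} (h : Reach BB k σ σ')
    (h' : Reach BB l σ' σ'') : Reach BB (k + l) σ σ'' := by
  obtain ⟨w, h1, h2, h3⟩ := h
  obtain ⟨w', h1', h2', h3'⟩ := h'
  refine ⟨fun t => if t < k then w t else w' (t - k), ?_, ?_, ?_⟩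
  · by_cases hk : 0 < k
    · simp only [hk, if_true]; exact h1
    · have : k = 0 := by omega
      subst this
      simp only [lt_irrefl, if_false]
      rw [h1', ← h2, h1]
  · have : ¬ k + l < k := by omega
    simp only [this, if_false]
    rw [Nat.add_sub_cancel_left]
    exact h2'
  · intro t ht
    by_cases h5 : t + 1 < k
    · have h6 : t < k := by omega
      simp only [h5, h6, if_true]
      exact h3 t h6
    · by_cases h6 : t < k
      · have h7 : t + 1 = k := by omega
        simp only [h5, h6, if_true, if_false]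
        have h8 := h3 t h6
        rw [h7, h2] at h8
        rw [h7, Nat.sub_self, h1']
        exact h8
      · simp only [h5, h6, if_false]
        have h8 := h3' (t - k) (by omega)
        rw [show t + 1 - k = t - k + 1 by omega]
        exact h8

lemma Reach.mono {k l : ℕ} {σ σ' : Equiv.Perm Q} (h : Reach BB k σ σ') (hkl : k ≤ l) :
    Reach BB l σ σ' := by
  have := h.trans (Reach.refl (BB := BB) (l - k) σ')
  rwa [Nat.add_sub_cancel' hkl] at this

/-- the vacant track moves along a walk that avoids the tracks `u` and `v` -/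
lemma hole_walk (hB : Gen BB) (u v : Q) {a b : {x : Q | x ≠ u ∧ x ≠ v}}
    (p : ((Hg BB).induce {x | x ≠ u ∧ x ≠ v}).Walk a b) :
    ∀ σ : Equiv.Perm Q, σ 0 = a.1 → ∃ σ', Reach BB p.length σ σ' ∧ σ' 0 = b.1 ∧
      (∀ i, σ i = u → σ' i = u) ∧ (∀ i, σ i = v → σ' i = v) := by
  induction p with
  | nil =>
    intro σ hσ
    exact ⟨σ, Reach.refl _ _, hσ, fun i hi => hi, fun i hi => hi⟩
  | @cons a c b hac q ih =>
    intro σ hσ
    have hadj : (Hg BB).Adj a.1 c.1 := by
      rw [SimpleGraph.comap_adj] at hac; exact hac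
    have hH := ((Hg_adj hB).1 hadj).2
    have hne := ((Hg_adj hB).1 hadj).1
    set σ1 : Equiv.Perm Q := Equiv.swap (σ 0) c.1 * σ with hσ1
    have hst : Step BB σ σ1 := Or.inr ⟨c.1, by rw [hσ]; exact hH, rfl⟩
    have h0 : σ1 0 = c.1 := by
      rw [hσ1, Equiv.Perm.mul_apply, Equiv.swap_apply_left]
    obtain ⟨σ', h1, h2, h3, h4⟩ := ih σ1 h0
    refine ⟨σ', ?_, h2, ?_, ?_⟩
    · rw [SimpleGraph.Walk.length_cons, add_comm]
      exact (Reach.one hst).trans h1
    · intro i hi
      apply h3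
      rw [hσ1, Equiv.Perm.mul_apply, hi, Equiv.swap_apply_of_ne_of_ne]
      · rw [hσ]; exact fun h => a.2.1 h.symm
      · exact fun h => c.2.1 h.symm
    · intro i hi
      apply h4
      rw [hσ1, Equiv.Perm.mul_apply, hi, Equiv.swap_apply_of_ne_of_ne]
      · rw [hσ]; exact fun h => a.2.2 h.symm
      · exact fun h => c.2.2 h.symm

variable [Fintype Q]

/-- any two tokens can be made adjacent -/
lemma approach (hB : Gen BB) (h4 : 4 ≤ BB.card) (i j : Q) (hi : i ≠ 0) (hj : j ≠ 0)
    (hij : i ≠ j) :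
    ∀ (m : ℕ) (σ : Equiv.Perm Q), (Hg BB).dist (σ i) (σ j) ≤ m + 1 →
      ∃ σ', Reach BB (Fintype.card Q * m) σ σ' ∧ σ' j - σ' i ∈ BB := by
  classical
  intro m
  induction m with
  | zero =>
    intro σ hσ
    refine ⟨σ, Reach.refl _ _, ?_⟩
    have hne : σ i ≠ σ j := fun h => hij (σ.injective h)
    have h1 : (Hg BB).dist (σ i) (σ j) ≠ 0 := by
      rw [Ne, (Hg_conn hB).dist_eq_zero_iff]; exact hne
    have h2 : (Hg BB).dist (σ i) (σ j) = 1 := by omega
    rw [SimpleGraph.dist_eq_one_iff_adj] at h2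
    exact ((Hg_adj hB).1 h2).2
  | succ m ih =>
    intro σ hσ
    by_cases hle : (Hg BB).dist (σ i) (σ j) ≤ m + 1
    · obtain ⟨σ', h1, h2⟩ := ih σ hle
      exact ⟨σ', h1.mono (Nat.mul_le_mul_left _ (by omega)), h2⟩
    have hd : (Hg BB).dist (σ i) (σ j) = m + 2 := by omega
    obtain ⟨p, hp⟩ := (Hg_conn hB).exists_walk_length_eq_dist (σ i) (σ j)
    rw [hd] at hp
    generalize hsj : σ j = sj at p
    cases p with
    | nil => simp at hp
    | @cons _ c _ hac q =>
      subst hsj
      rw [SimpleGraph.Walk.length_cons] at hp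
      have hcd : (Hg BB).dist c (σ j) ≤ m + 1 := by
        have := SimpleGraph.dist_le q
        omega
      have hcj : c ≠ σ j := by
        intro h
        have : (Hg BB).dist (σ i) (σ j) ≤ 1 := by
          rw [← h]
          rw [SimpleGraph.dist_eq_one_iff_adj.2 hac]
        omega
      have hci : c ≠ σ i := fun h => ((Hg_adj hB).1 hac).1 h.symm
      have h0i : σ 0 ≠ σ i := fun h => hi (σ.injective h).symm
      have h0j : σ 0 ≠ σ j := fun h => hj (σ.injective h).symm
      obtain ⟨q', hq'⟩ := (Hg_three hB h4 (σ i) (σ j) ⟨σ 0, h0i, h0j⟩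
        ⟨c, hci, hcj⟩).exists_isPath
      have hlen : q'.length < Fintype.card Q := by
        have h1 := hq'.length_lt
        have h2 : Fintype.card {x : Q | x ≠ σ i ∧ x ≠ σ j} ≤ Fintype.card Q :=
          Fintype.card_subtype_le _
        exact lt_of_lt_of_le h1 h2
      obtain ⟨σ', h1, h2, h3, h5⟩ := hole_walk hB (σ i) (σ j) q' σ rfl
      have h3' := h3 i rfl
      have h5' := h5 j rfl
      simp only at h2
      set σ'' : Equiv.Perm Q := Equiv.swap (σ' 0) (σ i) * σ' with hσ''
      have hst : Step BB σ' σ'' :=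
        Or.inr ⟨σ i, by rw [h2]; exact hB.swap ((Hg_adj hB).1 hac).2, rfl⟩
      have e1 : σ'' i = c := by
        rw [hσ'', Equiv.Perm.mul_apply, h3', Equiv.swap_apply_right, h2]
      have e2 : σ'' j = σ j := by
        rw [hσ'', Equiv.Perm.mul_apply, h5', Equiv.swap_apply_of_ne_of_ne]
        · rw [h2]; exact hcj.symm
        · exact fun h => hij (σ.injective h).symm
      obtain ⟨σ3, h6, h7⟩ := ih σ'' (by rw [e1, e2]; exact hcd)
      refine ⟨σ3, ?_, h7⟩
      have h8 := (h1.trans (Reach.one hst)).trans h6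
      apply h8.mono
      rw [mul_add, mul_one]
      omega

/-- an endless schedule of moves in which any two tokens meet again and again -/
lemma exists_schedule (hB : Gen BB) (h4 : 4 ≤ BB.card) (e : Fin (Fintype.card Q) ≃ Q)
    (q : ℕ) (hq : q = Fintype.card Q) :
    ∃ w : ℕ → Equiv.Perm Q, w 0 = 1 ∧ (∀ t, Step BB (w t) (w (t + 1))) ∧
      ∀ f, ∀ i j : Q, i ≠ 0 → j ≠ 0 → i ≠ j →
        ∃ b, (q * q) * (q * q) * f ≤ b ∧ b < (q * q) * (q * q) * (f + 1) ∧
          w (b + 1) j - w (b + 1) i ∈ BB := by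
  classical
  have hq0 : 0 < q := by rw [hq]; exact Fintype.card_pos
  set K := q * q with hK
  have hK0 : 0 < K := Nat.mul_pos hq0 hq0
  have key : ∀ (σ : Equiv.Perm Q) (c : Q × Q), ∃ w : ℕ → Equiv.Perm Q,
      w 0 = σ ∧ (∀ t, t < K → Step BB (w t) (w (t + 1))) ∧
      (c.1 ≠ 0 → c.2 ≠ 0 → c.1 ≠ c.2 → w K c.2 - w K c.1 ∈ BB) := by
    intro σ c
    by_cases hc : c.1 ≠ 0 ∧ c.2 ≠ 0 ∧ c.1 ≠ c.2
    · have hdist : (Hg BB).dist (σ c.1) (σ c.2) ≤ q + 1 := by
        obtain ⟨p, hp⟩ := ((Hg_conn hB).preconnected (σ c.1) (σ c.2)).exists_isPath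
        have h1 := hp.length_lt
        have h2 := SimpleGraph.dist_le p
        omega
      obtain ⟨σ', h1, h2⟩ := approach hB h4 c.1 c.2 hc.1 hc.2.1 hc.2.2 q σ hdist
      obtain ⟨w, hw0, hwK, hw⟩ := h1
      rw [← hq, ← hK] at hwK hw
      refine ⟨w, hw0, hw, fun _ _ _ => ?_⟩
      rw [hwK]; exact h2
    · exact ⟨fun _ => σ, rfl, fun _ _ => Or.inl rfl, fun h1 h2 h3 => absurd ⟨h1, h2, h3⟩ hc⟩
  choose F hF0 hFs hFK using key
  have hqc : ∀ x : ℕ, x % q < Fintype.card Q := fun x => by rw [← hq]; exact Nat.mod_lt _ hq0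
  let c : ℕ → Q × Q := fun s => (e ⟨s % q, hqc s⟩, e ⟨(s / q) % q, hqc (s / q)⟩)
  let S : ℕ → Equiv.Perm Q := fun s => Nat.rec 1 (fun s σ => F σ (c s) K) s
  have hS : ∀ s, S (s + 1) = F (S s) (c s) K := fun s => rfl
  let w : ℕ → Equiv.Perm Q := fun x => F (S (x / K)) (c (x / K)) (x % K)
  have hwmul : ∀ s, w (K * s) = S s := by
    intro s
    show F (S (K * s / K)) (c (K * s / K)) (K * s % K) = S s
    rw [Nat.mul_div_cancel_left _ hK0, Nat.mul_mod_right, hF0]
  have hwin : ∀ s t, t ≤ K → w (K * s + t) = F (S s) (c s) t := by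
    intro s t ht
    rcases Nat.eq_or_lt_of_le ht with h | h
    · subst h
      rw [← hS, ← hwmul (s + 1), mul_add, mul_one]
    · show F (S ((K * s + t) / K)) (c ((K * s + t) / K)) ((K * s + t) % K) = _
      rw [Nat.mul_add_div hK0, Nat.div_eq_of_lt h, add_zero, Nat.mul_add_mod, Nat.mod_eq_of_lt h]
  refine ⟨w, ?_, ?_, ?_⟩
  · have := hwmul 0
    rw [mul_zero] at this
    rw [this]
    rfl
  · intro t
    have h1 : t = K * (t / K) + t % K := (Nat.div_add_mod t K).symm
    have h2 : t % K < K := Nat.mod_lt _ hK0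
    have h3 := hwin (t / K) (t % K) h2.le
    have h4 := hwin (t / K) (t % K + 1) h2
    rw [← h1] at h3
    rw [← add_assoc, ← h1] at h4
    rw [h3, h4]
    exact hFs _ _ _ h2
  · intro f i j hi hj hij
    obtain ⟨i', rfl⟩ := e.surjective i
    obtain ⟨j', rfl⟩ := e.surjective j
    have hi' : i'.val < q := by rw [hq]; exact i'.2
    have hj' : j'.val < q := by rw [hq]; exact j'.2
    let s := K * f + (q * j'.val + i'.val)
    have hs1 : q * j'.val + i'.val < K := by
      have h1 : q * (j'.val + 1) ≤ q * q := Nat.mul_le_mul_left _ hj'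
      rw [mul_add, mul_one] at h1
      omega
    have hc : c s = (e i', e j') := by
      have h1 : s % q = i'.val := by
        simp only [s, hK]
        rw [show q * q * f + (q * j'.val + i'.val) = q * (q * f + j'.val) + i'.val by ring,
          Nat.mul_add_mod, Nat.mod_eq_of_lt hi']
      have h2 : s / q % q = j'.val := by
        simp only [s, hK]
        rw [show q * q * f + (q * j'.val + i'.val) = q * (q * f + j'.val) + i'.val by ring,
          Nat.mul_add_div hq0, Nat.div_eq_of_lt hi', add_zero, Nat.mul_add_mod,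
          Nat.mod_eq_of_lt hj']
      have h3 : (⟨s % q, hqc s⟩ : Fin (Fintype.card Q)) = i' := Fin.ext h1
      have h4 : (⟨s / q % q, hqc (s / q)⟩ : Fin (Fintype.card Q)) = j' := Fin.ext h2
      show (e ⟨s % q, hqc s⟩, e ⟨(s / q) % q, hqc (s / q)⟩) = (e i', e j')
      rw [h3, h4]
    have hb : w (K * s + K) = F (S s) (c s) K := hwin s K le_rfl
    refine ⟨K * s + K - 1, ?_, ?_, ?_⟩
    · have h1 : K * (K * f) ≤ K * s := Nat.mul_le_mul_left _ (by simp only [s]; omega)
      rw [mul_assoc K]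
      omega
    · have h1 : K * (s + 1) ≤ K * (K * (f + 1)) := by
        apply Nat.mul_le_mul_left
        simp only [s]
        rw [mul_add K f, mul_one]
        omega
      rw [mul_assoc K]
      rw [mul_add K s, mul_one] at h1
      omega
    · rw [show K * s + K - 1 + 1 = K * s + K by omega, hb, hc]
      exact hFK (S s) (e i', e j') hi hj hij

end Pool.Agent.H55.AC
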