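import Pool.Agent.H55.AC.Cut
import Pool.Agent.H55.AC.Slide

/-!
# Clique minors in long rings
-/

namespace Pool.Agent.H55.AC

open Relation Finset Pool.Agent.H55.SC

variable {G Q : Type} [AddCommGroup G] [AddCommGroup Q]

/-- a ring-like Cayley graph: edges `E`, heights `ℓ`, tracks `tr`, the cosets of `s0` -/
structure Rg (ℓ : G →+ ℤ) (E : Set G) (tr : G →+ Q) (s0 : G) : Prop where
  symm : ∀ x ∈ E, -x ∈ E
  ne0 : ∀ x ∈ E, x ≠ 0
  sE : s0 ∈ E
  d0 : 0 < ℓ s0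
  hE : ∀ x ∈ E, ℓ x ≤ ℓ s0
  htr : ∀ x, tr x = 0 ↔ ∃ k : ℤ, x = k • s0
  surj : Function.Surjective tr

variable {ℓ : G →+ ℤ} {E : Set G} {tr : G →+ Q} {s0 : G}

lemma Rg.dat (h : Rg ℓ E tr s0) (T : ℕ) {z : G} (hz : (2 * ℓ s0) * (T + 1) ≤ ℓ z) :
    Dat ℓ E tr s0 z T (2 * (ℓ s0).toNat) := by
  have hd := h.d0
  have h1 : (((ℓ s0).toNat : ℕ) : ℤ) = ℓ s0 := Int.toNat_of_nonneg hd.le
  refine ⟨h.symm, h.ne0, h.sE, h.d0, h.hE, h.htr, h.surj, ?_, ?_⟩
  · push_cast; rw [h1]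
  · push_cast; rw [h1]; exact hz

lemma Rg.gen (h : Rg ℓ E tr s0) {BB : Finset Q} (hBB : ∀ x, x ∈ BB ↔ ∃ s ∈ E, tr s = x)
    (hgen : ∀ H : AddSubgroup G, (∀ x ∈ E, x ∈ H) → H = ⊤) : Gen BB := by
  refine ⟨?_, ?_, ?_⟩
  · rw [hBB]
    exact ⟨s0, h.sE, (h.htr _).2 ⟨1, by simp⟩⟩
  · intro x hx
    rw [hBB] at hx ⊢
    obtain ⟨s, hs, rfl⟩ := hx
    exact ⟨-s, h.symm s hs, map_neg _ _⟩
  · intro H hH
    have h1 : H.comap tr = ⊤ := by
      apply hgen
      intro x hx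
      rw [AddSubgroup.mem_comap]
      exact hH _ ((hBB _).2 ⟨x, hx, rfl⟩)
    rw [eq_top_iff]
    intro r _
    obtain ⟨x, rfl⟩ := h.surj r
    have h2 : x ∈ H.comap tr := by rw [h1]; trivial
    exact h2

lemma hadj_iff {BB : Finset Q} (hBB : ∀ x, x ∈ BB ↔ ∃ s ∈ E, tr s = x) {r r' : Q} :
    Hadj E tr r r' ↔ r' - r ∈ BB := by
  unfold Hadj
  rw [hBB]
  constructor
  · rintro ⟨s, hs, rfl⟩
    exact ⟨s, hs, by abel⟩
  · rintro ⟨s, hs, h⟩
    exact ⟨s, hs, by rw [h]; abel⟩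

lemma exists_equiv [Fintype Q] {m : ℕ} (hm : Fintype.card Q = m + 1) :
    ∃ e : Fin (m + 1) ≃ Q, e 0 = 0 := by
  classical
  let e0 : Fin (m + 1) ≃ Q := (Fintype.equivFinOfCardEq hm).symm
  refine ⟨e0.trans (Equiv.swap (e0 0) 0), ?_⟩
  simp

/-- one vacant track: `2 (q - 1)` branch sets -/
theorem minor_slide [Fintype Q] [DecidableEq Q] (h : Rg ℓ E tr s0) {BB : Finset Q}
    (hBB : ∀ x, x ∈ BB ↔ ∃ s ∈ E, tr s = x) (hB : Gen BB) (h4 : 4 ≤ BB.card) {m : ℕ}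
    (hm : Fintype.card Q = m + 1) :
    ∃ N : ℤ, ∀ z, N ≤ ℓ z →
      ∃ P : {i : Fin (m + 1) // i ≠ 0} × Bool → G → Prop, NM ℓ E z P := by
  obtain ⟨ι, hι0⟩ := exists_equiv hm
  obtain ⟨w, hw0, hws, hwe⟩ := exists_schedule hB h4 ((finCongr hm).trans ι) (m + 1) hm.symm
  set e0 := (m + 1) * (m + 1) * ((m + 1) * (m + 1)) with he0
  have he00 : 0 < e0 := by positivity
  refine ⟨(2 * ℓ s0) * ((2 * (m + 1) * e0 : ℕ) + 1), ?_⟩
  intro z hz
  have hDat := h.dat (2 * (m + 1) * e0) hz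
  have hιne : ∀ i, i ≠ 0 → ι i ≠ 0 := by
    intro i hi h
    apply hi
    apply ι.injective
    rw [h, hι0]
  let g : ℕ → Fin (m + 1) → Q → Prop := fun b i r => r = w b (ι i) ∨ r = w (b + 1) (ι i)
  have hsw : ∀ b (i j : Q), i ≠ 0 → j ≠ 0 → i ≠ j → w b i ≠ w (b + 1) j := by
    intro b i j hi hj hij h
    rcases hws b with h1 | ⟨v, _, h1⟩
    · rw [h1] at h
      exact hij ((w b).injective h)
    · rw [h1, Equiv.Perm.mul_apply] at h
      by_cases hv : w b j = v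
      · rw [hv, Equiv.swap_apply_right] at h
        exact hi ((w b).injective h)
      · rw [Equiv.swap_apply_of_ne_of_ne _ hv] at h
        · exact hij ((w b).injective h)
        · exact fun h2 => hj ((w b).injective h2)
  have hmove : ∀ b (i : Q), i ≠ 0 → w b i = w (b + 1) i ∨
      Hadj E tr (w b i) (w (b + 1) i) := by
    intro b i hi
    rcases hws b with h1 | ⟨v, hv1, h1⟩
    · left; rw [h1]
    · rw [h1, Equiv.Perm.mul_apply]
      by_cases hv : w b i = v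
      · right
        rw [hv, Equiv.swap_apply_right, hadj_iff hBB]
        exact hB.swap hv1
      · left
        rw [Equiv.swap_apply_of_ne_of_ne _ hv]
        exact fun h2 => hi ((w b).injective h2)
  have hFrm : Frm E tr (2 * (m + 1) * e0) 0 g := by
    refine ⟨?_, ?_, ?_⟩
    · intro b _ i j hi hj hij r hr hr'
      have hi' := hιne i hi
      have hj' := hιne j hj
      have hij' : ι i ≠ ι j := fun h => hij (ι.injective h)
      rcases hr with hr | hr <;> rcases hr' with hr' | hr'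
      · exact hij' ((w b).injective (hr.symm.trans hr'))
      · exact hsw b _ _ hi' hj' hij' (hr.symm.trans hr')
      · exact hsw b _ _ hj' hi' hij'.symm (hr'.symm.trans hr)
      · exact hij' ((w (b + 1)).injective (hr.symm.trans hr'))
    · intro b _ i hi r r' hr hr'
      have hi' := hιne i hi
      have hm := hmove b (ι i) hi'
      have h1 : g b i (w b (ι i)) := Or.inl rfl
      have h2 : g b i (w (b + 1) (ι i)) := Or.inr rfl
      rcases hr with hr | hr <;> rcases hr' with hr' | hr' <;> subst hr <;> subst hr'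
      · exact ReflTransGen.refl
      · rcases hm with hm | hm
        · rw [← hm]
        · exact ReflTransGen.single ⟨h1, h2, hm⟩
      · rcases hm with hm | hm
        · rw [← hm]
        · exact ReflTransGen.single ⟨h2, h1, hDat.Hsymm hm⟩
      · exact ReflTransGen.refl
    · intro b _ i _
      exact ⟨w (b + 1) (ι i), Or.inr rfl, Or.inl rfl⟩
  let τ : Equiv.Perm (Fin (m + 1)) :=
    ι.trans ((w (2 * (m + 1) * e0)).trans ((Equiv.subRight (tr z)).trans ι.symm))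
  have hτ : ∀ i, ι (τ i) = w (2 * (m + 1) * e0) (ι i) - tr z := by
    intro i
    simp [τ]
  refine ring he00 hDat hFrm τ ?_ ?_
  · intro e _ i j hi hj hij
    obtain ⟨b, hb1, hb2, hb3⟩ := hwe e (ι i) (ι j) (hιne i hi) (hιne j hj)
      (fun h => hij (ι.injective h))
    exact ⟨b, hb1, hb2, _, _, Or.inr rfl, Or.inr rfl, (hadj_iff hBB).2 hb3⟩
  · intro i _ _
    refine ⟨w (2 * (m + 1) * e0) (ι i), Or.inl rfl, Or.inl ?_⟩
    rw [hτ, hw0]
    rfl

/-- all tracks are adjacent: `2 q` branch sets -/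
theorem minor_full [Fintype Q] (h : Rg ℓ E tr s0)
    (hall : ∀ x : Q, ∃ s ∈ E, tr s = x) {m : ℕ} (hm : Fintype.card Q = m) :
    ∃ N : ℤ, ∀ z, N ≤ ℓ z →
      ∃ P : {i : Fin (m + 1) // i ≠ 0} × Bool → G → Prop, NM ℓ E z P := by
  let ι : Fin m ≃ Q := (Fintype.equivFinOfCardEq hm).symm
  refine ⟨(2 * ℓ s0) * ((2 * (m + 1) * 1 : ℕ) + 1), ?_⟩
  intro z hz
  have hDat := h.dat (2 * (m + 1) * 1) hz
  have hadj : ∀ r r' : Q, Hadj E tr r r' := by
    intro r r'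
    obtain ⟨s, hs, hs'⟩ := hall (r' - r)
    exact ⟨s, hs, by rw [hs']; abel⟩
  let g : ℕ → Fin (m + 1) → Q → Prop := fun _ i r => ∃ k : Fin m, i = k.succ ∧ r = ι k
  have hFrm : Frm E tr (2 * (m + 1) * 1) 0 g := by
    refine ⟨?_, ?_, ?_⟩
    · rintro b _ i j hi hj hij r ⟨k, rfl, rfl⟩ ⟨k', rfl, hk'⟩
      exact hij (by rw [ι.injective hk'])
    · rintro b _ i hi r r' ⟨k, rfl, rfl⟩ ⟨k', hk, rfl⟩
      rw [Fin.succ_injective _ hk]
    · intro b _ i hi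
      obtain ⟨k, rfl⟩ := Fin.exists_succ_eq.2 hi
      exact ⟨ι k, ⟨k, rfl, rfl⟩, ⟨k, rfl, rfl⟩⟩
  let π : Equiv.Perm (Fin m) := ι.trans ((Equiv.subRight (tr z)).trans ι.symm)
  let τ : Equiv.Perm (Fin (m + 1)) :=
    (finSuccEquiv m).trans ((Equiv.optionCongr π).trans (finSuccEquiv m).symm)
  have hτ : ∀ k : Fin m, τ k.succ = (π k).succ := by
    intro k
    simp [τ]
  refine ring one_pos hDat hFrm τ ?_ ?_
  · intro e _ i j hi hj hij
    obtain ⟨k, rfl⟩ := Fin.exists_succ_eq.2 hi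
    obtain ⟨k', rfl⟩ := Fin.exists_succ_eq.2 hj
    exact ⟨e, by omega, by omega, ι k, ι k', ⟨k, rfl, rfl⟩, ⟨k', rfl, rfl⟩, hadj _ _⟩
  · intro i hi _
    obtain ⟨k, rfl⟩ := Fin.exists_succ_eq.2 hi
    refine ⟨ι k, ⟨k, rfl, rfl⟩, ⟨π k, hτ k, ?_⟩⟩
    simp [π]

/-- the tracks of the three carriers -/
def gB (s : Q) : ℕ → Fin (3 + 1) → Q → Prop := fun _ i r =>
  (i = 1 ∧ r = 0) ∨ (i = 2 ∧ r = s) ∨ (i = 3 ∧ r ≠ 0 ∧ r ≠ s)

/-- the tracks form a cycle: six branch sets -/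
theorem minor_cycle (h : Rg ℓ E tr s0) {q : ℕ} (hq : 3 ≤ q) {s : Q} (hs : ∃ x ∈ E, tr x = s)
    (hmul : ∀ r : Q, ∃ k : ℕ, k < q ∧ k • s = r)
    (hinj : ∀ k l : ℕ, k < q → l < q → k • s = l • s → k = l) :
    ∃ N : ℤ, ∀ z, N ≤ ℓ z →
      ∃ P : {i : Fin (3 + 1) // i ≠ 0} × Bool → G → Prop, NM ℓ E z P := by
  refine ⟨(2 * ℓ s0) * ((2 * (3 + 1) * 1 : ℕ) + 1), ?_⟩
  intro z hz
  have hDat := h.dat (2 * (3 + 1) * 1) hz
  have hs0 : s ≠ 0 := by
    intro h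
    have := hinj 1 0 (by omega) (by omega) (by rw [h]; simp)
    omega
  have h2s0 : s + s ≠ 0 := by
    intro h
    have := hinj 2 0 (by omega) (by omega) (by rw [two_nsmul, h]; simp)
    omega
  have h2ss : s + s ≠ s := by
    intro h
    have := hinj 2 1 (by omega) (by omega) (by rw [two_nsmul, h, one_nsmul])
    omega
  have hns : -s ≠ s := by
    intro h
    apply h2s0
    have : s + s = s - (-s) := by abel
    rw [this, h, sub_self]
  have hns0 : -s ≠ 0 := fun h => hs0 (neg_eq_zero.1 h)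
  obtain ⟨x0, hx0, hx0s⟩ := hs
  have hadj : ∀ r : Q, Hadj E tr r (r + s) := fun r => ⟨x0, hx0, by rw [hx0s]⟩
  -- connectivity of the third carrier
  have hcon3 : ∀ r : Q, r ≠ 0 → r ≠ s →
      ReflTransGen (fun x y => (x ≠ 0 ∧ x ≠ s) ∧ (y ≠ 0 ∧ y ≠ s) ∧ Hadj E tr x y) (s + s) r := by
    intro r hr0 hrs
    obtain ⟨k, hk, rfl⟩ := hmul r
    have hk2 : 2 ≤ k := by
      rcases k with _ | _ | k
      · exact absurd (by simp) hr0
      · exact absurd (by simp) hrs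
      · omega
    clear hr0 hrs
    induction k, hk2 using Nat.le_induction with
    | base => rw [two_nsmul]
    | succ k hk2 ih =>
      have h1 := ih (by omega)
      have e0 : ∀ l : ℕ, 2 ≤ l → l < q → (l • s ≠ 0 ∧ l • s ≠ s) := by
        intro l hl hld
        constructor
        · intro h
          have := hinj l 0 hld (by omega) (by rw [h]; simp)
          omega
        · intro h
          have := hinj l 1 hld (by omega) (by rw [h]; simp)
          omega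
      refine h1.tail ⟨e0 k hk2 (by omega), e0 (k + 1) (by omega) hk, ?_⟩
      have := hadj (k • s)
      rwa [← succ_nsmul] at this
  have hsymm : ∀ x y : Q,
      ReflTransGen (fun x y => (x ≠ 0 ∧ x ≠ s) ∧ (y ≠ 0 ∧ y ≠ s) ∧ Hadj E tr x y) x y →
      ReflTransGen (fun x y => (x ≠ 0 ∧ x ≠ s) ∧ (y ≠ 0 ∧ y ≠ s) ∧ Hadj E tr x y) y x := by
    intro x y h
    induction h with
    | refl => exact ReflTransGen.refl
    | tail _ h2 ih => exact ReflTransGen.head ⟨h2.2.1, h2.1, hDat.Hsymm h2.2.2⟩ ih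
  have g1 : ∀ b r, gB s b 1 r ↔ r = 0 := by intro b r; simp [gB]
  have g2 : ∀ b r, gB s b 2 r ↔ r = s := by intro b r; simp [gB]
  have g3 : ∀ b r, gB s b 3 r ↔ (r ≠ 0 ∧ r ≠ s) := by intro b r; simp [gB]
  have hfin : ∀ i : Fin (3 + 1), i ≠ 0 → i = 1 ∨ i = 2 ∨ i = 3 := by
    intro i hi; fin_cases i <;> simp at hi ⊢
  have hFrm : Frm E tr (2 * (3 + 1) * 1) 0 (gB s) := by
    refine ⟨?_, ?_, ?_⟩
    · intro b _ i j hi hj hij r hr hr'
      rcases hfin i hi with rfl | rfl | rfl <;> rcases hfin j hj with rfl | rfl | rfl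
      · exact hij rfl
      · rw [g1] at hr; rw [g2] at hr'; exact hs0 (hr'.symm.trans hr)
      · rw [g1] at hr; rw [g3] at hr'; exact hr'.1 hr
      · rw [g2] at hr; rw [g1] at hr'; exact hs0 (hr.symm.trans hr')
      · exact hij rfl
      · rw [g2] at hr; rw [g3] at hr'; exact hr'.2 hr
      · rw [g3] at hr; rw [g1] at hr'; exact hr.1 hr'
      · rw [g3] at hr; rw [g2] at hr'; exact hr.2 hr'
      · exact hij rfl
    · intro b _ i hi r r' hr hr'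
      rcases hfin i hi with rfl | rfl | rfl
      · rw [g1] at hr hr'
        rw [hr, hr']
      · rw [g2] at hr hr'
        rw [hr, hr']
      · rw [g3] at hr hr'
        have h1 := (hsymm _ _ (hcon3 r hr.1 hr.2)).trans (hcon3 r' hr'.1 hr'.2)
        have h2 : (fun x y : Q => (x ≠ 0 ∧ x ≠ s) ∧ (y ≠ 0 ∧ y ≠ s) ∧ Hadj E tr x y) =
            (fun x y => gB s b 3 x ∧ gB s b 3 y ∧ Hadj E tr x y) := by
          funext x y
          rw [g3, g3]
        rw [h2] at h1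
        exact h1
    · intro b _ i hi
      rcases hfin i hi with rfl | rfl | rfl
      · exact ⟨0, (g1 _ _).2 rfl, (g1 _ _).2 rfl⟩
      · exact ⟨s, (g2 _ _).2 rfl, (g2 _ _).2 rfl⟩
      · exact ⟨s + s, (g3 _ _).2 ⟨h2s0, h2ss⟩, (g3 _ _).2 ⟨h2s0, h2ss⟩⟩
  have hep : ∀ e, e < 2 * (3 + 1) → ∀ i j : Fin (3 + 1), i ≠ 0 → j ≠ 0 → i ≠ j → ∃ b,
      1 * e ≤ b ∧ b < 1 * (e + 1) ∧ ∃ r r', gB s b i r ∧ gB s b j r' ∧ Hadj E tr r r' := by
    intro e _ i j hi hj hij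
    refine ⟨e, by omega, by omega, ?_⟩
    have a12 : Hadj E tr 0 s := by simpa using hadj 0
    have a23 : Hadj E tr s (s + s) := hadj s
    have a13 : Hadj E tr 0 (-s) := by
      have := hDat.Hsymm (hadj (-s))
      rwa [neg_add_cancel] at this
    have m1 : gB s e 1 0 := (g1 _ _).2 rfl
    have m2 : gB s e 2 s := (g2 _ _).2 rfl
    have m3 : gB s e 3 (s + s) := (g3 _ _).2 ⟨h2s0, h2ss⟩
    have m3' : gB s e 3 (-s) := (g3 _ _).2 ⟨hns0, hns⟩
    rcases hfin i hi with rfl | rfl | rfl <;> rcases hfin j hj with rfl | rfl | rfl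
    · exact absurd rfl hij
    · exact ⟨_, _, m1, m2, a12⟩
    · exact ⟨_, _, m1, m3', a13⟩
    · exact ⟨_, _, m2, m1, hDat.Hsymm a12⟩
    · exact absurd rfl hij
    · exact ⟨_, _, m2, m3, a23⟩
    · exact ⟨_, _, m3', m1, hDat.Hsymm a13⟩
    · exact ⟨_, _, m3, m2, hDat.Hsymm a23⟩
    · exact absurd rfl hij
  set ν : Q := tr z with hν
  by_cases c0 : ν = 0
  · refine ring one_pos hDat hFrm 1 hep ?_
    intro i hi _
    rw [Equiv.Perm.one_apply, ← hν, c0]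
    rcases hfin i hi with rfl | rfl | rfl
    · exact ⟨0, (g1 _ _).2 rfl, (g1 _ _).2 (by abel)⟩
    · exact ⟨s, (g2 _ _).2 rfl, (g2 _ _).2 (by abel)⟩
    · exact ⟨s + s, (g3 _ _).2 ⟨h2s0, h2ss⟩, (g3 _ _).2 (by rw [sub_zero]; exact ⟨h2s0, h2ss⟩)⟩
  by_cases c1 : ν = s
  · let τ : Equiv.Perm (Fin (3 + 1)) := ⟨![0, 3, 1, 2], ![0, 2, 3, 1], by decide, by decide⟩
    refine ring one_pos hDat hFrm τ hep ?_
    intro i hi _
    rw [← hν, c1]
    rcases hfin i hi with rfl | rfl | rfl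
    · refine ⟨0, (g1 _ _).2 rfl, (g3 _ _).2 ?_⟩
      rw [zero_sub]; exact ⟨hns0, hns⟩
    · exact ⟨s, (g2 _ _).2 rfl, (g1 _ _).2 (by abel)⟩
    · exact ⟨s + s, (g3 _ _).2 ⟨h2s0, h2ss⟩, (g2 _ _).2 (by abel)⟩
  by_cases c2 : ν = -s
  · let τ : Equiv.Perm (Fin (3 + 1)) := ⟨![0, 2, 3, 1], ![0, 3, 1, 2], by decide, by decide⟩
    refine ring one_pos hDat hFrm τ hep ?_
    intro i hi _
    rw [← hν, c2]
    rcases hfin i hi with rfl | rfl | rfl
    · exact ⟨0, (g1 _ _).2 rfl, (g2 _ _).2 (by abel)⟩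
    · refine ⟨s, (g2 _ _).2 rfl, (g3 _ _).2 ?_⟩
      rw [sub_neg_eq_add]; exact ⟨h2s0, h2ss⟩
    · exact ⟨-s, (g3 _ _).2 ⟨hns0, hns⟩, (g1 _ _).2 (by abel)⟩
  · let τ : Equiv.Perm (Fin (3 + 1)) := ⟨![2, 3, 0, 1], ![2, 3, 0, 1], by decide, by decide⟩
    refine ring one_pos hDat hFrm τ hep ?_
    intro i hi hτ
    rw [← hν]
    rcases hfin i hi with rfl | rfl | rfl
    · refine ⟨0, (g1 _ _).2 rfl, (g3 _ _).2 ?_⟩
      rw [zero_sub]
      exact ⟨fun h => c0 (neg_eq_zero.1 h), fun h => c2 (by rw [← h, neg_neg])⟩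
    · exact absurd rfl hτ
    · exact ⟨ν, (g3 _ _).2 ⟨c0, c1⟩, (g1 _ _).2 (by abel)⟩

end Pool.Agent.H55.AC
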