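import Pool.Agent.H55.AC.Quot
import Pool.Agent.H55.AC.Types

/-!
# Rings whose tracks form a cycle are 6-colourable
-/

namespace Pool.Agent.H55.AC

open Relation Pool.Agent.H55.SC

lemma exists_lift {X Y Z : Type} [AddCommGroup X] [AddCommGroup Y] [AddCommGroup Z] (φ : X →+ Y)
    (hφ : Function.Surjective φ) (ψ : X →+ Z) (h : ∀ x, φ x = 0 → ψ x = 0) :
    ∃ θ : Y →+ Z, ∀ x, θ (φ x) = ψ x := by
  choose r hr using hφ
  have key : ∀ x y, φ x = φ y → ψ x = ψ y := by
    intro x y hxy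
    have := h (x - y) (by rw [map_sub, hxy, sub_self])
    rw [map_sub] at this
    exact sub_eq_zero.1 this
  refine ⟨{ toFun := fun y => ψ (r y), map_zero' := ?_, map_add' := ?_ }, ?_⟩
  · exact h _ (hr 0)
  · intro a b
    rw [← map_add]
    apply key
    rw [map_add, hr, hr, hr]
  · intro x
    exact key _ _ (hr _)

/-- colouring by a map to a cycle, the differences given by integers -/
theorem colorable_circle' {G Γ : Type} [AddCommGroup G] [AddCommGroup Γ] {S : Set G}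
    {π : G →+ Γ} (hsurj : Function.Surjective π) {M : ℕ}
    (hM : 0 < M) (θ : G →+ ZMod M) (hθ : ∀ x, π x = 0 → θ x = 0) {K : ℕ} (hK : 2 ≤ K)
    (h : ∀ s ∈ ES S, ∃ W : ℤ, (θ s = (W : ZMod M) ∨ θ s = -(W : ZMod M)) ∧ (M : ℤ) ≤ K * W ∧
      K * W ≤ (K - 1) * M) :
    (cay (π '' S)).Colorable K := by
  have : NeZero M := ⟨hM.ne'⟩
  apply colorable_circle hsurj hM θ hθ hK
  have key : ∀ (x : ZMod M) (W : ℤ), x = (W : ZMod M) → (M : ℤ) ≤ K * W → K * W ≤ (K - 1) * M →
      M ≤ K * x.val ∧ K * x.val ≤ (K - 1) * M := by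
    intro x W hx h1 h2
    have hKpos : (0 : ℤ) < K := by exact_mod_cast (by omega : 0 < K)
    have hMpos : (0 : ℤ) < M := by exact_mod_cast hM
    have hW0 : 0 < W := by
      by_contra hle
      have : (K : ℤ) * W ≤ 0 := mul_nonpos_of_nonneg_of_nonpos hKpos.le (by omega)
      omega
    have hWM : W < M := by
      by_contra hle
      have : (K : ℤ) * M ≤ K * W := mul_le_mul_of_nonneg_left (by omega) hKpos.le
      nlinarith
    have hval : ((x.val : ℕ) : ℤ) = W := by
      lift W to ℕ using hW0.le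
      rw [hx, Int.cast_natCast, ZMod.val_natCast_of_lt (by exact_mod_cast hWM)]
    constructor
    · have : (M : ℤ) ≤ K * (x.val : ℤ) := by rw [hval]; exact h1
      exact_mod_cast this
    · have h3 : ((K - 1 : ℕ) : ℤ) = (K : ℤ) - 1 := by
        rw [Nat.cast_sub (by omega)]; simp
      have : (K : ℤ) * (x.val : ℤ) ≤ ((K - 1 : ℕ) : ℤ) * M := by rw [hval, h3]; exact h2
      exact_mod_cast this
  intro s hs
  obtain ⟨W, hW, h1, h2⟩ := h s hs
  rcases hW with hW | hW
  · exact key _ W hW h1 h2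
  · apply key _ (M - W)
    · rw [hW]; push_cast; rw [ZMod.natCast_self]; ring
    · linarith
    · linarith

variable {G Q : Type} [AddCommGroup G] [AddCommGroup Q]
variable {ℓ : G →+ ℤ} {tr : G →+ Q} {s0 : G} {S : Set G}

/-- a normalised second generator -/
lemma second_gen (h : Rg ℓ (ES S) tr s0) {q : ℕ} (hq : 4 ≤ q) {c0 : G} (hc0 : c0 ∈ ES S)
    (hmul : ∀ r : Q, ∃ k : ℕ, k < q ∧ k • tr c0 = r)
    (hinj : ∀ k l : ℕ, k < q → l < q → k • tr c0 = l • tr c0 → k = l)
    (hB : ∀ x ∈ ES S, tr x = 0 ∨ tr x = tr c0 ∨ tr x = -tr c0) :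
    ∃ (c : G) (p : ℤ), 0 ≤ p ∧ p < q ∧ (q : ℤ) • c = p • s0 ∧ 0 ≤ ℓ c ∧
      (∀ g : G, ∃ i k : ℤ, g = i • s0 + k • c) ∧
      (∀ i k : ℤ, i • s0 + k • c = 0 → ∃ t : ℤ, k = q * t ∧ i = -(t * p)) ∧
      (∀ x ∈ ES S, x = s0 ∨ x = -s0 ∨ x = c ∨ x = -c ∨ x = c - s0 ∨ x = -(c - s0) ∨
        (p = 0 ∧ (x = c + s0 ∨ x = -(c + s0)))) := by
  have hd := h.d0
  have hs0 : tr s0 = 0 := (h.htr _).2 ⟨1, by simp⟩
  -- sign
  obtain ⟨c1, hc1E, hc1ℓ, hc1⟩ : ∃ c1 ∈ ES S, 0 ≤ ℓ c1 ∧ (tr c1 = tr c0 ∨ tr c1 = -tr c0) := by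
    rcases le_total 0 (ℓ c0) with h0 | h0
    · exact ⟨c0, hc0, h0, Or.inl rfl⟩
    · exact ⟨-c0, h.symm _ hc0, by rw [map_neg]; omega, Or.inr (by rw [map_neg])⟩
  have hc1d := h.hE c1 hc1E
  obtain ⟨c, hcℓ, hcd, hc⟩ : ∃ c, 0 ≤ ℓ c ∧ ℓ c < ℓ s0 ∧ tr c = tr c1 := by
    rcases lt_or_eq_of_le hc1d with h1 | h1
    · exact ⟨c1, hc1ℓ, h1, rfl⟩
    · refine ⟨c1 - s0, by rw [map_sub]; omega, by rw [map_sub]; omega, ?_⟩
      rw [map_sub, hs0, sub_zero]
  set t := tr c with ht
  have htt : t = tr c0 ∨ t = -tr c0 := by rw [hc]; exact hc1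
  have hmul' : ∀ r : Q, ∃ k : ℕ, k < q ∧ k • t = r := by
    intro r
    rcases htt with h1 | h1
    · rw [h1]; exact hmul r
    · obtain ⟨k, hk1, hk2⟩ := hmul (-r)
      refine ⟨k, hk1, ?_⟩
      rw [h1, smul_neg, hk2, neg_neg]
  have hinj' : ∀ k l : ℕ, k < q → l < q → k • t = l • t → k = l := by
    intro k l hk hl hkl
    rcases htt with h1 | h1
    · rw [h1] at hkl; exact hinj k l hk hl hkl
    · rw [h1, smul_neg, smul_neg, neg_inj] at hkl
      exact hinj k l hk hl hkl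
  have hB' : ∀ x ∈ ES S, tr x = 0 ∨ tr x = t ∨ tr x = -t := by
    intro x hx
    rcases hB x hx with h1 | h1 | h1 <;> rcases htt with h2 | h2
    · exact Or.inl h1
    · exact Or.inl h1
    · exact Or.inr (Or.inl (by rw [h1, h2]))
    · exact Or.inr (Or.inr (by rw [h1, h2, neg_neg]))
    · exact Or.inr (Or.inr (by rw [h1, h2]))
    · exact Or.inr (Or.inl (by rw [h1, h2]))
  have hqt : q • t = 0 := by
    obtain ⟨k, hk1, hk2⟩ := hmul' (q • t)
    rcases Nat.eq_zero_or_pos k with h0 | h0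
    · rw [← hk2, h0, zero_smul]
    · exfalso
      have h1 : (q - k) • t = 0 • t := by
        rw [zero_smul]
        have : (q - k) • t + k • t = q • t := by rw [← add_smul]; congr 1; omega
        rw [hk2] at this
        simpa using this
      have := hinj' (q - k) 0 (by omega) (by omega) h1
      omega
  have hzt : ∀ k : ℤ, k • t = 0 → (q : ℤ) ∣ k := by
    intro k hk
    have hq0 : (0 : ℤ) < q := by exact_mod_cast (by omega : 0 < q)
    have h1 := Int.emod_add_mul_ediv k q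
    have h2 := Int.emod_nonneg k hq0.ne'
    have h3 := Int.emod_lt_of_pos k hq0
    have h4 : (k % q) • t = 0 := by
      have : (k % q + q * (k / q)) • t = 0 := by rw [h1]; exact hk
      rw [add_smul, mul_comm, mul_smul, natCast_zsmul, hqt, smul_zero, add_zero] at this
      exact this
    obtain ⟨r, hr⟩ : ∃ r : ℕ, k % q = r := ⟨(k % q).toNat, (Int.toNat_of_nonneg h2).symm⟩
    rw [hr, natCast_zsmul] at h4
    have := hinj' r 0 (by omega) (by omega) (by rw [h4, zero_smul])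
    exact Int.dvd_of_emod_eq_zero (by omega)
  obtain ⟨p, hp⟩ := (h.htr ((q : ℤ) • c)).1 (by rw [map_zsmul, natCast_zsmul]; exact hqt)
  have hpℓ : (q : ℤ) * ℓ c = p * ℓ s0 := by
    have := congrArg ℓ hp
    rw [map_zsmul, map_zsmul, smul_eq_mul, smul_eq_mul] at this
    exact this
  have hq0 : (0 : ℤ) < q := by exact_mod_cast (by omega : 0 < q)
  have hp0 : 0 ≤ p := by
    by_contra hneg
    have h1 : p * ℓ s0 < 0 := mul_neg_of_neg_of_pos (by omega) hd
    have h2 : 0 ≤ (q : ℤ) * ℓ c := mul_nonneg hq0.le hcℓ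
    omega
  have hpq : p < q := by
    by_contra hge
    have h1 : (q : ℤ) * ℓ s0 ≤ p * ℓ s0 := mul_le_mul_of_nonneg_right (by omega) hd.le
    have h2 : (q : ℤ) * ℓ c < q * ℓ s0 := mul_lt_mul_of_pos_left hcd hq0
    omega
  refine ⟨c, p, hp0, hpq, hp, hcℓ, ?_, ?_, ?_⟩
  · intro g
    obtain ⟨k, hk1, hk2⟩ := hmul' (tr g)
    obtain ⟨i, hi⟩ := (h.htr (g - (k : ℤ) • c)).1 (by
      rw [map_sub, map_zsmul, natCast_zsmul, ← ht, hk2, sub_self])
    exact ⟨i, k, by rw [← hi]; abel⟩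
  · intro i k hik
    have h1 : k • t = 0 := by
      have := congrArg tr hik
      rw [map_add, map_zsmul, map_zsmul, hs0, smul_zero, zero_add, map_zero] at this
      exact this
    obtain ⟨u, hu⟩ := hzt k h1
    refine ⟨u, hu, ?_⟩
    have h2 : (i + u * p) • s0 = 0 := by
      rw [hu, mul_comm, mul_smul, hp, ← mul_smul, ← add_smul] at hik
      exact hik
    have h3 : (i + u * p) * ℓ s0 = 0 := by
      have := congrArg ℓ h2
      rw [map_zsmul, smul_eq_mul, map_zero] at this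
      exact this
    rcases mul_eq_zero.1 h3 with h4 | h4
    · omega
    · omega
  · -- the edge differences
    have hcls : ∀ x ∈ ES S, tr x = t → x = c ∨ x = c - s0 ∨ (p = 0 ∧ x = c + s0) := by
      intro x hx hxt
      obtain ⟨k, hk⟩ := (h.htr (x - c)).1 (by rw [map_sub, hxt, ← ht, sub_self])
      have h1 := h.hE x hx
      have h2 := h.hE _ (h.symm x hx)
      rw [map_neg] at h2
      have h3 : ℓ x = ℓ c + k * ℓ s0 := by
        have := congrArg ℓ hk
        rw [map_sub, map_zsmul, smul_eq_mul] at this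
        omega
      have hk1 : k < 2 := by
        by_contra hge
        have : 2 * ℓ s0 ≤ k * ℓ s0 := mul_le_mul_of_nonneg_right (by omega) hd.le
        omega
      have hk2 : -2 < k := by
        by_contra hge
        have : k * ℓ s0 ≤ (-2) * ℓ s0 := mul_le_mul_of_nonneg_right (by omega) hd.le
        omega
      have hk3 : k = -1 ∨ k = 0 ∨ k = 1 := by omega
      rcases hk3 with rfl | rfl | rfl
      · right; left
        rw [neg_one_zsmul] at hk
        rw [sub_eq_iff_eq_add] at hk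
        rw [hk]; abel
      · left
        rw [zero_smul, sub_eq_zero] at hk
        exact hk
      · right; right
        rw [one_zsmul, sub_eq_iff_eq_add] at hk
        refine ⟨?_, by rw [hk]; abel⟩
        have h4 : ℓ c = 0 := by omega
        rw [h4, mul_zero] at hpℓ
        rcases mul_eq_zero.1 hpℓ.symm with h5 | h5
        · exact h5
        · omega
    intro x hx
    rcases hB' x hx with h1 | h1 | h1
    · obtain ⟨k, hk⟩ := (h.htr x).1 h1
      have h2 := h.hE x hx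
      have h3 := h.hE _ (h.symm x hx)
      rw [map_neg] at h3
      have h4 : ℓ x = k * ℓ s0 := by rw [hk, map_zsmul, smul_eq_mul]
      have hk1 : k < 2 := by
        by_contra hge
        have : 2 * ℓ s0 ≤ k * ℓ s0 := mul_le_mul_of_nonneg_right (by omega) hd.le
        omega
      have hk2 : -2 < k := by
        by_contra hge
        have : k * ℓ s0 ≤ (-2) * ℓ s0 := mul_le_mul_of_nonneg_right (by omega) hd.le
        omega
      have hk3 : k = -1 ∨ k = 0 ∨ k = 1 := by omega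
      rcases hk3 with rfl | rfl | rfl
      · right; left; rw [hk, neg_one_zsmul]
      · exfalso; rw [zero_smul] at hk; exact hx.1 hk
      · left; rw [hk, one_zsmul]
    · rcases hcls x hx h1 with h2 | h2 | ⟨h2, h3⟩
      · exact Or.inr (Or.inr (Or.inl h2))
      · exact Or.inr (Or.inr (Or.inr (Or.inr (Or.inl h2))))
      · exact Or.inr (Or.inr (Or.inr (Or.inr (Or.inr (Or.inr ⟨h2, Or.inl h3⟩)))))
    · rcases hcls (-x) (h.symm x hx) (by rw [map_neg, h1, neg_neg]) with h2 | h2 | ⟨h2, h3⟩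
      · exact Or.inr (Or.inr (Or.inr (Or.inl (by rw [← h2, neg_neg]))))
      · exact Or.inr (Or.inr (Or.inr (Or.inr (Or.inr (Or.inl (by rw [← h2, neg_neg]))))))
      · exact Or.inr (Or.inr (Or.inr (Or.inr (Or.inr (Or.inr
          ⟨h2, Or.inr (by rw [← h3, neg_neg])⟩)))))

/-- the numbers of the colouring -/
lemma exists_numbers {q p n m Δ : ℤ} (hq : 4 ≤ q) (hp0 : 0 ≤ p) (hpq : p < q)
    (hΔ : Δ = n * q + m * p) (hbig : 30 * q ≤ Δ) :
    ∃ w j : ℤ, (Δ ≤ 6 * (q * w - m * j) ∧ 6 * (q * w - m * j) ≤ 5 * Δ) ∧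
      (Δ ≤ 6 * (p * w + n * j) ∧ 6 * (p * w + n * j) ≤ 5 * Δ) ∧
      (Δ ≤ 6 * ((p * w + n * j) - (q * w - m * j)) ∧
        6 * ((p * w + n * j) - (q * w - m * j)) ≤ 5 * Δ) ∧
      (p = 0 → Δ ≤ 6 * ((p * w + n * j) + (q * w - m * j)) ∧
        6 * ((p * w + n * j) + (q * w - m * j)) ≤ 5 * Δ) := by
  have hq0 : 0 < q := by omega
  rcases Int.lt_or_eq_of_le hp0 with hp1 | hp1
  · -- `p > 0`
    set j := (13 * q - 8 * p + 23) / 24 with hj
    have hj1 : 13 * q ≤ 8 * p + 24 * j := by omega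
    have hj2 : 8 * p + 24 * j < 13 * q + 24 := by omega
    -- `w` with `Δ / 3 ≤ q w - m j < Δ / 3 + q`
    set w := (m * j + Δ / 3) / q + 1 with hw
    have hw1 := Int.emod_add_mul_ediv (m * j + Δ / 3) q
    have hw2 := Int.emod_nonneg (m * j + Δ / 3) hq0.ne'
    have hw3 := Int.emod_lt_of_pos (m * j + Δ / 3) hq0
    have hqw : q * w = q * ((m * j + Δ / 3) / q) + q := by rw [hw]; ring
    have hX1 : Δ / 3 < q * w - m * j := by omega
    have hX2 : q * w - m * j ≤ Δ / 3 + q := by omega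
    set X := q * w - m * j with hX
    have hY : q * (p * w + n * j) = p * X + j * Δ := by rw [hX, hΔ]; ring
    set Y := p * w + n * j with hYd
    have hX1' : Δ ≤ 3 * X := by omega
    have hX2' : 3 * X ≤ Δ + 3 * q := by omega
    have hΔ0 : 0 < Δ := by omega
    -- bounds for `Y`
    have hY1 : 13 * Δ ≤ 24 * Y := by
      have h1 : q * (24 * Y) = 24 * p * X + 24 * j * Δ := by linear_combination 24 * hY
      have h2 : 8 * p * Δ ≤ 8 * p * (3 * X) := mul_le_mul_of_nonneg_left hX1' (by omega)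
      have h3 : (13 * q) * Δ ≤ (8 * p + 24 * j) * Δ := mul_le_mul_of_nonneg_right hj1 hΔ0.le
      have h4 : q * (13 * Δ) ≤ q * (24 * Y) := by rw [h1]; nlinarith
      exact le_of_mul_le_mul_left h4 hq0
    have hY2 : 24 * Y ≤ 19 * Δ + 24 * q := by
      have h1 : q * (24 * Y) = 24 * p * X + 24 * j * Δ := by linear_combination 24 * hY
      have h2 : 8 * p * (3 * X) ≤ 8 * p * (Δ + 3 * q) := mul_le_mul_of_nonneg_left hX2' (by omega)
      have h3 : (8 * p + 24 * j) * Δ ≤ (13 * q + 24) * Δ :=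
        mul_le_mul_of_nonneg_right (by omega) hΔ0.le
      have h5 : (13 * q + 24) * Δ ≤ (19 * q) * Δ := mul_le_mul_of_nonneg_right (by omega) hΔ0.le
      have h6 : 24 * p * q ≤ 24 * q * q := by nlinarith
      have h4 : q * (24 * Y) ≤ q * (19 * Δ + 24 * q) := by rw [h1]; nlinarith
      exact le_of_mul_le_mul_left h4 hq0
    refine ⟨w, j, ?_, ?_, ?_, ?_⟩
    · constructor <;> omega
    · constructor <;> omega
    · constructor <;> omega
    · intro h0; omega
  · -- `p = 0`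
    subst hp1
    rw [mul_zero, add_zero] at hΔ
    have hn0 : 30 ≤ n := by
      by_contra hlt
      have : n * q ≤ 29 * q := mul_le_mul_of_nonneg_right (by omega) hq0.le
      omega
    set j := q / 2 with hj
    have hj1 : 2 * q ≤ 5 * j := by omega
    have hj2 : 2 * j ≤ q := by omega
    set w := (m * j + n * j / 2) / q + 1 with hw
    have hw1 := Int.emod_add_mul_ediv (m * j + n * j / 2) q
    have hw2 := Int.emod_nonneg (m * j + n * j / 2) hq0.ne'
    have hw3 := Int.emod_lt_of_pos (m * j + n * j / 2) hq0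
    have hqw : q * w = q * ((m * j + n * j / 2) / q) + q := by rw [hw]; ring
    have hX1 : n * j / 2 < q * w - m * j := by omega
    have hX2 : q * w - m * j ≤ n * j / 2 + q := by omega
    set X := q * w - m * j with hX
    have hY1 : 2 * Δ ≤ 5 * (n * j) := by
      have : n * (2 * q) ≤ n * (5 * j) := mul_le_mul_of_nonneg_left hj1 (by omega)
      rw [hΔ]; linarith
    have hY2 : 2 * (n * j) ≤ Δ := by
      have : n * (2 * j) ≤ n * q := mul_le_mul_of_nonneg_left hj2 (by omega)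
      rw [hΔ]; linarith
    have hX1' : n * j ≤ 2 * X := by omega
    have hX2' : 2 * X ≤ n * j + 2 * q := by omega
    refine ⟨w, j, ?_, ?_, ?_, ?_⟩
    · constructor <;> omega
    · rw [zero_mul, zero_add]
      constructor <;> omega
    · rw [zero_mul, zero_add]
      constructor <;> omega
    · intro _
      rw [zero_mul, zero_add]
      constructor <;> omega

theorem colorable_cycle (h : Rg ℓ (ES S) tr s0) {q : ℕ} (hq : 4 ≤ q) {c0 : G} (hc0 : c0 ∈ ES S)
    (hmul : ∀ r : Q, ∃ k : ℕ, k < q ∧ k • tr c0 = r)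
    (hinj : ∀ k l : ℕ, k < q → l < q → k • tr c0 = l • tr c0 → k = l)
    (hB : ∀ x ∈ ES S, tr x = 0 ∨ tr x = tr c0 ∨ tr x = -tr c0) :
    ∃ N : ℤ, ∀ (Γ : Type) [AddCommGroup Γ] (π : G →+ Γ) (z : G), Function.Surjective π →
      (∀ x, π x = 0 ↔ ∃ k : ℤ, x = k • z) → N ≤ ℓ z → (cay (π '' S)).Colorable 6 := by
  obtain ⟨c, p, hp0, hpq, hpc, hcℓ, hgen, hrel, hE⟩ := second_gen h hq hc0 hmul hinj hB
  have hd := h.d0
  refine ⟨30 * ℓ s0, ?_⟩
  intro Γ _ π z hsurj hker hz
  obtain ⟨n, m, hnm⟩ := hgen z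
  set Δ : ℤ := n * q + m * p with hΔ
  have hq0 : (0 : ℤ) < q := by exact_mod_cast (by omega : 0 < q)
  have hpℓ : (q : ℤ) * ℓ c = p * ℓ s0 := by
    have := congrArg ℓ hpc
    rw [map_zsmul, map_zsmul, smul_eq_mul, smul_eq_mul] at this
    exact this
  have hℓz : (q : ℤ) * ℓ z = ℓ s0 * Δ := by
    have h1 : ℓ z = n * ℓ s0 + m * ℓ c := by
      rw [hnm, map_add, map_zsmul, map_zsmul, smul_eq_mul, smul_eq_mul]
    rw [h1, hΔ]
    linear_combination m * hpℓ
  have hbig : 30 * (q : ℤ) ≤ Δ := by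
    have h1 : ℓ s0 * (30 * q) ≤ ℓ s0 * Δ := by
      rw [← hℓz]
      nlinarith
    exact le_of_mul_le_mul_left h1 hd
  obtain ⟨w, j, hX, hY, hYX, hXY⟩ := exists_numbers (q := q) (by exact_mod_cast hq) hp0 hpq hΔ hbig
  set X := (q : ℤ) * w - m * j with hXd
  set Y := p * w + n * j with hYd
  obtain ⟨M, hM⟩ : ∃ M : ℕ, Δ = M := ⟨Δ.toNat, (Int.toNat_of_nonneg (by omega)).symm⟩
  have hM0 : 0 < M := by omega
  -- the homomorphism
  let φ : ℤ × ℤ →+ G := AddMonoidHom.coprod (zmultiplesHom G s0) (zmultiplesHom G c)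
  let ψ : ℤ × ℤ →+ ZMod M :=
    AddMonoidHom.coprod (zmultiplesHom (ZMod M) (X : ZMod M)) (zmultiplesHom (ZMod M) (Y : ZMod M))
  have hφ : ∀ i k : ℤ, φ (i, k) = i • s0 + k • c := by
    intro i k; simp [φ]
  have hψ : ∀ i k : ℤ, ψ (i, k) = ((i * X + k * Y : ℤ) : ZMod M) := by
    intro i k; simp [ψ]
  obtain ⟨θ, hθ⟩ := exists_lift φ (by
    intro g
    obtain ⟨i, k, rfl⟩ := hgen g
    exact ⟨(i, k), hφ i k⟩) ψ (by
    rintro ⟨i, k⟩ hik
    rw [hφ] at hik
    obtain ⟨t, hk, hi⟩ := hrel i k hik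
    rw [hψ, ZMod.intCast_zmod_eq_zero_iff_dvd]
    rw [← hM]
    refine ⟨t * j, ?_⟩
    rw [hk, hi, hXd, hYd, hΔ]
    ring)
  have hθs : ∀ i k : ℤ, θ (i • s0 + k • c) = ((i * X + k * Y : ℤ) : ZMod M) := by
    intro i k
    rw [← hφ, hθ, hψ]
  have hθz : θ z = 0 := by
    rw [hnm, hθs, ZMod.intCast_zmod_eq_zero_iff_dvd, ← hM]
    refine ⟨w, ?_⟩
    rw [hXd, hYd, hΔ]
    ring
  apply colorable_circle' hsurj hM0 θ (K := 6) _ (by norm_num)
  · intro s hs
    have e1 : θ s0 = (X : ZMod M) := by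
      have := hθs 1 0
      simpa using this
    have e2 : θ c = (Y : ZMod M) := by
      have := hθs 0 1
      simpa using this
    rcases hE s hs with rfl | rfl | rfl | rfl | rfl | rfl | ⟨h0, rfl | rfl⟩
    · exact ⟨X, Or.inl e1, by push_cast; omega, by push_cast; omega⟩
    · exact ⟨X, Or.inr (by rw [map_neg, e1]), by push_cast; omega, by push_cast; omega⟩
    · exact ⟨Y, Or.inl e2, by push_cast; omega, by push_cast; omega⟩
    · exact ⟨Y, Or.inr (by rw [map_neg, e2]), by push_cast; omega, by push_cast; omega⟩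
    · exact ⟨Y - X, Or.inl (by rw [map_sub, e1, e2]; push_cast; ring), by push_cast; omega,
        by push_cast; omega⟩
    · exact ⟨Y - X, Or.inr (by rw [map_neg, map_sub, e1, e2]; push_cast; ring),
        by push_cast; omega, by push_cast; omega⟩
    · have := hXY h0
      exact ⟨Y + X, Or.inl (by rw [map_add, e1, e2]; push_cast; ring), by push_cast; omega,
        by push_cast; omega⟩
    · have := hXY h0
      exact ⟨Y + X, Or.inr (by rw [map_neg, map_add, e1, e2]; push_cast; ring),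
        by push_cast; omega, by push_cast; omega⟩
  · intro x hx
    obtain ⟨k, rfl⟩ := (hker x).1 hx
    rw [map_zsmul, hθz, smul_zero]

end Pool.Agent.H55.AC
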