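import Pool.Agent.H55.AC.Cut
import Pool.Agent.H55.SC.Defs
import Pool.Agent.H55.SC.Base

/-!
# From representatives to the quotient group
-/

namespace Pool.Agent.H55.AC

open Relation Pool.Agent.H55.SC

variable {G Γ : Type} [AddCommGroup G] [AddCommGroup Γ]

/-- the edge differences of the Cayley graph with connection set `S` -/
def ES (S : Set G) : Set G := {x | x ≠ 0 ∧ (x ∈ S ∨ -x ∈ S)}

lemma ES_symm {S : Set G} : ∀ x ∈ ES S, -x ∈ ES S := by
  intro x hx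
  obtain ⟨h1, h2⟩ := hx
  exact ⟨neg_ne_zero.2 h1, by rw [neg_neg]; exact h2.symm⟩

lemma ES_ne0 {S : Set G} : ∀ x ∈ ES S, x ≠ 0 := fun _ hx => hx.1

/-- The Cayley graph of an abelian group `Γ`: two different elements are adjacent if their
difference or its negative is in `S`. -/
abbrev cay (S : Set Γ) : SimpleGraph Γ := SimpleGraph.circulantGraph S

lemma cay_adj {S : Set G} {π : G →+ Γ} {u v : Γ} :
    (cay (π '' S)).Adj u v ↔ u ≠ v ∧ ∃ s ∈ ES S, v - u = π s := by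
  rw [SimpleGraph.circulantGraph_adj]
  constructor
  · rintro ⟨h, ⟨s, hs, h1⟩ | ⟨s, hs, h1⟩⟩
    · refine ⟨h, -s, ⟨?_, Or.inr (by rw [neg_neg]; exact hs)⟩, ?_⟩
      · intro h0
        rw [neg_eq_zero] at h0
        rw [h0, map_zero] at h1
        exact h (sub_eq_zero.1 h1.symm)
      · rw [map_neg, h1, neg_sub]
    · refine ⟨h, s, ⟨?_, Or.inl hs⟩, h1.symm⟩
      intro h0
      rw [h0, map_zero] at h1
      exact h (sub_eq_zero.1 h1.symm).symm
  · rintro ⟨h, s, ⟨_, hs | hs⟩, h1⟩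
    · exact ⟨h, Or.inr ⟨s, hs, h1.symm⟩⟩
    · refine ⟨h, Or.inl ⟨-s, hs, ?_⟩⟩
      rw [map_neg, ← h1, neg_sub]

/-- the ring `Γ = G / ⟨z⟩` with edges of height at most `d` -/
structure Qt (ℓ : G →+ ℤ) (E : Set G) (π : G →+ Γ) (z : G) (d : ℤ) : Prop where
  surj : Function.Surjective π
  ker : ∀ x, π x = 0 ↔ ∃ k : ℤ, x = k • z
  hE : ∀ x ∈ E, ℓ x ≤ d
  d0 : 0 < d
  hz : d < ℓ z

section
variable {ℓ : G →+ ℤ} {S : Set G} {π : G →+ Γ} {z : G} {d : ℤ}

lemma Qt.eq (h : Qt ℓ (ES S) π z d) {a b : G} (ha : 0 ≤ ℓ a ∧ ℓ a < ℓ z)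
    (hb : 0 ≤ ℓ b ∧ ℓ b < ℓ z) (hab : π a = π b) : a = b := by
  have h1 : π (a - b) = 0 := by rw [map_sub, hab, sub_self]
  obtain ⟨k, hk⟩ := (h.ker _).1 h1
  have h2 : ℓ a - ℓ b = k * ℓ z := by
    have := congrArg ℓ hk
    rw [map_sub, map_zsmul, smul_eq_mul] at this
    exact this
  have hz0 : 0 < ℓ z := lt_trans h.d0 h.hz
  have hk0 : k = 0 := by
    rcases lt_trichotomy k 0 with hk | hk | hk
    · exfalso
      have : k * ℓ z ≤ (-1) * ℓ z := mul_le_mul_of_nonneg_right (by omega) hz0.le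
      omega
    · exact hk
    · exfalso
      have : 1 * ℓ z ≤ k * ℓ z := mul_le_mul_of_nonneg_right (by omega) hz0.le
      omega
  rw [hk0, zero_smul, sub_eq_zero] at hk
  exact hk

lemma Qt.adj (h : Qt ℓ (ES S) π z d) {a b : G} (hab : A ℓ (ES S) z a b) :
    (cay (π '' S)).Adj (π a) (π b) := by
  obtain ⟨h1, h2, h3, h4⟩ := hab
  have hz : π z = 0 := (h.ker z).2 ⟨1, by simp⟩
  rw [cay_adj]
  refine ⟨fun h0 => h3 (h.eq h1 h2 h0), ?_⟩
  rcases h4 with h4 | h4 | h4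
  · exact ⟨_, h4, by rw [map_sub]⟩
  · exact ⟨_, h4, by rw [map_add, map_sub, hz, add_zero]⟩
  · exact ⟨_, h4, by rw [map_sub, map_sub, hz, sub_zero]⟩

lemma Qt.rep (h : Qt ℓ (ES S) π z d) (u : Γ) : ∃ x, π x = u ∧ 0 ≤ ℓ x ∧ ℓ x < ℓ z := by
  obtain ⟨y, rfl⟩ := h.surj u
  have hz0 : 0 < ℓ z := lt_trans h.d0 h.hz
  refine ⟨y - (ℓ y / ℓ z) • z, ?_, ?_, ?_⟩
  · rw [map_sub, (h.ker ((ℓ y / ℓ z) • z)).2 ⟨_, rfl⟩, sub_zero]
  · rw [map_sub, map_zsmul, smul_eq_mul]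
    have h1 := Int.emod_add_mul_ediv (ℓ y) (ℓ z)
    have h2 := Int.emod_nonneg (ℓ y) hz0.ne'
    nlinarith
  · rw [map_sub, map_zsmul, smul_eq_mul]
    have h1 := Int.emod_add_mul_ediv (ℓ y) (ℓ z)
    have h2 := Int.emod_lt_of_pos (ℓ y) hz0
    nlinarith

lemma Qt.A_of_adj (h : Qt ℓ (ES S) π z d) {a b : G} (ha : 0 ≤ ℓ a ∧ ℓ a < ℓ z)
    (hb : 0 ≤ ℓ b ∧ ℓ b < ℓ z) (hab : (cay (π '' S)).Adj (π a) (π b)) :
    A ℓ (ES S) z a b := by
  rw [cay_adj] at hab
  obtain ⟨hne, s, hs, h1⟩ := hab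
  refine ⟨ha, hb, fun h0 => hne (by rw [h0]), ?_⟩
  have h2 : π (b - a - s) = 0 := by rw [map_sub, map_sub, h1, sub_self]
  obtain ⟨k, hk⟩ := (h.ker _).1 h2
  have h3 : ℓ b - ℓ a - ℓ s = k * ℓ z := by
    have := congrArg ℓ hk
    rw [map_sub, map_sub, map_zsmul, smul_eq_mul] at this
    exact this
  have h4 := h.hE s hs
  have h5 := h.hE (-s) (ES_symm s hs)
  rw [map_neg] at h5
  have h6 := h.hz
  have hz0 : 0 < ℓ z := lt_trans h.d0 h.hz
  have hk1 : k < 2 := by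
    by_contra hlt
    have : 2 * ℓ z ≤ k * ℓ z := mul_le_mul_of_nonneg_right (by omega) hz0.le
    omega
  have hk2 : -2 < k := by
    by_contra hlt
    have : k * ℓ z ≤ (-2) * ℓ z := mul_le_mul_of_nonneg_right (by omega) hz0.le
    omega
  have hk3 : k = -1 ∨ k = 0 ∨ k = 1 := by omega
  rcases hk3 with rfl | rfl | rfl
  · right; left
    have : b - a + z = s := by
      rw [neg_one_zsmul] at hk
      have : b - a + z - s = 0 := by rw [show b - a + z - s = (b - a - s) + z by abel, hk]; abel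
      exact sub_eq_zero.1 this
    rw [this]; exact hs
  · left
    have : b - a = s := by
      rw [zero_smul] at hk
      exact sub_eq_zero.1 hk
    rw [this]; exact hs
  · right; right
    have : b - a - z = s := by
      rw [one_zsmul] at hk
      have : b - a - z - s = 0 := by rw [show b - a - z - s = (b - a - s) - z by abel, hk]; abel
      exact sub_eq_zero.1 this
    rw [this]; exact hs

/-- a colouring of the representatives gives a colouring of the Cayley graph -/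
lemma Qt.colorable (h : Qt ℓ (ES S) π z d) {k : ℕ} (c : G → ℕ)
    (hc : ∀ x, 0 ≤ ℓ x → ℓ x < ℓ z → c x < k)
    (hA : ∀ x y, A ℓ (ES S) z x y → c x ≠ c y) : (cay (π '' S)).Colorable k := by
  choose r hr1 hr2 hr3 using h.rep
  refine ⟨SimpleGraph.Coloring.mk (fun u => ⟨c (r u), hc _ (hr2 u) (hr3 u)⟩) ?_⟩
  intro u v huv heq
  refine hA (r u) (r v) (h.A_of_adj ⟨hr2 u, hr3 u⟩ ⟨hr2 v, hr3 v⟩ ?_) (congrArg Fin.val heq)
  rw [hr1, hr1]
  exact huv

theorem NM.minor {ι : Type} [Fintype ι] {P : ι → G → Prop}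
    (hP : NM ℓ (ES S) z P) (h : Qt ℓ (ES S) π z d) {k : ℕ} (hk : k ≤ Fintype.card ι) :
    CliqueMinor (cay (π '' S)) k := by
  classical
  obtain ⟨e⟩ : Nonempty (Fin k ↪ ι) := by
    rw [Function.Embedding.nonempty_iff_card_le, Fintype.card_fin]
    exact hk
  refine ⟨fun i => {v | ∃ x, P (e i) x ∧ π x = v}, ?_, ?_, ?_⟩
  · intro i
    apply connected_of_rtg
    · obtain ⟨x, hx⟩ := hP.ne (e i)
      exact ⟨π x, x, hx, rfl⟩
    · rintro _ ⟨x, hx, rfl⟩ _ ⟨y, hy, rfl⟩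
      have h1 := hP.con (e i) x y hx hy
      unfold RP at h1
      induction h1 with
      | refl => exact ReflTransGen.refl
      | tail _ h2 ih =>
        exact (ih h2.1).tail ⟨⟨_, h2.1, rfl⟩, ⟨_, h2.2.1, rfl⟩, h.adj h2.2.2⟩
  · intro i j hij
    rw [Set.disjoint_left]
    rintro _ ⟨x, hx, rfl⟩ ⟨y, hy, hxy⟩
    have := h.eq (hP.lt _ _ hy) (hP.lt _ _ hx) hxy
    subst this
    exact hP.dis (e i) (e j) (fun h => hij (e.injective h)) _ hx hy
  · intro i j hij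
    obtain ⟨x, y, hx, hy, hxy⟩ := hP.adj (e i) (e j) (fun h => hij (e.injective h))
    exact ⟨π x, ⟨x, hx, rfl⟩, π y, ⟨y, hy, rfl⟩, h.adj hxy⟩

end

/-- **Colouring by a map to a cycle.** -/
theorem colorable_circle {S : Set G} {π : G →+ Γ} (hsurj : Function.Surjective π) {M : ℕ}
    (hM : 0 < M) (θ : G →+ ZMod M) (hθ : ∀ x, π x = 0 → θ x = 0) {K : ℕ} (hK : 2 ≤ K)
    (h : ∀ s ∈ ES S, M ≤ K * (θ s).val ∧ K * (θ s).val ≤ (K - 1) * M) :
    (cay (π '' S)).Colorable K := by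
  have : NeZero M := ⟨hM.ne'⟩
  choose r hr using hsurj
  have hlt : ∀ x : ZMod M, K * x.val / M < K := by
    intro x
    apply Nat.div_lt_of_lt_mul
    rw [mul_comm M K]
    exact Nat.mul_lt_mul_of_pos_left (ZMod.val_lt x) (by omega)
  refine ⟨SimpleGraph.Coloring.mk (fun u => ⟨K * (θ (r u)).val / M, hlt _⟩) ?_⟩
  intro u v huv heq
  have heq' : K * (θ (r u)).val / M = K * (θ (r v)).val / M := congrArg Fin.val heq
  clear heq
  rw [cay_adj] at huv
  obtain ⟨_, s, hs, h1⟩ := huv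
  have h2 : θ (r v) = θ (r u) + θ s := by
    have h3 : θ (r v - r u - s) = 0 := by
      apply hθ
      rw [map_sub, map_sub, hr, hr, h1, sub_self]
    rw [map_sub, map_sub] at h3
    rw [sub_sub, sub_eq_zero] at h3
    exact h3
  obtain ⟨h4, h5⟩ := h s hs
  have hu := ZMod.val_lt (θ (r u))
  have hv := ZMod.val_lt (θ (r v))
  have hs' := ZMod.val_lt (θ s)
  have h6 : (θ (r v)).val = (θ (r u)).val + (θ s).val ∨
      (θ (r v)).val + M = (θ (r u)).val + (θ s).val := by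
    rw [h2, ZMod.val_add]
    by_cases hlt : (θ (r u)).val + (θ s).val < M
    · left; rw [Nat.mod_eq_of_lt hlt]
    · right
      rw [Nat.mod_eq_sub_mod (by omega), Nat.mod_eq_of_lt (by omega)]
      omega
  generalize (θ (r u)).val = a at *
  generalize (θ (r v)).val = b at *
  generalize (θ s).val = c at *
  have a1 := Nat.div_add_mod (K * a) M
  have a2 := Nat.mod_lt (K * a) hM
  have b1 := Nat.div_add_mod (K * b) M
  have b2 := Nat.mod_lt (K * b) hM
  rw [heq'] at a1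
  have hKM : (K - 1) * M + M = K * M := by
    obtain ⟨k, rfl⟩ : ∃ k, K = k + 1 := ⟨K - 1, by omega⟩
    simp only [Nat.add_sub_cancel]; ring
  rcases h6 with h6 | h6
  · have h7 : K * b = K * a + K * c := by rw [h6]; ring
    omega
  · have h7 : K * b + K * M = K * a + K * c := by rw [← mul_add, h6]; ring
    omega

end Pool.Agent.H55.AC
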