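import Pool.Agent.H55.AC.Types
import Pool.Agent.H55.AC.Quot

/-!
# Rings whose tracks form the four-cycle of the Klein group
-/

namespace Pool.Agent.H55.AC

open Relation Pool.Agent.H55.SC

variable {G Q : Type} [AddCommGroup G] [AddCommGroup Q]
variable {ℓ : G →+ ℤ} {tr : G →+ Q} {s0 : G} {S : Set G}

/-- the tracks of the three carriers -/
def gF (t : Q) : ℕ → Fin (3 + 1) → Q → Prop := fun _ i r =>
  (i = 1 ∧ r = 0) ∨ (i = 2 ∧ r = t) ∨ (i = 3 ∧ r ≠ 0 ∧ r ≠ t)

theorem minor_four {E : Set G} (h : Rg ℓ E tr s0) {t u : Q} (ht0 : t ≠ 0) (hu0 : u ≠ 0)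
    (htu : t ≠ u) (ht2 : t + t = 0) (hu2 : u + u = 0) (ht : ∃ x ∈ E, tr x = t)
    (hu : ∃ x ∈ E, tr x = u) (hall : ∀ r : Q, r = 0 ∨ r = t ∨ r = u ∨ r = t + u) :
    ∃ N : ℤ, ∀ z, N ≤ ℓ z →
      ∃ P : {i : Fin (3 + 1) // i ≠ 0} × Bool → G → Prop, NM ℓ E z P := by
  refine ⟨(2 * ℓ s0) * ((2 * (3 + 1) * 1 : ℕ) + 1), ?_⟩
  intro z hz
  have hDat := h.dat (2 * (3 + 1) * 1) hz
  obtain ⟨x0, hx0, hx0s⟩ := ht
  obtain ⟨y0, hy0, hy0s⟩ := hu
  have hadjt : ∀ r : Q, Hadj E tr r (r + t) := fun r => ⟨x0, hx0, by rw [hx0s]⟩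
  have hadju : ∀ r : Q, Hadj E tr r (r + u) := fun r => ⟨y0, hy0, by rw [hy0s]⟩
  have hw0 : t + u ≠ 0 := by
    intro h0
    apply htu
    have : t + u + u = u := by rw [h0, zero_add]
    rwa [add_assoc, hu2, add_zero] at this
  have hwt : t + u ≠ t := by simpa using hu0
  have hnt : -t = t := neg_eq_of_add_eq_zero_left ht2
  have hnu : -u = u := neg_eq_of_add_eq_zero_left hu2
  have g1 : ∀ b r, gF t b 1 r ↔ r = 0 := by intro b r; simp [gF]
  have g2 : ∀ b r, gF t b 2 r ↔ r = t := by intro b r; simp [gF]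
  have g3 : ∀ b r, gF t b 3 r ↔ (r ≠ 0 ∧ r ≠ t) := by intro b r; simp [gF]
  have hfin : ∀ i : Fin (3 + 1), i ≠ 0 → i = 1 ∨ i = 2 ∨ i = 3 := by
    intro i hi; fin_cases i <;> simp at hi ⊢
  have mu : ∀ b, gF t b 3 u := fun b => (g3 _ _).2 ⟨hu0, htu.symm⟩
  have mw : ∀ b, gF t b 3 (t + u) := fun b => (g3 _ _).2 ⟨hw0, hwt⟩
  have auw : Hadj E tr u (t + u) := by
    have := hadjt u
    rwa [add_comm] at this
  have hFrm : Frm E tr (2 * (3 + 1) * 1) 0 (gF t) := by
    refine ⟨?_, ?_, ?_⟩
    · intro b _ i j hi hj hij r hr hr'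
      rcases hfin i hi with rfl | rfl | rfl <;> rcases hfin j hj with rfl | rfl | rfl
      · exact hij rfl
      · rw [g1] at hr; rw [g2] at hr'; exact ht0 (hr'.symm.trans hr)
      · rw [g1] at hr; rw [g3] at hr'; exact hr'.1 hr
      · rw [g2] at hr; rw [g1] at hr'; exact ht0 (hr.symm.trans hr')
      · exact hij rfl
      · rw [g2] at hr; rw [g3] at hr'; exact hr'.2 hr
      · rw [g3] at hr; rw [g1] at hr'; exact hr.1 hr'
      · rw [g3] at hr; rw [g2] at hr'; exact hr.2 hr'
      · exact hij rfl
    · intro b _ i hi r r' hr hr'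
      rcases hfin i hi with rfl | rfl | rfl
      · rw [g1] at hr hr'
        rw [hr, hr']
      · rw [g2] at hr hr'
        rw [hr, hr']
      · rw [g3] at hr hr'
        have hr1 : r = u ∨ r = t + u := by
          rcases hall r with h1 | h1 | h1 | h1
          · exact absurd h1 hr.1
          · exact absurd h1 hr.2
          · exact Or.inl h1
          · exact Or.inr h1
        have hr1' : r' = u ∨ r' = t + u := by
          rcases hall r' with h1 | h1 | h1 | h1
          · exact absurd h1 hr'.1
          · exact absurd h1 hr'.2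
          · exact Or.inl h1
          · exact Or.inr h1
        rcases hr1 with rfl | rfl <;> rcases hr1' with rfl | rfl
        · exact ReflTransGen.refl
        · exact ReflTransGen.single ⟨mu b, mw b, auw⟩
        · exact ReflTransGen.single ⟨mw b, mu b, hDat.Hsymm auw⟩
        · exact ReflTransGen.refl
    · intro b _ i hi
      rcases hfin i hi with rfl | rfl | rfl
      · exact ⟨0, (g1 _ _).2 rfl, (g1 _ _).2 rfl⟩
      · exact ⟨t, (g2 _ _).2 rfl, (g2 _ _).2 rfl⟩
      · exact ⟨u, mu _, mu _⟩
  have hep : ∀ e, e < 2 * (3 + 1) → ∀ i j : Fin (3 + 1), i ≠ 0 → j ≠ 0 → i ≠ j → ∃ b,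
      1 * e ≤ b ∧ b < 1 * (e + 1) ∧ ∃ r r', gF t b i r ∧ gF t b j r' ∧ Hadj E tr r r' := by
    intro e _ i j hi hj hij
    refine ⟨e, by omega, by omega, ?_⟩
    have a12 : Hadj E tr 0 t := by simpa using hadjt 0
    have a23 : Hadj E tr t (t + u) := hadju t
    have a13 : Hadj E tr 0 u := by simpa using hadju 0
    have m1 : gF t e 1 0 := (g1 _ _).2 rfl
    have m2 : gF t e 2 t := (g2 _ _).2 rfl
    rcases hfin i hi with rfl | rfl | rfl <;> rcases hfin j hj with rfl | rfl | rfl
    · exact absurd rfl hij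
    · exact ⟨_, _, m1, m2, a12⟩
    · exact ⟨_, _, m1, mu e, a13⟩
    · exact ⟨_, _, m2, m1, hDat.Hsymm a12⟩
    · exact absurd rfl hij
    · exact ⟨_, _, m2, mw e, a23⟩
    · exact ⟨_, _, mu e, m1, hDat.Hsymm a13⟩
    · exact ⟨_, _, mw e, m2, hDat.Hsymm a23⟩
    · exact absurd rfl hij
  set ν : Q := tr z with hν
  by_cases c0 : ν = 0
  · refine ring one_pos hDat hFrm 1 hep ?_
    intro i hi _
    rw [Equiv.Perm.one_apply, ← hν, c0]
    rcases hfin i hi with rfl | rfl | rfl
    · exact ⟨0, (g1 _ _).2 rfl, (g1 _ _).2 (by abel)⟩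
    · exact ⟨t, (g2 _ _).2 rfl, (g2 _ _).2 (by abel)⟩
    · exact ⟨u, mu _, by rw [sub_zero]; exact mu _⟩
  by_cases c1 : ν = t
  · let τ : Equiv.Perm (Fin (3 + 1)) := ⟨![0, 2, 1, 3], ![0, 2, 1, 3], by decide, by decide⟩
    refine ring one_pos hDat hFrm τ hep ?_
    intro i hi _
    rw [← hν, c1]
    rcases hfin i hi with rfl | rfl | rfl
    · exact ⟨0, (g1 _ _).2 rfl, (g2 _ _).2 (by rw [zero_sub, hnt])⟩
    · exact ⟨t, (g2 _ _).2 rfl, (g1 _ _).2 (by rw [sub_self])⟩
    · refine ⟨t + u, mw _, ?_⟩
      rw [add_sub_cancel_left]; exact mu _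
  · let τ : Equiv.Perm (Fin (3 + 1)) := ⟨![2, 3, 0, 1], ![2, 3, 0, 1], by decide, by decide⟩
    refine ring one_pos hDat hFrm τ hep ?_
    intro i hi hτ
    rw [← hν]
    rcases hfin i hi with rfl | rfl | rfl
    · refine ⟨0, (g1 _ _).2 rfl, (g3 _ _).2 ?_⟩
      rw [zero_sub]
      exact ⟨fun h => c0 (neg_eq_zero.1 h), fun h => c1 (by rw [← neg_neg ν, h, hnt])⟩
    · exact absurd rfl hτ
    · exact ⟨ν, (g3 _ _).2 ⟨c0, c1⟩, (g1 _ _).2 (by abel)⟩

theorem colorable_four {Γ : Type} [AddCommGroup Γ] {π : G →+ Γ} {z : G}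
    (h : Rg ℓ (ES S) tr s0) (hQ : Qt ℓ (ES S) π z (ℓ s0)) (hz2 : 2 * ℓ s0 ≤ ℓ z) {t u : Q} (ht0 : t ≠ 0) (hu0 : u ≠ 0)
    (htu : t ≠ u) (ht2 : t + t = 0) (hu2 : u + u = 0)
    (hall : ∀ r : Q, r = 0 ∨ r = t ∨ r = u ∨ r = t + u)
    (hB : ∀ x ∈ ES S, tr x = 0 ∨ tr x = t ∨ tr x = u) :
    (cay (π '' S)).Colorable 6 := by
  classical
  have hd := h.d0
  have hw0 : t + u ≠ 0 := by
    intro h0
    apply htu
    have : t + u + u = u := by rw [h0, zero_add]
    rwa [add_assoc, hu2, add_zero] at this
  have hnt : -t = t := neg_eq_of_add_eq_zero_left ht2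
  have hnu : -u = u := neg_eq_of_add_eq_zero_left hu2
  -- the two classes of tracks
  let σ : Q → ℕ := fun r => if r = 0 ∨ r = t + u then 0 else 1
  have hσ01 : ∀ r, σ r = 0 ∨ σ r = 1 := by
    intro r; simp only [σ]; split_ifs <;> simp
  have hσ : ∀ r, σ (r + t) ≠ σ r ∧ σ (r + u) ≠ σ r := by
    intro r
    have e0 : σ 0 = 0 := by simp [σ]
    have ew : σ (t + u) = 0 := by simp [σ]
    have et : σ t = 1 := by
      simp only [σ]
      rw [if_neg]
      rintro (h1 | h1)
      · exact ht0 h1
      · exact hu0 (by simpa using h1.symm)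
    have eu : σ u = 1 := by
      simp only [σ]
      rw [if_neg]
      rintro (h1 | h1)
      · exact hu0 h1
      · exact ht0 (by simpa using h1.symm)
    rcases hall r with rfl | rfl | rfl | rfl
    · rw [zero_add, zero_add, e0, et, eu]; omega
    · rw [ht2, e0, et, ew]; omega
    · rw [hu2, add_comm r t, e0, eu, ew]; omega
    · rw [show t + u + t = u + (t + t) by abel, ht2, add_zero,
        show t + u + u = t + (u + u) by abel, hu2, add_zero, ew, et, eu]; omega
  let c : G → ℕ := fun x =>
    if ℓ x < ℓ s0 then 4 + σ (tr x) else 2 * σ (tr x) + ((ℓ x / ℓ s0) % 2).toNat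
  have hpar : ∀ x : G, ((ℓ x / ℓ s0) % 2).toNat < 2 := by
    intro x
    have := Int.emod_nonneg (ℓ x / ℓ s0) (show (2 : ℤ) ≠ 0 by norm_num)
    have := Int.emod_lt_of_pos (ℓ x / ℓ s0) (show (0 : ℤ) < 2 by norm_num)
    omega
  apply hQ.colorable c
  · intro x _ _
    have h1 := hpar x
    rcases hσ01 (tr x) with h2 | h2 <;> simp only [c] <;> split_ifs <;> omega
  · -- one direction of each edge suffices
    have key : ∀ x y, A ℓ (ES S) z x y → ℓ x ≤ ℓ y → c x ≠ c y := by
      rintro x y ⟨hx, hy, hne, hE⟩ hle heq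
      have hpx := hpar x
      have hpy := hpar y
      -- the difference of the tracks
      by_cases hy1 : ℓ y < ℓ s0
      · -- both in the window
        have hx1 : ℓ x < ℓ s0 := by omega
        simp only [c, hx1, hy1, if_true] at heq
        have hz := hQ.hz
        rcases hE with hE | hE | hE
        · rcases hB _ hE with h1 | h1 | h1
          · obtain ⟨k, hk⟩ := (h.htr _).1 h1
            have h2 : ℓ y - ℓ x = k * ℓ s0 := by
              have := congrArg ℓ hk
              rwa [map_sub, map_zsmul, smul_eq_mul] at this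
            have hk0 : k = 0 := by
              rcases lt_trichotomy k 0 with h3 | h3 | h3
              · have : k * ℓ s0 ≤ (-1) * ℓ s0 := mul_le_mul_of_nonneg_right (by omega) hd.le
                omega
              · exact h3
              · have : 1 * ℓ s0 ≤ k * ℓ s0 := mul_le_mul_of_nonneg_right (by omega) hd.le
                omega
            rw [hk0, zero_smul, sub_eq_zero] at hk
            exact hne hk.symm
          · rw [map_sub, sub_eq_iff_eq_add'] at h1
            have := (hσ (tr x)).1
            rw [← h1] at this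
            omega
          · rw [map_sub, sub_eq_iff_eq_add'] at h1
            have := (hσ (tr x)).2
            rw [← h1] at this
            omega
        · have := hQ.hE _ hE
          rw [map_add, map_sub] at this
          omega
        · have := hQ.hE _ (ES_symm _ hE)
          rw [map_neg, map_sub, map_sub] at this
          omega
      · by_cases hx1 : ℓ x < ℓ s0
        · -- `x` in the window, `y` not
          simp only [c, hx1, hy1, if_true, if_false] at heq
          rcases hσ01 (tr x) with h1 | h1 <;> rcases hσ01 (tr y) with h2 | h2 <;> omega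
        · simp only [c, hx1, hy1, if_false] at heq
          have hσe : σ (tr x) = σ (tr y) := by
            rcases hσ01 (tr x) with h1 | h1 <;> rcases hσ01 (tr y) with h2 | h2 <;> omega
          rcases hE with hE | hE | hE
          · rcases hB _ hE with h1 | h1 | h1
            · obtain ⟨k, hk⟩ := (h.htr _).1 h1
              have h2 : ℓ y - ℓ x = k * ℓ s0 := by
                have := congrArg ℓ hk
                rwa [map_sub, map_zsmul, smul_eq_mul] at this
              have h3 := hQ.hE _ hE
              rw [map_sub] at h3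
              have hk2 : k < 2 := by
                by_contra hge
                have : 2 * ℓ s0 ≤ k * ℓ s0 := mul_le_mul_of_nonneg_right (by omega) hd.le
                omega
              have hk1 : 0 ≤ k := by
                by_contra hge
                have : k * ℓ s0 ≤ (-1) * ℓ s0 := mul_le_mul_of_nonneg_right (by omega) hd.le
                omega
              have hk3 : k = 0 ∨ k = 1 := by omega
              rcases hk3 with rfl | rfl
              · rw [zero_smul, sub_eq_zero] at hk
                exact hne hk.symm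
              · rw [one_mul] at h2
                have h4 : ℓ y / ℓ s0 = ℓ x / ℓ s0 + 1 := by
                  rw [show ℓ y = ℓ x + 1 * ℓ s0 by omega, Int.add_mul_ediv_right _ _ hd.ne']
                rw [h4, hσe] at heq
                omega
            · rw [map_sub, sub_eq_iff_eq_add'] at h1
              have := (hσ (tr x)).1
              rw [← h1] at this
              exact this hσe.symm
            · rw [map_sub, sub_eq_iff_eq_add'] at h1
              have := (hσ (tr x)).2
              rw [← h1] at this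
              exact this hσe.symm
          · have := hQ.hE _ hE
            rw [map_add, map_sub] at this
            omega
          · have := hQ.hE _ (ES_symm _ hE)
            rw [map_neg, map_sub, map_sub] at this
            omega
    intro x y hxy
    rcases le_total (ℓ x) (ℓ y) with hle | hle
    · exact key x y hxy hle
    · refine (key y x ?_ hle).symm
      obtain ⟨h1, h2, h3, h4⟩ := hxy
      refine ⟨h2, h1, h3.symm, ?_⟩
      rcases h4 with h4 | h4 | h4
      · left
        have := ES_symm _ h4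
        rwa [neg_sub] at this
      · right; right
        have := ES_symm _ h4
        rwa [show -(y - x + z) = x - y - z by abel] at this
      · right; left
        have := ES_symm _ h4
        rwa [show -(y - x - z) = x - y + z by abel] at this

end Pool.Agent.H55.AC
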