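import Mathlib

/-!
# Planar lattices without short vectors have characters near one third
-/

namespace Pool.Agent.H55.AC

/-- determinant -/
def det (v w : ℤ × ℤ) : ℤ := v.1 * w.2 - w.1 * v.2

/-- squared length -/
def nm (v : ℤ × ℤ) : ℤ := v.1 ^ 2 + v.2 ^ 2

lemma nm_nonneg (v : ℤ × ℤ) : 0 ≤ nm v := by unfold nm; positivity

lemma nm_pos {v : ℤ × ℤ} (h : v ≠ 0) : 0 < nm v := by
  unfold nm
  rcases v with ⟨x, y⟩
  by_cases hx : x = 0
  · have hy : y ≠ 0 := fun h0 => h (by rw [hx, h0]; rfl)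
    have := sq_pos_of_ne_zero hy |> fun h => h
    have h2 : 0 < y ^ 2 := by positivity
    simp only
    nlinarith [sq_nonneg x]
  · have h2 : 0 < x ^ 2 := by positivity
    simp only
    nlinarith [sq_nonneg y]

lemma exists_round (a : ℤ) {b : ℤ} (hb : 0 < b) : ∃ k : ℤ, |2 * (a - k * b)| ≤ b := by
  refine ⟨(2 * a + b) / (2 * b), ?_⟩
  have h1 := Int.emod_add_mul_ediv (2 * a + b) (2 * b)
  have h2 := Int.emod_nonneg (2 * a + b) (show 2 * b ≠ 0 by omega)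
  have h3 := Int.emod_lt_of_pos (2 * a + b) (show 0 < 2 * b by omega)
  rw [abs_le]
  constructor <;> nlinarith

/-- **Reduced basis.** -/
theorem exists_reduced (Λ : AddSubgroup (ℤ × ℤ)) {n : ℤ} (hn : 0 < n) (h1 : (n, 0) ∈ Λ)
    (h2 : (0, n) ∈ Λ) :
    ∃ v w : ℤ × ℤ, v ∈ Λ ∧ w ∈ Λ ∧ v ≠ 0 ∧ 0 < det v w ∧
      3 * nm v * nm w ≤ 4 * det v w ^ 2 ∧ nm v ≤ nm w ∧
      ∀ u ∈ Λ, ∃ x y : ℤ, u = x • v + y • w := by
  classical
  -- a shortest vector
  have hexv : ∃ k : ℕ, ∃ v ∈ Λ, v ≠ 0 ∧ nm v = k :=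
    ⟨(nm (n, 0)).toNat, (n, 0), h1, by simp [Prod.ext_iff]; omega,
      (Int.toNat_of_nonneg (nm_nonneg _)).symm⟩
  obtain ⟨v, hv, hv0, hvk⟩ := Nat.find_spec hexv
  have hvmin : ∀ u ∈ Λ, u ≠ 0 → nm v ≤ nm u := by
    intro u hu hu0
    have := Nat.find_min' hexv ⟨u, hu, hu0, (Int.toNat_of_nonneg (nm_nonneg u)).symm⟩
    have := nm_nonneg u
    omega
  -- a shortest independent vector
  have hexw : ∃ k : ℕ, ∃ w ∈ Λ, 0 < det v w ∧ nm w = k := by
    have hneg : ∀ w : ℤ × ℤ, det v (-w) = -det v w := by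
      intro w; unfold det; simp only [Prod.fst_neg, Prod.snd_neg]; ring
    have hor : ∃ w ∈ Λ, det v w ≠ 0 := by
      by_cases hx : v.1 = 0
      · have hy : v.2 ≠ 0 := fun h0 => hv0 (Prod.ext hx h0)
        refine ⟨(n, 0), h1, ?_⟩
        unfold det
        simp only [mul_zero, zero_sub]
        exact neg_ne_zero.2 (mul_ne_zero hn.ne' hy)
      · refine ⟨(0, n), h2, ?_⟩
        unfold det
        simp only [zero_mul, sub_zero]
        exact mul_ne_zero hx hn.ne'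
    obtain ⟨w, hw, hdet⟩ := hor
    rcases lt_or_gt_of_ne hdet with hlt | hgt
    · exact ⟨(nm (-w)).toNat, -w, Λ.neg_mem hw, by rw [hneg]; omega,
        (Int.toNat_of_nonneg (nm_nonneg _)).symm⟩
    · exact ⟨(nm w).toNat, w, hw, hgt, (Int.toNat_of_nonneg (nm_nonneg _)).symm⟩
  obtain ⟨w, hw, hdet, hwk⟩ := Nat.find_spec hexw
  have hwmin' : ∀ u ∈ Λ, 0 < det v u → nm w ≤ nm u := by
    intro u hu hu0
    have := Nat.find_min' hexw ⟨u, hu, hu0, (Int.toNat_of_nonneg (nm_nonneg u)).symm⟩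
    have := nm_nonneg u
    omega
  have hwmin : ∀ u ∈ Λ, det v u ≠ 0 → nm w ≤ nm u := by
    intro u hu hu0
    rcases lt_or_gt_of_ne hu0 with hlt | hgt
    · have h3 : det v (-u) = -det v u := by
        unfold det; simp only [Prod.fst_neg, Prod.snd_neg]; ring
      have h4 : nm (-u) = nm u := by
        unfold nm; simp only [Prod.fst_neg, Prod.snd_neg]; ring
      rw [← h4]
      exact hwmin' (-u) (Λ.neg_mem hu) (by rw [h3]; omega)
    · exact hwmin' u hu hgt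
  have hw0 : w ≠ 0 := by
    intro h0
    rw [h0] at hdet
    unfold det at hdet
    simp at hdet
  have hvw : nm v ≤ nm w := hvmin w hw hw0
  -- the inner product
  set ip : ℤ := v.1 * w.1 + v.2 * w.2 with hip
  have hplus : nm (w + v) = nm w + 2 * ip + nm v := by
    unfold nm; simp only [Prod.fst_add, Prod.snd_add, hip]; ring
  have hminus : nm (w - v) = nm w - 2 * ip + nm v := by
    unfold nm; simp only [Prod.fst_sub, Prod.snd_sub, hip]; ring
  have hdplus : det v (w + v) = det v w := by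
    unfold det; simp only [Prod.fst_add, Prod.snd_add]; ring
  have hdminus : det v (w - v) = det v w := by
    unfold det; simp only [Prod.fst_sub, Prod.snd_sub]; ring
  have hip1 : -(2 * ip) ≤ nm v := by
    have := hwmin (w + v) (Λ.add_mem hw hv) (by rw [hdplus]; omega)
    omega
  have hip2 : 2 * ip ≤ nm v := by
    have := hwmin (w - v) (Λ.sub_mem hw hv) (by rw [hdminus]; omega)
    omega
  have hlag : nm v * nm w = det v w ^ 2 + ip ^ 2 := by
    unfold nm det; simp only [hip]; ring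
  have hip4 : 4 * ip ^ 2 ≤ nm v * nm w := by
    have h3 : (2 * ip) ^ 2 ≤ nm v ^ 2 := sq_le_sq' (by omega) hip2
    have h4 : nm v ^ 2 ≤ nm v * nm w := by
      rw [sq]; exact mul_le_mul_of_nonneg_left hvw (nm_nonneg v)
    nlinarith
  refine ⟨v, w, hv, hw, hv0, hdet, by nlinarith, hvw, ?_⟩
  -- it is a basis
  intro u hu
  set Δ := det v w with hΔ
  obtain ⟨x, hx⟩ := exists_round (det u w) hdet
  obtain ⟨y, hy⟩ := exists_round (det v u) hdet
  set r : ℤ × ℤ := u - x • v - y • w with hr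
  have hrΛ : r ∈ Λ := Λ.sub_mem (Λ.sub_mem hu (Λ.zsmul_mem hv x)) (Λ.zsmul_mem hw y)
  have hr1 : r.1 = u.1 - x * v.1 - y * w.1 := by
    rw [hr]; simp
  have hr2 : r.2 = u.2 - x * v.2 - y * w.2 := by
    rw [hr]; simp
  have hs : det r w = det u w - x * Δ := by
    unfold det at *; rw [hr1, hr2, hΔ]; ring
  have ht : det v r = det v u - y * Δ := by
    unfold det at *; rw [hr1, hr2, hΔ]; ring
  rw [← hs, abs_le] at hx
  rw [← ht, abs_le] at hy
  -- Cramer's rule for the length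
  have hlen : Δ ^ 2 * nm r = det r w ^ 2 * nm v + 2 * det r w * det v r * ip +
      det v r ^ 2 * nm w := by
    unfold nm det; simp only [hip, hΔ]; unfold det; ring
  have hΔ2 : 0 < Δ ^ 2 := by positivity
  have hs2 : 4 * det r w ^ 2 ≤ Δ ^ 2 := by
    have : (2 * det r w) ^ 2 ≤ Δ ^ 2 := sq_le_sq' (by omega) (by omega)
    linarith
  have ht2 : 4 * det v r ^ 2 ≤ Δ ^ 2 := by
    have : (2 * det v r) ^ 2 ≤ Δ ^ 2 := sq_le_sq' (by omega) (by omega)
    linarith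
  have hmix : 4 * (2 * det r w * det v r * ip) ≤ Δ ^ 2 * nm v := by
    -- |2 ip| ≤ nm v and |4 s t| ≤ Δ²
    have h3 : 4 * (det r w * det v r) ≤ Δ ^ 2 := by nlinarith [sq_nonneg (det r w - det v r)]
    have h4 : -(4 * (det r w * det v r)) ≤ Δ ^ 2 := by nlinarith [sq_nonneg (det r w + det v r)]
    have h5 : (4 * (det r w * det v r)) * (2 * ip) ≤ Δ ^ 2 * nm v := by
      have h6 : |4 * (det r w * det v r)| ≤ Δ ^ 2 := abs_le.2 ⟨by linarith, h3⟩
      have h7 : |2 * ip| ≤ nm v := abs_le.2 ⟨by linarith, hip2⟩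
      calc (4 * (det r w * det v r)) * (2 * ip) ≤ |(4 * (det r w * det v r)) * (2 * ip)| :=
            le_abs_self _
        _ = |4 * (det r w * det v r)| * |2 * ip| := abs_mul _ _
        _ ≤ Δ ^ 2 * nm v := mul_le_mul h6 h7 (abs_nonneg _) hΔ2.le
    linarith
  have hv1 := nm_pos hv0
  have hw1 := nm_pos hw0
  have hrshort : 4 * nm r ≤ 3 * nm w := by
    have h3 : Δ ^ 2 * (4 * nm r) ≤ Δ ^ 2 * (3 * nm w) := by
      have h4 : 4 * det r w ^ 2 * nm v ≤ Δ ^ 2 * nm v :=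
        mul_le_mul_of_nonneg_right hs2 hv1.le
      have h5 : 4 * det v r ^ 2 * nm w ≤ Δ ^ 2 * nm w :=
        mul_le_mul_of_nonneg_right ht2 hw1.le
      have h6 : Δ ^ 2 * nm v ≤ Δ ^ 2 * nm w := mul_le_mul_of_nonneg_left hvw hΔ2.le
      nlinarith
    exact le_of_mul_le_mul_left h3 hΔ2
  have hdr : det v r = 0 := by
    by_contra hne
    have := hwmin r hrΛ hne
    omega
  have hr0 : r = 0 := by
    by_contra hne
    have h3 := hvmin r hrΛ hne
    rw [hdr] at hlen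
    have h4 : Δ ^ 2 * (4 * nm r) ≤ Δ ^ 2 * nm v := by
      have h5 : 4 * det r w ^ 2 * nm v ≤ Δ ^ 2 * nm v :=
        mul_le_mul_of_nonneg_right hs2 hv1.le
      nlinarith
    have h6 := le_of_mul_le_mul_left h4 hΔ2
    omega
  refine ⟨x, y, ?_⟩
  rw [hr, sub_sub, sub_eq_zero] at hr0
  exact hr0

lemma exists_third (a : ℤ) : ∃ k ρ : ℤ, 3 * k = a + ρ ∧ |ρ| ≤ 1 := by
  refine ⟨(a + 1) / 3, 3 * ((a + 1) / 3) - a, by ring, ?_⟩
  rw [abs_le]
  omega

/-- characters near `(1/3, 1/3)` -/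
theorem exists_char (Λ : AddSubgroup (ℤ × ℤ)) {n : ℤ} (hn : 0 < n) (h1 : (n, 0) ∈ Λ)
    (h2 : (0, n) ∈ Λ) (hshort : ∀ v ∈ Λ, v ≠ 0 → 342 ≤ nm v) :
    ∃ (M : ℕ) (X Y : ℤ), 0 < M ∧ (∀ u ∈ Λ, (M : ℤ) ∣ u.1 * X + u.2 * Y) ∧
      ((M : ℤ) ≤ 4 * X ∧ 4 * X ≤ 3 * M) ∧ ((M : ℤ) ≤ 4 * Y ∧ 4 * Y ≤ 3 * M) ∧
      ((M : ℤ) ≤ 4 * (X + Y) ∧ 4 * (X + Y) ≤ 3 * M) := by
  obtain ⟨v, w, hv, hw, hv0, hdet, hred, hvw, hbas⟩ := exists_reduced Λ hn h1 h2
  set Δ := det v w with hΔ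
  obtain ⟨p, ρ, hp, hρ⟩ := exists_third (v.1 + v.2)
  obtain ⟨r, σ, hr, hσ⟩ := exists_third (w.1 + w.2)
  obtain ⟨M, hM⟩ : ∃ M : ℕ, Δ = M := ⟨Δ.toNat, (Int.toNat_of_nonneg hdet.le).symm⟩
  have hv1 := hshort v hv hv0
  -- the determinant is large
  have hbig : ∀ x y : ℤ, x ^ 2 ≤ nm w → y ^ 2 ≤ nm w → 8 * (|x| + |y|) ≤ Δ := by
    intro x y hx hy
    have h3 : (|x| + |y|) ^ 2 ≤ 4 * nm w := by
      have h4 : |x| ^ 2 = x ^ 2 := sq_abs x
      have h5 : |y| ^ 2 = y ^ 2 := sq_abs y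
      nlinarith [sq_nonneg (|x| - |y|)]
    have h6 : (8 * (|x| + |y|)) ^ 2 ≤ Δ ^ 2 := by
      have h7 : 3 * 342 * nm w ≤ 3 * nm v * nm w := by
        have := nm_nonneg w
        nlinarith
      nlinarith
    exact abs_le_of_sq_le_sq' h6 hdet.le |>.2
  have hw1 : w.1 ^ 2 ≤ nm w := by unfold nm; nlinarith [sq_nonneg w.2]
  have hw2 : w.2 ^ 2 ≤ nm w := by unfold nm; nlinarith [sq_nonneg w.1]
  have hv1' : v.1 ^ 2 ≤ nm w := by
    refine le_trans ?_ hvw; unfold nm; nlinarith [sq_nonneg v.2]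
  have hv2' : v.2 ^ 2 ≤ nm w := by
    refine le_trans ?_ hvw; unfold nm; nlinarith [sq_nonneg v.1]
  have hb2 := hbig v.2 w.2 hv2' hw2
  have hb1 := hbig v.1 w.1 hv1' hw1
  set X := p * w.2 - r * v.2 with hX
  set Y := r * v.1 - p * w.1 with hY
  have hΔd : Δ = v.1 * w.2 - w.1 * v.2 := hΔ
  have hX3 : 3 * X = Δ + (ρ * w.2 - σ * v.2) := by
    rw [hX, hΔd]; linear_combination w.2 * hp - v.2 * hr
  have hY3 : 3 * Y = Δ + (σ * v.1 - ρ * w.1) := by
    rw [hY, hΔd]; linear_combination v.1 * hr - w.1 * hp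
  have herr : ∀ a b x y : ℤ, |a| ≤ 1 → |b| ≤ 1 → |a * x - b * y| ≤ |x| + |y| := by
    intro a b x y ha hb
    calc |a * x - b * y| ≤ |a * x| + |b * y| := abs_sub _ _
      _ = |a| * |x| + |b| * |y| := by rw [abs_mul, abs_mul]
      _ ≤ 1 * |x| + 1 * |y| := add_le_add (mul_le_mul_of_nonneg_right ha (abs_nonneg _))
          (mul_le_mul_of_nonneg_right hb (abs_nonneg _))
      _ = |x| + |y| := by ring
  have eX := abs_le.1 (herr ρ σ w.2 v.2 hρ hσ)
  have eY := abs_le.1 (herr σ ρ v.1 w.1 hσ hρ)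
  refine ⟨M, X, Y, by omega, ?_, ?_, ?_, ?_⟩
  · intro u hu
    obtain ⟨x, y, rfl⟩ := hbas u hu
    rw [← hM]
    refine ⟨x * p + y * r, ?_⟩
    simp only [Prod.fst_add, Prod.snd_add, Prod.smul_fst, Prod.smul_snd, smul_eq_mul]
    rw [hX, hY, hΔd]
    ring
  · rw [← hM]; constructor <;> omega
  · rw [← hM]; constructor <;> omega
  · rw [← hM]; constructor <;> omega

end Pool.Agent.H55.AC
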