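import Pool.Agent.H55.AC.Quot
import Pool.Agent.H55.SC.Colour

/-!
# Colourings by layers
-/

namespace Pool.Agent.H55.AC

open Relation Pool.Agent.H55.SC

variable {G Γ : Type} [AddCommGroup G] [AddCommGroup Γ]
variable {ℓ : G →+ ℤ} {S : Set G} {π : G →+ Γ} {z : G}

/-- **Layer colouring.** If the elements of height `0` fall into `r` classes such that different
elements of a class are not adjacent, then long rings are `((d + 1) r + 1)`-colourable. -/
theorem colorable_layers {d : ℕ} (h : Qt ℓ (ES S) π z d) (e1 : G) (he1 : ℓ e1 = 1) {r : ℕ}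
    (hr : 1 ≤ r) (P : G → ℕ) (hP : ∀ x, ℓ x = 0 → P x < r)
    (hcl : ∀ x y, ℓ x = 0 → ℓ y = 0 → P x = P y → x ≠ y → x - y ∉ ES S)
    (hn : (((d + 1) * r * ((d + 1) * r) : ℕ) : ℤ) ≤ ℓ z) :
    (cay (π '' S)).Colorable ((d + 1) * r + 1) := by
  have hd0 : 0 < d := by have := h.d0; omega
  have hz0 : 0 < ℓ z := lt_trans h.d0 h.hz
  obtain ⟨n, hn'⟩ : ∃ n : ℕ, ℓ z = n := ⟨(ℓ z).toNat, (Int.toNat_of_nonneg hz0.le).symm⟩
  have hn0 : 0 < n := by omega
  set M := (d + 1) * r - 1 with hM
  have hM1 : 1 ≤ M := by
    have : 2 * 1 ≤ (d + 1) * r := Nat.mul_le_mul (by omega) hr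
    omega
  have hM2 : M + 1 = (d + 1) * r := by omega
  have hMr : (M : ℤ) = d * r + r - 1 := by
    have : (M : ℤ) + 1 = (d + 1) * r := by exact_mod_cast hM2
    linarith
  have hnM : M * (M + 1) ≤ n * r := by
    have h1 : (M + 1) * (M + 1) ≤ n := by
      rw [hM2]; rw [hn'] at hn; exact_mod_cast hn
    nlinarith
  have hcol : (circ (n * r) (Finset.Icc 1 M)).Colorable (M + 2) :=
    colorable_two hM1 (fun δ hδ => Finset.mem_Icc.1 hδ) hnM
  have hNM : M < n * r := by nlinarith
  obtain ⟨C⟩ := hcol
  have hM3 : M + 2 = (d + 1) * r + 1 := by omega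
  rw [← hM3]
  -- the class of an element in its layer
  let p : G → ℕ := fun x => P (x - ℓ x • e1)
  have hℓ0 : ∀ x, ℓ (x - ℓ x • e1) = 0 := by
    intro x; rw [map_sub, map_zsmul, he1]; simp
  have hp : ∀ x, p x < r := fun x => hP _ (hℓ0 x)
  let pos : G → ℕ := fun x => r * (ℓ x).toNat + p x
  have hpos : ∀ x, 0 ≤ ℓ x → (pos x : ℤ) = r * ℓ x + p x := by
    intro x hx
    simp only [pos]
    push_cast
    rw [Int.toNat_of_nonneg hx]
  have hposlt : ∀ x, 0 ≤ ℓ x → ℓ x < ℓ z → pos x < n * r := by
    intro x hx hxz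
    have h1 := hpos x hx
    have h2 := hp x
    have h3 : (r : ℤ) * (ℓ x + 1) ≤ r * n := mul_le_mul_of_nonneg_left (by omega) (by positivity)
    have h4 : (pos x : ℤ) < n * r := by
      rw [h1]
      have : (p x : ℤ) < r := by exact_mod_cast h2
      nlinarith
    exact_mod_cast h4
  refine h.colorable (fun x => (C ((pos x : ℕ) : ZMod (n * r))).val) (fun x _ _ => Fin.is_lt _) ?_
  intro x y hxy heq
  have hadj : (circ (n * r) (Finset.Icc 1 M)).Adj ((pos x : ℕ) : ZMod (n * r))
      ((pos y : ℕ) : ZMod (n * r)) := by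
    apply adj_of_A
    obtain ⟨hx, hy, hne, hE⟩ := hxy
    refine ⟨hposlt x hx.1 hx.2, hposlt y hy.1 hy.2, ?_, ?_⟩
    · -- different positions
      intro hpe
      have h1 := hpos x hx.1
      have h2 := hpos y hy.1
      rw [hpe] at h1
      have h3 : (r : ℤ) * ℓ x + p x = r * ℓ y + p y := by rw [← h1, ← h2]
      have h4 : (p x : ℤ) < r := by exact_mod_cast hp x
      have h5 : (p y : ℤ) < r := by exact_mod_cast hp y
      have h4' : (0 : ℤ) ≤ p x := by positivity
      have h5' : (0 : ℤ) ≤ p y := by positivity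
      have hr0 : (0 : ℤ) < r := by exact_mod_cast hr
      have h6 : ℓ x = ℓ y := by
        rcases lt_trichotomy (ℓ x) (ℓ y) with hlt | heq | hlt
        · exfalso
          have : (r : ℤ) * (ℓ x + 1) ≤ r * ℓ y := mul_le_mul_of_nonneg_left (by omega) hr0.le
          nlinarith
        · exact heq
        · exfalso
          have : (r : ℤ) * (ℓ y + 1) ≤ r * ℓ x := mul_le_mul_of_nonneg_left (by omega) hr0.le
          nlinarith
      have h7 : p x = p y := by
        rw [h6] at h3
        exact_mod_cast (by linarith : (p x : ℤ) = p y)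
      have h8 : (x - ℓ x • e1) - (y - ℓ y • e1) = x - y := by rw [h6]; abel
      have h9 := hcl (x - ℓ x • e1) (y - ℓ y • e1) (hℓ0 x) (hℓ0 y) h7 (by
        intro h0
        rw [h6] at h0
        exact hne (sub_left_inj.1 h0))
      rw [h8] at h9
      -- the adjacency is in the layer
      have hz := h.hz
      rcases hE with hE | hE | hE
      · apply h9
        have := ES_symm _ hE
        rwa [neg_sub] at this
      · have := h.hE _ hE
        rw [map_add, map_sub, h6] at this
        omega
      · have := h.hE _ (ES_symm _ hE)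
        rw [map_neg, map_sub, map_sub, h6] at this
        omega
    · have h1 := hpos x hx.1
      have h2 := hpos y hy.1
      have h4 : (p x : ℤ) < r := by exact_mod_cast hp x
      have h5 : (p y : ℤ) < r := by exact_mod_cast hp y
      have h4' : (0 : ℤ) ≤ p x := by positivity
      have h5' : (0 : ℤ) ≤ p y := by positivity
      have hr0 : (0 : ℤ) < r := by exact_mod_cast hr
      have hlx := hposlt x hx.1 hx.2
      have hly := hposlt y hy.1 hy.2
      have hnr : ((n * r : ℕ) : ℤ) = n * r := by push_cast; ring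
      have hmulle : ∀ a b : ℤ, a ≤ b → (r : ℤ) * a ≤ r * b := fun a b hab =>
        mul_le_mul_of_nonneg_left hab hr0.le
      -- it suffices to bound the difference on the circle
      have fin1 : ∀ t : ℤ, 1 ≤ t → t ≤ M → ((pos x : ℤ) + t = pos y ∨ (pos y : ℤ) + t = pos x ∨
          (pos x : ℤ) + t = pos y + (n * r : ℕ) ∨ (pos y : ℤ) + t = pos x + (n * r : ℕ)) →
          ∃ δ ∈ Finset.Icc 1 M, pos x + δ = pos y ∨ pos y + δ = pos x ∨
            pos x + δ = pos y + n * r ∨ pos y + δ = pos x + n * r := by
        intro t ht1 ht2 ht3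
        refine ⟨t.toNat, Finset.mem_Icc.2 ⟨by omega, by omega⟩, ?_⟩
        omega
      rcases hE with hE | hE | hE
      · have hb1 := h.hE _ hE
        have hb2 := h.hE _ (ES_symm _ hE)
        rw [map_sub] at hb1
        rw [map_neg, map_sub] at hb2
        have f1 := hmulle (ℓ y) (ℓ x + d) (by omega)
        have f2 := hmulle (ℓ x) (ℓ y + d) (by omega)
        -- the positions differ
        have hpne : pos x ≠ pos y := by
          intro hpe
          rw [hpe] at h1
          have h3 : (r : ℤ) * ℓ x + p x = r * ℓ y + p y := by rw [← h1, ← h2]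
          have h6 : ℓ x = ℓ y := by
            rcases lt_trichotomy (ℓ x) (ℓ y) with hlt | heq | hlt
            · exfalso
              have := hmulle (ℓ x + 1) (ℓ y) (by omega)
              nlinarith
            · exact heq
            · exfalso
              have := hmulle (ℓ y + 1) (ℓ x) (by omega)
              nlinarith
          have h7 : p x = p y := by
            rw [h6] at h3
            exact_mod_cast (by linarith : (p x : ℤ) = p y)
          have h9 := hcl (x - ℓ x • e1) (y - ℓ y • e1) (hℓ0 x) (hℓ0 y) h7 (by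
            intro h0
            rw [h6] at h0
            exact hne (sub_left_inj.1 h0))
          rw [show (x - ℓ x • e1) - (y - ℓ y • e1) = x - y by rw [h6]; abel] at h9
          apply h9
          have := ES_symm _ hE
          rwa [neg_sub] at this
        rcases lt_or_gt_of_ne hpne with hlt | hlt
        · exact fin1 (pos y - pos x) (by omega) (by rw [h1, h2, hMr]; nlinarith)
            (Or.inl (by ring))
        · exact fin1 (pos x - pos y) (by omega) (by rw [h1, h2, hMr]; nlinarith)
            (Or.inr (Or.inl (by ring)))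
      · have hb1 := h.hE _ hE
        rw [map_add, map_sub, hn'] at hb1
        have f1 := hmulle (ℓ y + n) (ℓ x + d) (by omega)
        have f2 := hmulle (ℓ x + 1) (ℓ y + n) (by omega)
        refine fin1 (pos y + n * r - pos x) ?_ ?_ (Or.inr (Or.inr (Or.inl ?_)))
        · rw [h1, h2]; nlinarith
        · rw [h1, h2, hMr]; nlinarith
        · rw [hnr]; ring
      · have hb1 := h.hE _ (ES_symm _ hE)
        rw [map_neg, map_sub, map_sub, hn'] at hb1
        have f1 := hmulle (ℓ x + n) (ℓ y + d) (by omega)
        have f2 := hmulle (ℓ y + 1) (ℓ x + n) (by omega)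
        refine fin1 (pos x + n * r - pos y) ?_ ?_ (Or.inr (Or.inr (Or.inr ?_)))
        · rw [h1, h2]; nlinarith
        · rw [h1, h2, hMr]; nlinarith
        · rw [hnr]; ring
  exact C.valid hadj (Fin.ext heq)

/-- **Copying layers.** If all edges have height at most one and some element `e` of height one is
not an edge difference, then twice the number of elements of height `0` suffices. -/
theorem colorable_copy (h : Qt ℓ (ES S) π z 1) (e : G) (he : ℓ e = 1) (heS : e ∉ ES S) {m : ℕ}
    (P : G → ℕ) (hP : ∀ x, ℓ x = 0 → P x < m)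
    (hinj : ∀ x y, ℓ x = 0 → ℓ y = 0 → P x = P y → x = y) (hn : 3 ≤ ℓ z) :
    (cay (π '' S)).Colorable (2 * m) := by
  have hℓ0 : ∀ x, ℓ (x - ℓ x • e) = 0 := by
    intro x; rw [map_sub, map_zsmul, he]; simp
  let c : G → ℕ := fun x => P (x - ℓ x • e) + (if ℓ x = ℓ z - 1 then m else 0)
  apply h.colorable c
  · intro x _ _
    have := hP _ (hℓ0 x)
    simp only [c]
    split_ifs <;> omega
  · rintro x y ⟨hx, hy, hne, hE⟩ heq
    have hPx := hP _ (hℓ0 x)
    have hPy := hP _ (hℓ0 y)
    have hflag : (ℓ x = ℓ z - 1 ↔ ℓ y = ℓ z - 1) ∧ P (x - ℓ x • e) = P (y - ℓ y • e) := by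
      simp only [c] at heq
      by_cases h1 : ℓ x = ℓ z - 1
      · by_cases h2 : ℓ y = ℓ z - 1
        · rw [if_pos h1, if_pos h2] at heq
          exact ⟨⟨fun _ => h2, fun _ => h1⟩, by omega⟩
        · rw [if_pos h1, if_neg h2] at heq
          omega
      · by_cases h2 : ℓ y = ℓ z - 1
        · rw [if_neg h1, if_pos h2] at heq
          omega
        · rw [if_neg h1, if_neg h2] at heq
          exact ⟨⟨fun h3 => absurd h3 h1, fun h3 => absurd h3 h2⟩, by omega⟩
    obtain ⟨hf, hPe⟩ := hflag
    have hxy := hinj _ _ (hℓ0 x) (hℓ0 y) hPe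
    -- `x - y` is a multiple of `e`
    have hdiff : y - x = (ℓ y - ℓ x) • e := by
      have := sub_eq_sub_iff_add_eq_add.1 hxy
      rw [sub_smul, sub_eq_sub_iff_add_eq_add, ← this, add_comm]
    rcases hE with hE | hE | hE
    · have hb1 := h.hE _ hE
      have hb2 := h.hE _ (ES_symm _ hE)
      rw [map_sub] at hb1
      rw [map_neg, map_sub] at hb2
      have h3 : ℓ y - ℓ x = -1 ∨ ℓ y - ℓ x = 0 ∨ ℓ y - ℓ x = 1 := by omega
      rcases h3 with h3 | h3 | h3
      · rw [hdiff, h3, neg_one_zsmul] at hE
        apply heS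
        have := ES_symm _ hE
        rwa [neg_neg] at this
      · rw [hdiff, h3, zero_smul] at hE
        exact hE.1 rfl
      · rw [hdiff, h3, one_zsmul] at hE
        exact heS hE
    · have hb1 := h.hE _ hE
      rw [map_add, map_sub] at hb1
      omega
    · have hb1 := h.hE _ (ES_symm _ hE)
      rw [map_neg, map_sub, map_sub] at hb1
      omega

/-- **Complete layers.** If all nonzero elements of height zero and all elements of height one are
edge differences, then two layers and the rest of the ring are a clique minor. -/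
theorem minor_layers (e1 : G) (he1 : ℓ e1 = 1)
    (h0 : ∀ x, ℓ x = 0 → x ≠ 0 → x ∈ ES S) (h1 : ∀ x, ℓ x = 1 → x ∈ ES S) {m : ℕ}
    (τ : Fin m → G) (hτ : ∀ i, ℓ (τ i) = 0) (hτi : Function.Injective τ) (hz : 4 ≤ ℓ z) :
    ∃ P : Option (Fin m × Bool) → G → Prop, NM ℓ (ES S) z P := by
  let v : Fin m × Bool → G := fun c => τ c.1 + (if c.2 then e1 else 0)
  have hv : ∀ c, ℓ (v c) = if c.2 then 1 else 0 := by
    intro c
    simp only [v]
    rw [map_add, hτ, zero_add]
    split_ifs
    · exact he1
    · exact map_zero _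
  have hv' : ∀ c, 0 ≤ ℓ (v c) ∧ ℓ (v c) ≤ 1 := by
    intro c
    rw [hv]
    split_ifs <;> omega
  have hvi : Function.Injective v := by
    rintro ⟨i, b⟩ ⟨j, b'⟩ hij
    have h2 := congrArg ℓ hij
    rw [hv, hv] at h2
    simp only at h2
    have hb : b = b' := by
      cases b <;> cases b' <;> simp at h2 ⊢
    subst hb
    have h3 : τ i = τ j := by
      simp only [v] at hij
      exact add_right_cancel hij
    rw [hτi h3]
  let P : Option (Fin m × Bool) → G → Prop := fun o x =>
    match o with
    | none => 2 ≤ ℓ x ∧ ℓ x < ℓ z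
    | some c => x = v c
  have hsub : ∀ x y, ℓ y - ℓ x = 0 → x ≠ y → y - x ∈ ES S := by
    intro x y hxy hne
    exact h0 _ (by rw [map_sub]; exact hxy) (sub_ne_zero.2 hne.symm)
  have hsub1 : ∀ x y, ℓ y - ℓ x = 1 → y - x ∈ ES S := by
    intro x y hxy
    exact h1 _ (by rw [map_sub]; exact hxy)
  have hAs : ∀ {a b : G}, A ℓ (ES S) z a b → A ℓ (ES S) z b a := by
    rintro a b ⟨h1, h2, h3, h4⟩
    refine ⟨h2, h1, h3.symm, ?_⟩
    rcases h4 with h4 | h4 | h4
    · left
      have := ES_symm _ h4
      rwa [neg_sub] at this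
    · right; right
      have := ES_symm _ h4
      rwa [show -(b - a + z) = a - b - z by abel] at this
    · right; left
      have := ES_symm _ h4
      rwa [show -(b - a - z) = a - b + z by abel] at this
  refine ⟨P, ?_, ?_, ?_, ?_, ?_⟩
  · rintro (_ | c) x hx
    · exact ⟨by have := hx.1; omega, hx.2⟩
    · have h3 : x = v c := hx
      have := hv' c
      rw [h3]; omega
  · rintro (_ | c)
    · refine ⟨(2 : ℤ) • e1, ?_, ?_⟩
      · rw [map_zsmul, he1]; simp
      · rw [map_zsmul, he1]; simp only [smul_eq_mul, mul_one]; omega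
    · exact ⟨v c, rfl⟩
  · rintro (_ | c) x y hx hy
    · have key : ∀ (k : ℕ) (x : G), ℓ x = 2 + k → ℓ x < ℓ z →
          RP ℓ (ES S) z (P none) ((2 : ℤ) • e1) x := by
        have h2e : ℓ ((2 : ℤ) • e1) = 2 := by rw [map_zsmul, he1]; simp
        intro k
        induction k with
        | zero =>
          intro x hx hxz
          by_cases hxe : (2 : ℤ) • e1 = x
          · rw [hxe]; exact ReflTransGen.refl
          · refine RP.single ⟨by omega, by omega⟩ ⟨by omega, hxz⟩
              ⟨⟨by omega, by omega⟩, ⟨by omega, hxz⟩, hxe, Or.inl (hsub _ _ ?_ hxe)⟩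
            rw [h2e, hx]; simp
        | succ k ih =>
          intro x hx hxz
          push_cast at hx
          have hx' : ℓ (x - e1) = 2 + k := by rw [map_sub, he1, hx]; ring
          refine (ih (x - e1) hx' (by omega)).trans (RP.single ⟨by omega, by omega⟩
            ⟨by omega, hxz⟩ ⟨⟨by omega, by omega⟩, ⟨by omega, hxz⟩, ?_,
              Or.inl (hsub1 _ _ (by omega))⟩)
          intro h3
          have := congrArg ℓ h3
          omega
      have hRPs : ∀ {a b : G}, RP ℓ (ES S) z (P none) a b → RP ℓ (ES S) z (P none) b a := by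
        intro a b hab
        unfold RP at *
        induction hab with
        | refl => exact ReflTransGen.refl
        | tail _ h2 ih => exact ReflTransGen.head ⟨h2.2.1, h2.1, hAs h2.2.2⟩ ih
      have k1 := key (ℓ x - 2).toNat x (by have := hx.1; omega) hx.2
      have k2 := key (ℓ y - 2).toNat y (by have := hy.1; omega) hy.2
      exact (hRPs k1).trans k2
    · have h3 : x = v c := hx
      have h4 : y = v c := hy
      rw [h3, h4]
      exact ReflTransGen.refl
  · rintro (_ | c) (_ | c') hne x hx hy
    · exact hne rfl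
    · have h4 : x = v c' := hy
      have := hv' c'
      have := hx.1
      rw [h4] at this
      omega
    · have h4 : x = v c := hx
      have := hv' c
      have := hy.1
      rw [h4] at this
      omega
    · have h3 : x = v c := hx
      have h4 : x = v c' := hy
      exact hne (by rw [hvi (h3.symm.trans h4)])
  · have key : ∀ c : Fin m × Bool, ∃ x y, P (some c) x ∧ P none y ∧ A ℓ (ES S) z x y := by
      rintro ⟨i, b⟩
      have hb := hv (i, b)
      cases b
      · -- the layer before
        simp only [Bool.false_eq_true, if_false] at hb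
        have h5 : ℓ (v (i, false) - e1 + z) = ℓ z - 1 := by
          rw [map_add, map_sub, hb, he1]; ring
        refine ⟨v (i, false), v (i, false) - e1 + z, rfl, ⟨by omega, by omega⟩,
          ⟨by omega, by omega⟩, ⟨by omega, by omega⟩, ?_, Or.inr (Or.inr ?_)⟩
        · intro h3
          have := congrArg ℓ h3
          omega
        · rw [show v (i, false) - e1 + z - v (i, false) - z = -e1 by abel]
          exact ES_symm _ (h1 e1 he1)
      · simp only [if_true] at hb
        have h5 : ℓ (v (i, true) + e1) = 2 := by rw [map_add, hb, he1]; ring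
        refine ⟨v (i, true), v (i, true) + e1, rfl, ⟨by omega, by omega⟩,
          ⟨by omega, by omega⟩, ⟨by omega, by omega⟩, ?_, Or.inl ?_⟩
        · intro h3
          have := congrArg ℓ h3
          omega
        · rw [add_sub_cancel_left]; exact h1 e1 he1
    rintro (_ | c) (_ | c') hne
    · exact absurd rfl hne
    · obtain ⟨x, y, h3, h4, h5⟩ := key c'
      exact ⟨y, x, h4, h3, hAs h5⟩
    · exact key c
    · have hcc : v c ≠ v c' := fun h3 => hne (by rw [hvi h3])
      have e1' := hv' c
      have e2' := hv' c'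
      have h3 : ℓ (v c') - ℓ (v c) = 0 ∨ ℓ (v c') - ℓ (v c) = 1 ∨ ℓ (v c) - ℓ (v c') = 1 := by
        omega
      have hA : A ℓ (ES S) z (v c) (v c') := by
        refine ⟨⟨by omega, by omega⟩, ⟨by omega, by omega⟩, hcc, Or.inl ?_⟩
        rcases h3 with h3 | h3 | h3
        · exact hsub _ _ h3 hcc
        · exact hsub1 _ _ h3
        · have := ES_symm _ (hsub1 _ _ h3)
          rwa [neg_sub] at this
      exact ⟨v c, v c', rfl, rfl, hA⟩

end Pool.Agent.H55.AC
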