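import Pool.Agent.H55.AC.Rank2
import Pool.Agent.H55.AC.Lattice

/-!
# The planar case: quotients of the triangular lattice
-/

namespace Pool.Agent.H55.AC

open Relation Pool.Agent.H55.SC

variable {G : Type} [AddCommGroup G] {S : Set G}

/-- grid adjacency on `Fin 9` -/
def gadj (x y : Fin 9) : Bool :=
  (x.val / 3 == y.val / 3 && (x.val % 3 == y.val % 3 + 1 || y.val % 3 == x.val % 3 + 1)) ||
  (x.val % 3 == y.val % 3 && (x.val / 3 == y.val / 3 + 1 || y.val / 3 == x.val / 3 + 1))

/-- the branch set of a vertex of the grid -/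
def glab (x : Fin 9) : Fin 4 := ![1, 1, 2, 3, 0, 2, 3, 3, 3] x

lemma gconn : ∀ x y : Fin 9, glab x = glab y → ∃ u v : Fin 9, glab u = glab x ∧ glab v = glab x ∧
    (x = u ∨ gadj x u = true) ∧ (u = v ∨ gadj u v = true) ∧ (v = y ∨ gadj v y = true) := by
  decide

lemma gadj_labels : ∀ i j : Fin 4, i ≠ j → ∃ x y : Fin 9, glab x = i ∧ glab y = j ∧
    gadj x y = true := by
  decide

lemma glab_surj : ∀ i : Fin 4, ∃ x, glab x = i := by decide

lemma gadj_spec : ∀ x y : Fin 9, gadj x y = true →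
    ((x.val / 3 = y.val / 3 ∧ (x.val % 3 = y.val % 3 + 1 ∨ y.val % 3 = x.val % 3 + 1)) ∨
    (x.val % 3 = y.val % 3 ∧ (x.val / 3 = y.val / 3 + 1 ∨ y.val / 3 = x.val / 3 + 1))) := by
  decide

/-- the `3 × 3` grid has a `K_4` minor -/
lemma grid_minor {a b : G} (ha : a ∈ ES S) (hb : b ∈ ES S) :
    CliqueMinor (gr S fun x : Fin 9 => ((x.val / 3 : ℕ) : ℤ) • a + ((x.val % 3 : ℕ) : ℤ) • b)
      4 := by
  set φ : Fin 9 → G := fun x => ((x.val / 3 : ℕ) : ℤ) • a + ((x.val % 3 : ℕ) : ℤ) • b with hφ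
  have hadj : ∀ x y : Fin 9, gadj x y = true → (gr S φ).Adj x y := by
    intro x y hxy
    show φ y - φ x ∈ ES S
    simp only [hφ]
    rcases gadj_spec x y hxy with ⟨h1, h2 | h2⟩ | ⟨h1, h2 | h2⟩
    · rw [h1, h2]
      have : (((y.val / 3 : ℕ) : ℤ) • a + ((y.val % 3 : ℕ) : ℤ) • b) -
          (((y.val / 3 : ℕ) : ℤ) • a + ((y.val % 3 + 1 : ℕ) : ℤ) • b) = -b := by
        push_cast; rw [add_smul, one_smul]; abel
      rw [this]; exact ES_symm _ hb
    · rw [h1, h2]
      have : (((y.val / 3 : ℕ) : ℤ) • a + ((x.val % 3 + 1 : ℕ) : ℤ) • b) -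
          (((y.val / 3 : ℕ) : ℤ) • a + ((x.val % 3 : ℕ) : ℤ) • b) = b := by
        push_cast; rw [add_smul, one_smul]; abel
      rw [this]; exact hb
    · rw [h1, h2]
      have : (((y.val / 3 : ℕ) : ℤ) • a + ((y.val % 3 : ℕ) : ℤ) • b) -
          (((y.val / 3 + 1 : ℕ) : ℤ) • a + ((y.val % 3 : ℕ) : ℤ) • b) = -a := by
        push_cast; rw [add_smul, one_smul]; abel
      rw [this]; exact ES_symm _ ha
    · rw [h1, h2]
      have : (((x.val / 3 + 1 : ℕ) : ℤ) • a + ((y.val % 3 : ℕ) : ℤ) • b) -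
          (((x.val / 3 : ℕ) : ℤ) • a + ((y.val % 3 : ℕ) : ℤ) • b) = a := by
        push_cast; rw [add_smul, one_smul]; abel
      rw [this]; exact ha
  refine ⟨fun i => {x | glab x = i}, ?_, ?_, ?_⟩
  · intro i
    obtain ⟨x0, hx0⟩ := glab_surj i
    apply connected_of_rtg ⟨x0, hx0⟩
    intro x hx y hy
    have hx' : glab x = i := hx
    have hy' : glab y = i := hy
    obtain ⟨u, v, hu, hv, h1, h2, h3⟩ := gconn x y (hx'.trans hy'.symm)
    have step : ∀ p q : Fin 9, glab p = i → glab q = i → (p = q ∨ gadj p q = true) →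
        ReflTransGen (fun a b => a ∈ {x | glab x = i} ∧ b ∈ {x | glab x = i} ∧
          (gr S φ).Adj a b) p q := by
      intro p q hp hq hpq
      rcases hpq with rfl | hpq
      · exact ReflTransGen.refl
      · exact ReflTransGen.single ⟨hp, hq, hadj p q hpq⟩
    exact ((step x u hx' (hu.trans hx') h1).trans (step u v (hu.trans hx') (hv.trans hx') h2)).trans
      (step v y (hv.trans hx') hy' h3)
  · intro i j hij
    rw [Set.disjoint_left]
    intro x hx hy
    exact hij (hx.symm.trans hy)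
  · intro i j hij
    obtain ⟨x, y, hx, hy, hxy⟩ := gadj_labels i j hij
    exact ⟨x, hx, y, hy, hadj x y hxy⟩

theorem good_planar (hgen : ∀ H : AddSubgroup G, (∀ x ∈ ES S, x ∈ H) → H = ⊤) {a b : G}
    (ha : a ∈ ES S) (hb : b ∈ ES S) (hab : Ind a b)
    (hES : ∀ x ∈ ES S, x = a ∨ x = -a ∨ x = b ∨ x = -b ∨ x = a + b ∨ x = -(a + b)) : Good S := by
  have hall : ∀ g : G, ∃ i j : ℤ, g = i • a + j • b := by
    intro g
    have h1 := hgen (AddSubgroup.closure {a, b}) (by
      have hca : a ∈ AddSubgroup.closure {a, b} := AddSubgroup.subset_closure (by simp)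
      have hcb : b ∈ AddSubgroup.closure {a, b} := AddSubgroup.subset_closure (by simp)
      intro x hx
      rcases hES x hx with rfl | rfl | rfl | rfl | rfl | rfl
      · exact hca
      · exact AddSubgroup.neg_mem _ hca
      · exact hcb
      · exact AddSubgroup.neg_mem _ hcb
      · exact AddSubgroup.add_mem _ hca hcb
      · exact AddSubgroup.neg_mem _ (AddSubgroup.add_mem _ hca hcb))
    have h2 : g ∈ AddSubgroup.closure {a, b} := by rw [h1]; trivial
    rw [AddSubgroup.mem_closure_pair] at h2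
    obtain ⟨m, n, h3⟩ := h2
    exact ⟨m, n, h3.symm⟩
  set F : Set G := {x | x ≠ 0 ∧ ∃ i j : ℤ, (-18 ≤ i ∧ i ≤ 18) ∧ (-18 ≤ j ∧ j ≤ 18) ∧
    x = i • a + j • b} with hF
  refine ⟨F, ?_, fun h => h.1 rfl, ?_⟩
  · have h1 : ((fun c : ℤ × ℤ => c.1 • a + c.2 • b) ''
        (Set.Icc (-18) 18 ×ˢ Set.Icc (-18) 18)).Finite :=
      ((Set.finite_Icc _ _).prod (Set.finite_Icc _ _)).image _
    apply h1.subset
    rintro x ⟨_, i, j, hi, hj, rfl⟩
    exact ⟨(i, j), ⟨hi, hj⟩, rfl⟩
  · intro Γ _ _ π hsurj hπ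
    -- the minor
    have hminor : CliqueMinor (cay (π '' S)) 4 := by
      apply minor_quot (φ := fun x : Fin 9 => ((x.val / 3 : ℕ) : ℤ) • a +
        ((x.val % 3 : ℕ) : ℤ) • b) _ (grid_minor ha hb)
      · rintro x ⟨hx0, u, v, rfl⟩
        apply hπ
        refine ⟨hx0, ((u.val / 3 : ℕ) : ℤ) - ((v.val / 3 : ℕ) : ℤ),
          ((u.val % 3 : ℕ) : ℤ) - ((v.val % 3 : ℕ) : ℤ), ?_, ?_, ?_⟩
        · have := u.2; have := v.2; constructor <;> omega
        · constructor <;> omega
        · rw [sub_smul, sub_smul]; abel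
      · intro x y hxy
        simp only at hxy
        have h1 : (((x.val / 3 : ℕ) : ℤ) - ((y.val / 3 : ℕ) : ℤ)) • a +
            (((x.val % 3 : ℕ) : ℤ) - ((y.val % 3 : ℕ) : ℤ)) • b = 0 := by
          rw [sub_smul, sub_smul]
          have := sub_eq_zero.2 hxy
          rw [← this]; abel
        have h2 := hab _ _ h1
        exact Fin.ext (by omega)
    -- the colouring
    let Λ : AddSubgroup (ℤ × ℤ) :=
      (AddMonoidHom.coprod (zmultiplesHom Γ (π a)) (zmultiplesHom Γ (π b))).ker
    have hΛ : ∀ u : ℤ × ℤ, u ∈ Λ ↔ π (u.1 • a + u.2 • b) = 0 := by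
      intro u
      rw [AddMonoidHom.mem_ker]
      simp
    have hcard : 0 < Nat.card Γ := Nat.card_pos
    have hz : ∀ g : Γ, ((Nat.card Γ : ℕ) : ℤ) • g = 0 := by
      intro g
      rw [natCast_zsmul, card_nsmul_eq_zero']
    obtain ⟨M, X, Y, hM, hdvd, hX, hY, hXY⟩ := exists_char Λ (n := ((Nat.card Γ : ℕ) : ℤ))
      (by exact_mod_cast hcard)
      (by rw [hΛ]; simp only [zero_smul, add_zero, map_zsmul]; exact hz _)
      (by rw [hΛ]; simp only [zero_smul, zero_add, map_zsmul]; exact hz _)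
      (by
        intro v hv hv0
        by_contra hlt
        have h1 : v.1 ^ 2 ≤ 341 := by
          have : nm v ≤ 341 := by omega
          unfold nm at this; nlinarith [sq_nonneg v.2]
        have h2 : v.2 ^ 2 ≤ 341 := by
          have : nm v ≤ 341 := by omega
          unfold nm at this; nlinarith [sq_nonneg v.1]
        rw [hΛ] at hv
        apply hπ _ _ hv
        refine ⟨?_, v.1, v.2, ?_, ?_, rfl⟩
        · intro h0
          have := hab _ _ h0
          exact hv0 (Prod.ext this.1 this.2)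
        · constructor <;> nlinarith
        · constructor <;> nlinarith)
    have hφψ := exists_lift (AddMonoidHom.coprod (zmultiplesHom G a) (zmultiplesHom G b)) (by
      intro g
      obtain ⟨i, j, rfl⟩ := hall g
      exact ⟨(i, j), by simp⟩)
      (AddMonoidHom.coprod (zmultiplesHom (ZMod M) (X : ZMod M))
        (zmultiplesHom (ZMod M) (Y : ZMod M))) (by
      rintro ⟨i, j⟩ hij
      have h1 : i • a + j • b = 0 := by simpa using hij
      obtain ⟨h2, h3⟩ := hab i j h1
      subst h2; subst h3; simp)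
    obtain ⟨θ, hθ⟩ := hφψ
    have hθs : ∀ i j : ℤ, θ (i • a + j • b) = ((i * X + j * Y : ℤ) : ZMod M) := by
      intro i j
      have := hθ (i, j)
      simpa using this
    have e1 : θ a = (X : ZMod M) := by simpa using hθs 1 0
    have e2 : θ b = (Y : ZMod M) := by simpa using hθs 0 1
    have hcol : (cay (π '' S)).Colorable 4 := by
      apply colorable_circle' hsurj hM θ (K := 4) _ (by norm_num)
      · intro s hs
        rcases hES s hs with rfl | rfl | rfl | rfl | rfl | rfl
        · exact ⟨X, Or.inl e1, by push_cast; omega, by push_cast; omega⟩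
        · exact ⟨X, Or.inr (by rw [map_neg, e1]), by push_cast; omega, by push_cast; omega⟩
        · exact ⟨Y, Or.inl e2, by push_cast; omega, by push_cast; omega⟩
        · exact ⟨Y, Or.inr (by rw [map_neg, e2]), by push_cast; omega, by push_cast; omega⟩
        · exact ⟨X + Y, Or.inl (by rw [map_add, e1, e2]; push_cast; ring), by push_cast; omega,
            by push_cast; omega⟩
        · exact ⟨X + Y, Or.inr (by rw [map_neg, map_add, e1, e2]; push_cast; ring),
            by push_cast; omega, by push_cast; omega⟩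
      · intro x hx
        obtain ⟨i, j, rfl⟩ := hall x
        rw [hθs, ZMod.intCast_zmod_eq_zero_iff_dvd]
        exact hdvd (i, j) ((hΛ _).2 hx)
    exact Had.of_le hcol hminor le_rfl

end Pool.Agent.H55.AC
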