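import Pool.Agent.H55.AC.Layer
import Pool.Agent.H55.AC.Cycle
import Pool.Agent.H55.AC.Four

/-!
# Groups of rank one
-/

namespace Pool.Agent.H55.AC

open Relation Pool.Agent.H55.SC

variable {G : Type} [AddCommGroup G]

/-- Hadwiger's conjecture for a graph -/
def Had {V : Type} (H : SimpleGraph V) : Prop :=
  ∀ k, ¬ H.Colorable k → CliqueMinor H (k + 1)

lemma Had.of_le {V : Type} {H : SimpleGraph V} {c m : ℕ} (hc : H.Colorable c)
    (hm : CliqueMinor H m) (hcm : c ≤ m) : Had H := by
  intro k hk
  apply hm.mono
  by_contra hlt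
  exact hk (hc.mono (by omega))

/-- the finite quotients of `G` that do not kill certain finitely many elements satisfy Hadwiger's
conjecture -/
def Good (S : Set G) : Prop :=
  ∃ F : Set G, F.Finite ∧ (0 : G) ∉ F ∧ ∀ (Γ : Type) [AddCommGroup Γ] [Finite Γ] (π : G →+ Γ),
    Function.Surjective π → (∀ x ∈ F, π x ≠ 0) → Had (cay (π '' S))

/-- long rings satisfy Hadwiger's conjecture -/
def RingOK (ℓ : G →+ ℤ) (S : Set G) : Prop :=
  ∃ R : ℤ, ∀ (Γ : Type) [AddCommGroup Γ] (π : G →+ Γ) (z : G), Function.Surjective π →
    (∀ x, π x = 0 ↔ ∃ k : ℤ, x = k • z) → R ≤ ℓ z → Had (cay (π '' S))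

variable {ℓ : G →+ ℤ} {S : Set G}

lemma finite_slab (hker : {x | ℓ x = 0}.Finite) {e1 : G} (he1 : ℓ e1 = 1) (a b : ℤ) :
    {x | a ≤ ℓ x ∧ ℓ x ≤ b}.Finite := by
  have h1 : (⋃ j ∈ Set.Icc a b, (fun x => j • e1 + x) '' {x | ℓ x = 0}).Finite :=
    (Set.finite_Icc a b).biUnion fun j _ => hker.image _
  apply h1.subset
  intro x hx
  simp only [Set.mem_iUnion]
  refine ⟨ℓ x, hx, x - ℓ x • e1, ?_, by simp⟩
  show ℓ (x - ℓ x • e1) = 0
  rw [map_sub, map_zsmul, he1]; simp

lemma good_of_ringOK (hℓ : Function.Surjective ℓ) (hker : {x | ℓ x = 0}.Finite)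
    (h : RingOK ℓ S) : Good S := by
  obtain ⟨R, hR⟩ := h
  obtain ⟨e1, he1⟩ := hℓ 1
  set R' := max R 0 with hR'
  refine ⟨{x | (-R' ≤ ℓ x ∧ ℓ x ≤ R') ∧ x ≠ 0}, ?_, ?_, ?_⟩
  · exact (finite_slab hker he1 (-R') R').subset fun x hx => hx.1
  · rintro ⟨_, h0⟩; exact h0 rfl
  · intro Γ _ _ π hsurj hF
    have : Infinite G := Infinite.of_surjective ℓ hℓ
    have hbig : ∀ x, π x = 0 → x ≠ 0 → ¬ (-R' ≤ ℓ x ∧ ℓ x ≤ R') := by
      intro x hx hx0 h1
      exact hF x ⟨h1, hx0⟩ hx
    have hR'0 : 0 ≤ R' := le_max_right _ _
    -- an element of the kernel of positive height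
    have hex : ∃ n : ℕ, ∃ x, π x = 0 ∧ 0 < ℓ x ∧ ℓ x = n := by
      obtain ⟨x, y, hne, hxy⟩ := Finite.exists_ne_map_eq_of_infinite π
      have h1 : π (x - y) = 0 := by rw [map_sub, hxy, sub_self]
      have h2 := hbig _ h1 (sub_ne_zero.2 hne)
      rcases lt_or_ge 0 (ℓ (x - y)) with h3 | h3
      · exact ⟨(ℓ (x - y)).toNat, x - y, h1, h3, (Int.toNat_of_nonneg h3.le).symm⟩
      · have h4 : 0 < ℓ (y - x) := by
          have h5 : ℓ (y - x) = -ℓ (x - y) := by rw [← map_neg, neg_sub]
          omega
        exact ⟨(ℓ (y - x)).toNat, y - x, by rw [map_sub, hxy, sub_self], h4,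
          (Int.toNat_of_nonneg h4.le).symm⟩
    classical
    obtain ⟨z, hz1, hz2, hz3⟩ := Nat.find_spec hex
    have hmin : ∀ x, π x = 0 → 0 < ℓ x → ℓ z ≤ ℓ x := by
      intro x hx hx0
      have := Nat.find_min' hex ⟨x, hx, hx0, (Int.toNat_of_nonneg hx0.le).symm⟩
      omega
    apply hR Γ π z hsurj
    · intro x
      constructor
      · intro hx
        refine ⟨ℓ x / ℓ z, ?_⟩
        set y := x - (ℓ x / ℓ z) • z with hy
        have hy0 : π y = 0 := by rw [hy, map_sub, map_zsmul, hz1, hx, smul_zero, sub_self]
        have hyℓ : ℓ y = ℓ x % ℓ z := by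
          have h1 := Int.emod_add_mul_ediv (ℓ x) (ℓ z)
          rw [hy, map_sub, map_zsmul, smul_eq_mul]
          linarith
        have h2 := Int.emod_nonneg (ℓ x) hz2.ne'
        have h3 := Int.emod_lt_of_pos (ℓ x) hz2
        have hy1 : y = 0 := by
          by_contra hne
          by_cases h4 : 0 < ℓ y
          · have := hmin y hy0 h4
            omega
          · exact hbig y hy0 hne ⟨by omega, by omega⟩
        rw [hy, sub_eq_zero] at hy1
        exact hy1
      · rintro ⟨k, rfl⟩
        rw [map_zsmul, hz1, smul_zero]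
    · by_contra hlt
      have h1 : ℓ z ≤ R' := le_trans (by omega) (le_max_left _ _)
      have h2 : z ≠ 0 := by
        intro h0; rw [h0, map_zero] at hz2; omega
      exact hbig z hz1 h2 ⟨by omega, h1⟩

/-- layer colouring with a set of representatives of the classes -/
lemma colorable_reps {Γ : Type} [AddCommGroup Γ] {π : G →+ Γ} {z : G} {d : ℕ}
    (h : Qt ℓ (ES S) π z d) (e1 : G) (he1 : ℓ e1 = 1) (T : Finset G) (ρ : G → G)
    (hρ : ∀ x, ℓ x = 0 → ρ x ∈ T)
    (hcl : ∀ x y, ℓ x = 0 → ℓ y = 0 → ρ x = ρ y → x ≠ y → x - y ∉ ES S)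
    (hn : (((d + 1) * T.card * ((d + 1) * T.card) : ℕ) : ℤ) ≤ ℓ z) :
    (cay (π '' S)).Colorable ((d + 1) * T.card + 1) := by
  classical
  have hT : 1 ≤ T.card := Finset.card_pos.2 ⟨_, hρ 0 (map_zero _)⟩
  apply colorable_layers h e1 he1 hT
    (fun x => if hx : ρ x ∈ T then (T.equivFin ⟨ρ x, hx⟩).val else 0)
  · intro x hx
    simp only [hρ x hx, dif_pos]
    exact Fin.is_lt _
  · intro x y hx hy hxy hne
    simp only [hρ x hx, hρ y hy, dif_pos] at hxy
    have h1 := T.equivFin.injective (Fin.ext hxy)
    exact hcl x y hx hy (congrArg Subtype.val h1) hne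
  · exact hn

theorem ringOK_of_rank_one (hS : S.Finite) (hgen : AddSubgroup.closure S = ⊤)
    (hℓ : Function.Surjective ℓ) (hker : {x | ℓ x = 0}.Finite) : RingOK ℓ S := by
  classical
  obtain ⟨e1, he1⟩ := hℓ 1
  -- generation by edge differences
  have hgenE : ∀ H : AddSubgroup G, (∀ x ∈ ES S, x ∈ H) → H = ⊤ := by
    intro H hH
    rw [eq_top_iff, ← hgen, AddSubgroup.closure_le]
    intro x hx
    by_cases h0 : x = 0
    · rw [h0]; exact H.zero_mem
    · exact hH x ⟨h0, Or.inl hx⟩
  -- the highest edge difference
  have hESfin : (ES S).Finite := by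
    apply (hS.union (hS.image fun x => -x)).subset
    rintro x ⟨_, hx | hx⟩
    · exact Or.inl hx
    · exact Or.inr ⟨-x, hx, neg_neg x⟩
  obtain ⟨s, hsE, hsℓ⟩ : ∃ s ∈ ES S, 0 < ℓ s := by
    by_contra hno
    have h1 : ∀ x ∈ ES S, x ∈ ℓ.ker := by
      intro x hx
      rw [AddMonoidHom.mem_ker]
      have h2 : ¬ 0 < ℓ x := fun h => hno ⟨x, hx, h⟩
      have h3 : ¬ 0 < ℓ (-x) := fun h => hno ⟨-x, ES_symm x hx, h⟩
      rw [map_neg] at h3
      omega
    have h2 := hgenE _ h1
    have h3 : e1 ∈ ℓ.ker := by rw [h2]; trivial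
    rw [AddMonoidHom.mem_ker, he1] at h3
    omega
  obtain ⟨s0, hs0E, hs0max⟩ := Set.exists_max_image (ES S) ℓ hESfin ⟨s, hsE⟩
  have hs0ℓ : 0 < ℓ s0 := lt_of_lt_of_le hsℓ (hs0max s hsE)
  obtain ⟨d, hd⟩ : ∃ d : ℕ, ℓ s0 = d := ⟨(ℓ s0).toNat, (Int.toNat_of_nonneg hs0ℓ.le).symm⟩
  have hd0 : 0 < d := by omega
  -- tracks
  let Q := G ⧸ AddSubgroup.zmultiples s0
  let tr : G →+ Q := QuotientAddGroup.mk' (AddSubgroup.zmultiples s0)
  have htr : ∀ x, tr x = 0 ↔ ∃ k : ℤ, x = k • s0 := by
    intro x
    show ((x : G) : Q) = 0 ↔ _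
    rw [QuotientAddGroup.eq_zero_iff, AddSubgroup.mem_zmultiples_iff]
    constructor
    · rintro ⟨k, hk⟩; exact ⟨k, hk.symm⟩
    · rintro ⟨k, hk⟩; exact ⟨k, hk.symm⟩
  have hRg : Rg ℓ (ES S) tr s0 :=
    ⟨ES_symm, ES_ne0, hs0E, hs0ℓ, hs0max, htr, QuotientAddGroup.mk'_surjective _⟩
  have htrs0 : tr s0 = 0 := (htr _).2 ⟨1, by simp⟩
  -- elements of height `0`
  set T : Finset G := hker.toFinset with hT
  have hTm : ∀ x, x ∈ T ↔ ℓ x = 0 := by
    intro x; rw [hT, Set.Finite.mem_toFinset]; rfl
  have hTpos : 0 < T.card := Finset.card_pos.2 ⟨0, (hTm 0).2 (map_zero _)⟩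
  let f : Fin d × T → Q := fun c => tr ((c.1.val : ℤ) • e1 + c.2.1)
  have hf : Function.Bijective f := by
    constructor
    · rintro ⟨j, t⟩ ⟨j', t'⟩ heq
      have h1 : tr (((j.val : ℤ) • e1 + t.1) - ((j'.val : ℤ) • e1 + t'.1)) = 0 := by
        rw [map_sub]; exact sub_eq_zero.2 heq
      obtain ⟨k, hk⟩ := (htr _).1 h1
      have ht := (hTm _).1 t.2
      have ht' := (hTm _).1 t'.2
      have h2 : (j.val : ℤ) - j'.val = k * d := by
        have := congrArg ℓ hk
        rw [map_sub, map_add, map_add, map_zsmul, map_zsmul, map_zsmul, he1, ht, ht', hd] at this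
        simpa using this
      have hj := j.2
      have hj' := j'.2
      have hk0 : k = 0 := by
        rcases lt_trichotomy k 0 with h3 | h3 | h3
        · have : k * d ≤ (-1) * d := mul_le_mul_of_nonneg_right (by omega) (by omega)
          omega
        · exact h3
        · have : 1 * (d : ℤ) ≤ k * d := mul_le_mul_of_nonneg_right (by omega) (by omega)
          omega
      rw [hk0, zero_mul] at h2
      rw [hk0, zero_smul] at hk
      have h3 : j = j' := Fin.ext (by omega)
      subst h3
      have h4 : t.1 = t'.1 := by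
        have := sub_eq_zero.1 hk
        exact add_left_cancel this
      rw [Subtype.ext h4]
    · intro r
      obtain ⟨g, rfl⟩ := hRg.surj r
      have h1 := Int.emod_add_mul_ediv (ℓ g) d
      have h2 := Int.emod_nonneg (ℓ g) (show (d : ℤ) ≠ 0 by omega)
      have h3 := Int.emod_lt_of_pos (ℓ g) (show (0 : ℤ) < d by omega)
      set y := g - (ℓ g / d) • s0 with hy
      have hyℓ : ℓ y = ℓ g % d := by
        rw [hy, map_sub, map_zsmul, smul_eq_mul, hd]; linarith
      have hytr : tr y = tr g := by
        rw [hy, map_sub, map_zsmul, htrs0, smul_zero, sub_zero]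
      refine ⟨(⟨(ℓ y).toNat, by omega⟩, ⟨y - ℓ y • e1, (hTm _).2 ?_⟩), ?_⟩
      · rw [map_sub, map_zsmul, he1]; simp
      · show tr (((ℓ y).toNat : ℤ) • e1 + (y - ℓ y • e1)) = tr g
        rw [Int.toNat_of_nonneg (by omega), add_sub_cancel, hytr]
  let : Fintype Q := Fintype.ofBijective f hf
  have hcard : Fintype.card Q = d * T.card := by
    rw [← Fintype.card_of_bijective hf, Fintype.card_prod, Fintype.card_fin, Fintype.card_coe]
  set q := Fintype.card Q with hq
  -- differences of adjacent tracks
  set BB : Finset Q := Finset.univ.filter fun x => ∃ s ∈ ES S, tr s = x with hBB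
  have hBBm : ∀ x, x ∈ BB ↔ ∃ s ∈ ES S, tr s = x := by intro x; simp [hBB]
  have hB : Gen BB := hRg.gen hBBm hgenE
  -- quotient data
  have hQt : ∀ {Γ : Type} [AddCommGroup Γ] {π : G →+ Γ} {z : G}, Function.Surjective π →
      (∀ x, π x = 0 ↔ ∃ k : ℤ, x = k • z) → ℓ s0 < ℓ z → Qt ℓ (ES S) π z d := by
    intro Γ _ π z h1 h2 h3
    exact ⟨h1, h2, fun x hx => by rw [← hd]; exact hs0max x hx, by rw [← hd]; exact hs0ℓ,
      by rw [← hd]; exact h3⟩
  set W : ℤ := (((d + 1) * T.card * ((d + 1) * T.card) : ℕ) : ℤ) with hW
  have hWd : ℓ s0 < W := by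
    rw [hW, hd]
    have h1 : d + 1 ≤ (d + 1) * T.card := Nat.le_mul_of_pos_right _ hTpos
    have h2 : (d + 1) * 1 ≤ (d + 1) * T.card * ((d + 1) * T.card) :=
      Nat.mul_le_mul h1 (by omega)
    exact_mod_cast (by omega : d < (d + 1) * T.card * ((d + 1) * T.card))
  -- the general layer colouring
  have hcolA : ∀ {Γ : Type} [AddCommGroup Γ] {π : G →+ Γ} {z : G}, Function.Surjective π →
      (∀ x, π x = 0 ↔ ∃ k : ℤ, x = k • z) → W ≤ ℓ z →
      (cay (π '' S)).Colorable ((d + 1) * T.card + 1) := by
    intro Γ _ π z h1 h2 h3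
    exact colorable_reps (hQt h1 h2 (by omega)) e1 he1 T id (fun x hx => (hTm x).2 hx)
      (fun x y _ _ hxy hne => absurd hxy hne) h3
  have hWmono : ∀ r, r ≤ T.card → (((d + 1) * r * ((d + 1) * r) : ℕ) : ℤ) ≤ W := by
    intro r hr
    rw [hW]
    have h1 : (d + 1) * r ≤ (d + 1) * T.card := Nat.mul_le_mul_left _ hr
    exact_mod_cast Nat.mul_le_mul h1 h1
  -- one pair of classes
  have hcolB : ∀ {Γ : Type} [AddCommGroup Γ] {π : G →+ Γ} {z : G}, Function.Surjective π →
      (∀ x, π x = 0 ↔ ∃ k : ℤ, x = k • z) → W ≤ ℓ z → ∀ δ, ℓ δ = 0 → δ ≠ 0 → δ ∉ ES S →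
      (cay (π '' S)).Colorable ((d + 1) * (T.card - 1) + 1) := by
    intro Γ _ π z h1 h2 h3 δ hδ hδ0 hδE
    have hδE' : -δ ∉ ES S := fun h => hδE (by have := ES_symm _ h; rwa [neg_neg] at this)
    have hc : (T.erase δ).card = T.card - 1 := Finset.card_erase_of_mem ((hTm δ).2 hδ)
    rw [← hc]
    refine colorable_reps (hQt h1 h2 (by omega)) e1 he1 (T.erase δ)
      (fun x => if x = δ then 0 else x) ?_ ?_ ?_
    · intro x hx
      by_cases hxδ : x = δ
      · simp only [hxδ, if_true]
        exact Finset.mem_erase.2 ⟨hδ0.symm, (hTm 0).2 (map_zero _)⟩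
      · simp only [hxδ, if_false]
        exact Finset.mem_erase.2 ⟨hxδ, (hTm x).2 hx⟩
    · intro x y _ _ hxy hne
      by_cases hxδ : x = δ <;> by_cases hyδ : y = δ <;> simp only [hxδ, hyδ, if_true, if_false] at hxy
      · exact absurd (hxδ.trans hyδ.symm) hne
      · rw [hxδ, ← hxy, sub_zero]; exact hδE
      · rw [hyδ, hxy, zero_sub]; exact hδE'
      · exact absurd hxy hne
    · rw [hc]; exact le_trans (hWmono _ (by omega)) h3
  by_cases hall : ∀ x : Q, x ∈ BB
  · -- all tracks are adjacent
    obtain ⟨N, hN⟩ := minor_full hRg (fun x => (hBBm x).1 (hall x)) hq.symm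
    refine ⟨max (max N W) 4, ?_⟩
    intro Γ _ π z h1 h2 h3
    have hzN : N ≤ ℓ z := le_trans (le_trans (le_max_left _ _) (le_max_left _ _)) h3
    have hzW : W ≤ ℓ z := le_trans (le_trans (le_max_right _ _) (le_max_left _ _)) h3
    have hz4 : 4 ≤ ℓ z := le_trans (le_max_right _ _) h3
    have hQ := hQt h1 h2 (by omega)
    obtain ⟨P, hP⟩ := hN z hzN
    have hminor : CliqueMinor (cay (π '' S)) (2 * q) := by
      apply hP.minor hQ
      rw [Fintype.card_prod, Fintype.card_bool]
      have : Fintype.card {i : Fin (q + 1) // i ≠ 0} = q := by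
        rw [Fintype.card_subtype_compl, Fintype.card_fin, Fintype.card_subtype_eq]; omega
      rw [this]; omega
    by_cases hd2 : 2 ≤ d
    · apply Had.of_le (hcolA h1 h2 hzW) hminor
      rw [hcard]
      have : 2 * T.card ≤ d * T.card := Nat.mul_le_mul_right _ hd2
      have e1 : (d + 1) * T.card = d * T.card + T.card := by ring
      omega
    · have hd1 : d = 1 := by omega
      have hqT : q = T.card := by rw [hcard, hd1, one_mul]
      by_cases hmiss : ∃ e, ℓ e = 1 ∧ e ∉ ES S
      · obtain ⟨e, he, heE⟩ := hmiss
        have hQ1 : Qt ℓ (ES S) π z 1 := by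
          have := hQ; rw [hd1] at this; exact_mod_cast this
        have hc : (cay (π '' S)).Colorable (2 * T.card) := by
          apply colorable_copy hQ1 e he heE
            (fun x => if hx : x ∈ T then (T.equivFin ⟨x, hx⟩).val else 0)
          · intro x hx
            simp only [(hTm x).2 hx, dif_pos]
            exact Fin.is_lt _
          · intro x y hx hy hxy
            simp only [(hTm x).2 hx, (hTm y).2 hy, dif_pos] at hxy
            exact congrArg Subtype.val (T.equivFin.injective (Fin.ext hxy))
          · omega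
        exact Had.of_le hc hminor (by omega)
      · have hone : ∀ x, ℓ x = 1 → x ∈ ES S := by
          intro x hx
          by_contra hxE
          exact hmiss ⟨x, hx, hxE⟩
        by_cases hzero : ∀ x, ℓ x = 0 → x ≠ 0 → x ∈ ES S
        · -- complete layers
          obtain ⟨P', hP'⟩ := minor_layers (z := z) e1 he1 hzero hone
            (fun i : Fin T.card => (T.equivFin.symm i).1)
            (fun i => (hTm _).1 (T.equivFin.symm i).2)
            (fun i j hij => T.equivFin.symm.injective (Subtype.ext hij)) hz4
          have hminor' : CliqueMinor (cay (π '' S)) (2 * T.card + 1) := by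
            apply hP'.minor hQ
            rw [Fintype.card_option, Fintype.card_prod, Fintype.card_bool, Fintype.card_fin]
            omega
          apply Had.of_le (hcolA h1 h2 hzW) hminor'
          rw [hd1]
        · have : ∃ δ, ℓ δ = 0 ∧ δ ≠ 0 ∧ δ ∉ ES S := by
            by_contra hno
            apply hzero
            intro x hx hx0
            by_contra hxE
            exact hno ⟨x, hx, hx0, hxE⟩
          obtain ⟨δ, hδ, hδ0, hδE⟩ := this
          apply Had.of_le (hcolB h1 h2 hzW δ hδ hδ0 hδE) hminor
          rw [hd1]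
          omega
  · by_cases h4 : 4 ≤ BB.card
    · -- the track graph is 3-connected
      have hq5 : 5 ≤ q := by
        obtain ⟨x, hx⟩ := not_forall.1 hall
        have : BB.card < (Finset.univ : Finset Q).card := by
          apply Finset.card_lt_card
          rw [Finset.ssubset_iff_of_subset (Finset.subset_univ _)]
          exact ⟨x, Finset.mem_univ _, hx⟩
        rw [Finset.card_univ] at this
        omega
      obtain ⟨N, hN⟩ := minor_slide hRg hBBm hB h4 (m := q - 1) (by omega)
      refine ⟨max N W, ?_⟩
      intro Γ _ π z h1 h2 h3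
      have hzN : N ≤ ℓ z := le_trans (le_max_left _ _) h3
      have hzW : W ≤ ℓ z := le_trans (le_max_right _ _) h3
      have hQ := hQt h1 h2 (by omega)
      obtain ⟨P, hP⟩ := hN z hzN
      have hminor : CliqueMinor (cay (π '' S)) (2 * q - 2) := by
        apply hP.minor hQ
        rw [Fintype.card_prod, Fintype.card_bool]
        have : Fintype.card {i : Fin (q - 1 + 1) // i ≠ 0} = q - 1 := by
          rw [Fintype.card_subtype_compl, Fintype.card_fin, Fintype.card_subtype_eq]; omega
        rw [this]; omega
      by_cases hd2 : 2 ≤ d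
      · apply Had.of_le (hcolA h1 h2 hzW) hminor
        have e1 : (d + 1) * T.card = d * T.card + T.card := by ring
        rw [e1, ← hcard]
        by_cases hA : T.card ≤ 2
        · omega
        · have : 2 * T.card ≤ d * T.card := Nat.mul_le_mul_right _ hd2
          rw [← hcard] at this
          omega
      · have hd1 : d = 1 := by omega
        have hqT : q = T.card := by rw [hcard, hd1, one_mul]
        -- a missing difference of height `0`
        obtain ⟨r, hr⟩ := not_forall.1 hall
        obtain ⟨⟨j, δ⟩, hδr⟩ := hf.2 r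
        have hj : j.val = 0 := by have := j.2; omega
        have hδr' : tr δ.1 = r := by
          have : f (j, δ) = tr ((j.val : ℤ) • e1 + δ.1) := rfl
          rw [this, hj] at hδr
          simpa using hδr
        have hδℓ : ℓ δ.1 = 0 := (hTm _).1 δ.2
        set δ' := δ.1 with hδ'
        have hδ0 : δ' ≠ 0 := by
          intro h0
          rw [h0, map_zero] at hδr'
          exact hr (hδr' ▸ hB.zero)
        have hδE : δ' ∉ ES S := fun h => hr ((hBBm r).2 ⟨δ', h, hδr'⟩)
        have hδE' : -δ' ∉ ES S := fun h => hδE (by have := ES_symm _ h; rwa [neg_neg] at this)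
        have hδT : δ' ∈ T := δ.2
        have h0T : (0 : G) ∈ T := (hTm 0).2 (map_zero _)
        -- a second pair
        obtain ⟨y, hyT, hy⟩ : ∃ y ∈ T, y ∉ ({0, δ', -δ'} : Finset G) := by
          by_contra hno
          have hsub : T ⊆ ({0, δ', -δ'} : Finset G) := by
            intro x hx
            by_contra hx'
            exact hno ⟨x, hx, hx'⟩
          have h5 := Finset.card_le_card hsub
          have h6 : ({0, δ', -δ'} : Finset G).card ≤ 3 := Finset.card_le_three
          omega
        simp only [Finset.mem_insert, Finset.mem_singleton, not_or] at hy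
        obtain ⟨hy0, hyδ, hyδ'⟩ := hy
        have hyℓ : ℓ y = 0 := (hTm y).1 hyT
        have hw0 : y + δ' ≠ 0 := fun h => hyδ' (eq_neg_of_add_eq_zero_left h)
        have hwδ : y + δ' ≠ δ' := by simpa using hy0
        have hwy : y + δ' ≠ y := by simpa using hδ0
        have hwT : y + δ' ∈ T := (hTm _).2 (by rw [map_add, hyℓ, hδℓ, add_zero])
        set T' := (T.erase δ').erase (y + δ') with hT'
        have hT'c : T'.card = T.card - 2 := by
          rw [hT', Finset.card_erase_of_mem (Finset.mem_erase.2 ⟨hwδ, hwT⟩),
            Finset.card_erase_of_mem hδT]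
          omega
        let ρ : G → G := fun x => if x = δ' then 0 else if x = y + δ' then y else x
        have hc : (cay (π '' S)).Colorable ((d + 1) * T'.card + 1) := by
          refine colorable_reps hQ e1 he1 T' ρ ?_ ?_ ?_
          · intro x hx
            by_cases hxδ : x = δ'
            · simp only [ρ, hxδ, if_true]
              exact Finset.mem_erase.2 ⟨hw0.symm, Finset.mem_erase.2 ⟨hδ0.symm, h0T⟩⟩
            · by_cases hxw : x = y + δ'
              · simp only [ρ, hxw, hwδ, if_true, if_false]
                exact Finset.mem_erase.2 ⟨hwy.symm, Finset.mem_erase.2 ⟨hyδ, hyT⟩⟩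
              · simp only [ρ, hxδ, hxw, if_false]
                exact Finset.mem_erase.2 ⟨hxw, Finset.mem_erase.2 ⟨hxδ, (hTm x).2 hx⟩⟩
          · intro a b _ _ hab hne
            by_cases haδ : a = δ'
            · by_cases hbδ : b = δ'
              · exact absurd (haδ.trans hbδ.symm) hne
              · by_cases hbw : b = y + δ'
                · exfalso
                  simp only [ρ, haδ, hbw, hwδ, if_true, if_false] at hab
                  exact hy0 hab.symm
                · simp only [ρ, haδ, hbδ, hbw, if_true, if_false] at hab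
                  rw [haδ, ← hab, sub_zero]; exact hδE
            · by_cases haw : a = y + δ'
              · by_cases hbδ : b = δ'
                · exfalso
                  simp only [ρ, haw, hbδ, hwδ, if_true, if_false] at hab
                  exact hy0 hab
                · by_cases hbw : b = y + δ'
                  · exact absurd (haw.trans hbw.symm) hne
                  · simp only [ρ, haw, hbδ, hbw, hwδ, if_true, if_false] at hab
                    rw [haw, ← hab, add_sub_cancel_left]; exact hδE
              · by_cases hbδ : b = δ'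
                · simp only [ρ, haδ, haw, hbδ, if_true, if_false] at hab
                  rw [hab, hbδ, zero_sub]; exact hδE'
                · by_cases hbw : b = y + δ'
                  · simp only [ρ, haδ, haw, hbw, hwδ, if_true, if_false] at hab
                    rw [hab, hbw, show y - (y + δ') = -δ' by abel]; exact hδE'
                  · simp only [ρ, haδ, haw, hbδ, hbw, if_false] at hab
                    exact absurd hab hne
          · rw [hT'c]; exact le_trans (hWmono _ (by omega)) hzW
        apply Had.of_le hc hminor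
        rw [hT'c, hd1, ← hqT]
        omega
    · -- the track graph is a cycle
      have hne0 : ∃ t ∈ BB, t ≠ 0 := by
        by_contra hno
        apply hall
        have h1 : ∀ x ∈ BB, x ∈ (⊥ : AddSubgroup Q) := by
          intro x hx
          rw [AddSubgroup.mem_bot]
          by_contra hx0
          exact hno ⟨x, hx, hx0⟩
        have h2 := hB.gen _ h1
        intro x
        have h3 : x ∈ (⊥ : AddSubgroup Q) := by rw [h2]; trivial
        rw [AddSubgroup.mem_bot] at h3
        rw [h3]; exact hB.zero
      by_cases hinv : ∃ t ∈ BB, t ≠ 0 ∧ t ≠ -t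
      · -- a cycle
        obtain ⟨t, htB, ht0, htn⟩ := hinv
        obtain ⟨c0, hc0, hc0t⟩ := (hBBm t).1 htB
        have hBeq : ∀ x ∈ BB, x = 0 ∨ x = t ∨ x = -t := by
          intro x hx
          by_contra hno
          have hsub : ({0, t, -t, x} : Finset Q) ⊆ BB := by
            intro y hy
            simp only [Finset.mem_insert, Finset.mem_singleton] at hy
            rcases hy with rfl | rfl | rfl | rfl
            · exact hB.zero
            · exact htB
            · exact hB.neg _ htB
            · exact hx
          have h5 := Finset.card_le_card hsub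
          have h6 : ({0, t, -t, x} : Finset Q).card = 4 := by
            push Not at hno
            rw [Finset.card_insert_of_notMem, Finset.card_insert_of_notMem,
              Finset.card_insert_of_notMem, Finset.card_singleton]
            all_goals simp only [Finset.mem_insert, Finset.mem_singleton, not_or]
            · exact fun h => hno.2.2 h.symm
            · exact ⟨htn, fun h => hno.2.1 h.symm⟩
            · exact ⟨fun h => ht0 h.symm, fun h => ht0 (neg_eq_zero.1 h.symm),
                fun h => hno.1 h.symm⟩
          omega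
        have hq4 : 4 ≤ q := by
          have h5 : ({0, t, -t} : Finset Q).card = 3 := by
            rw [Finset.card_eq_three]
            exact ⟨_, _, _, fun h => ht0 h.symm, fun h => ht0 (neg_eq_zero.1 h.symm), htn, rfl⟩
          have hsub : ({0, t, -t} : Finset Q) ⊆ BB := by
            intro y hy
            simp only [Finset.mem_insert, Finset.mem_singleton] at hy
            rcases hy with rfl | rfl | rfl
            · exact hB.zero
            · exact htB
            · exact hB.neg _ htB
          have h6 := Finset.card_le_card hsub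
          obtain ⟨x, hx⟩ := not_forall.1 hall
          have : BB.card < (Finset.univ : Finset Q).card := by
            apply Finset.card_lt_card
            rw [Finset.ssubset_iff_of_subset (Finset.subset_univ _)]
            exact ⟨x, Finset.mem_univ _, hx⟩
          rw [Finset.card_univ] at this
          omega
        have htop : AddSubgroup.zmultiples t = ⊤ := by
          apply hB.gen
          intro x hx
          rcases hBeq x hx with rfl | rfl | rfl
          · exact AddSubgroup.zero_mem _
          · exact AddSubgroup.mem_zmultiples _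
          · exact AddSubgroup.neg_mem _ (AddSubgroup.mem_zmultiples _)
        have hord : addOrderOf t = q := by
          rw [← Nat.card_zmultiples, htop, AddSubgroup.card_top, Nat.card_eq_fintype_card]
        have hmul : ∀ r : Q, ∃ k : ℕ, k < q ∧ k • tr c0 = r := by
          intro r
          have h1 : r ∈ AddSubgroup.zmultiples t := by rw [htop]; trivial
          rw [mem_zmultiples_iff_mem_range_addOrderOf, Finset.mem_image] at h1
          obtain ⟨k, hk1, hk2⟩ := h1
          rw [Finset.mem_range, hord] at hk1
          exact ⟨k, hk1, by rw [hc0t]; exact hk2⟩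
        have hinj : ∀ k l : ℕ, k < q → l < q → k • tr c0 = l • tr c0 → k = l := by
          intro k l hk hl hkl
          rw [hc0t] at hkl
          rw [← hord] at hk hl
          exact nsmul_injOn_Iio_addOrderOf hk hl hkl
        have hB' : ∀ x ∈ ES S, tr x = 0 ∨ tr x = tr c0 ∨ tr x = -tr c0 := by
          intro x hx
          rw [hc0t]
          exact hBeq _ ((hBBm _).2 ⟨x, hx, rfl⟩)
        obtain ⟨N1, hN1⟩ := colorable_cycle hRg hq4 hc0 hmul hinj hB'
        obtain ⟨N2, hN2⟩ := minor_cycle hRg (by omega) ⟨c0, hc0, rfl⟩ hmul hinj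
        refine ⟨max (max N1 N2) W, ?_⟩
        intro Γ _ π z h1 h2 h3
        have hz1 : N1 ≤ ℓ z := le_trans (le_trans (le_max_left _ _) (le_max_left _ _)) h3
        have hz2 : N2 ≤ ℓ z := le_trans (le_trans (le_max_right _ _) (le_max_left _ _)) h3
        have hzW : W ≤ ℓ z := le_trans (le_max_right _ _) h3
        have hQ := hQt h1 h2 (by omega)
        obtain ⟨P, hP⟩ := hN2 z hz2
        have hminor : CliqueMinor (cay (π '' S)) 6 := by
          apply hP.minor hQ
          decide
        exact Had.of_le (hN1 Γ π z h1 h2 hz1) hminor le_rfl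
      · -- the Klein group
        have hinv' : ∀ t ∈ BB, t + t = 0 := by
          intro t ht
          by_cases ht0 : t = 0
          · rw [ht0, add_zero]
          · by_contra hne
            apply hinv
            refine ⟨t, ht, ht0, fun h => hne ?_⟩
            conv_lhs => rw [h]
            rw [h, neg_neg]
            nth_rewrite 2 [h]
            exact neg_add_cancel t |> fun h => by simpa using h
        obtain ⟨t, htB, ht0⟩ := hne0
        have hgen2 : ∀ (x : Q), x + x = 0 → ∀ m : ℤ, m • x = 0 ∨ m • x = x := by
          intro x hx m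
          rcases Int.even_or_odd' m with ⟨k, hk | hk⟩
          · left
            rw [hk, mul_comm, mul_smul, two_zsmul, hx, smul_zero]
          · right
            rw [hk, add_smul, mul_comm, mul_smul, two_zsmul, hx, smul_zero, zero_add, one_smul]
        have hex : ∃ u ∈ BB, u ≠ 0 ∧ u ≠ t := by
          by_contra hno
          apply hall
          have h1 : ∀ x ∈ BB, x ∈ AddSubgroup.zmultiples t := by
            intro x hx
            by_cases hx0 : x = 0
            · rw [hx0]; exact AddSubgroup.zero_mem _
            · by_cases hxt : x = t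
              · rw [hxt]; exact AddSubgroup.mem_zmultiples _
              · exact absurd ⟨x, hx, hx0, hxt⟩ hno
          have h2 := hB.gen _ h1
          intro x
          have h3 : x ∈ AddSubgroup.zmultiples t := by rw [h2]; trivial
          obtain ⟨m, rfl⟩ := AddSubgroup.mem_zmultiples_iff.1 h3
          rcases hgen2 t (hinv' t htB) m with h4 | h4
          · rw [h4]; exact hB.zero
          · rw [h4]; exact htB
        obtain ⟨u, huB, hu0, hut⟩ := hex
        have ht2 := hinv' t htB
        have hu2 := hinv' u huB
        have hBeq : ∀ x ∈ BB, x = 0 ∨ x = t ∨ x = u := by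
          intro x hx
          by_contra hno
          have hsub : ({0, t, u, x} : Finset Q) ⊆ BB := by
            intro y hy
            simp only [Finset.mem_insert, Finset.mem_singleton] at hy
            rcases hy with rfl | rfl | rfl | rfl
            · exact hB.zero
            · exact htB
            · exact huB
            · exact hx
          have h5 := Finset.card_le_card hsub
          have h6 : ({0, t, u, x} : Finset Q).card = 4 := by
            push Not at hno
            rw [Finset.card_insert_of_notMem, Finset.card_insert_of_notMem,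
              Finset.card_insert_of_notMem, Finset.card_singleton]
            all_goals simp only [Finset.mem_insert, Finset.mem_singleton, not_or]
            · exact fun h => hno.2.2 h.symm
            · exact ⟨fun h => hut h.symm, fun h => hno.2.1 h.symm⟩
            · exact ⟨fun h => ht0 h.symm, fun h => hu0 h.symm, fun h => hno.1 h.symm⟩
          omega
        have hallQ : ∀ r : Q, r = 0 ∨ r = t ∨ r = u ∨ r = t + u := by
          intro r
          have h1 := hB.gen (AddSubgroup.closure {t, u}) (by
            intro x hx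
            rcases hBeq x hx with rfl | rfl | rfl
            · exact AddSubgroup.zero_mem _
            · exact AddSubgroup.subset_closure (by simp)
            · exact AddSubgroup.subset_closure (by simp))
          have h2 : r ∈ AddSubgroup.closure {t, u} := by rw [h1]; trivial
          rw [AddSubgroup.mem_closure_pair] at h2
          obtain ⟨m, n, rfl⟩ := h2
          rcases hgen2 t ht2 m with h3 | h3 <;> rcases hgen2 u hu2 n with h4 | h4 <;> rw [h3, h4]
          · left; rw [add_zero]
          · right; right; left; rw [zero_add]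
          · right; left; rw [add_zero]
          · right; right; right; rfl
        have hB' : ∀ x ∈ ES S, tr x = 0 ∨ tr x = t ∨ tr x = u := fun x hx =>
          hBeq _ ((hBBm _).2 ⟨x, hx, rfl⟩)
        obtain ⟨N, hN⟩ := minor_four hRg ht0 hu0 hut.symm ht2 hu2 ((hBBm t).1 htB)
          ((hBBm u).1 huB) hallQ
        refine ⟨max (max N (2 * ℓ s0)) W, ?_⟩
        intro Γ _ π z h1 h2 h3
        have hz1 : N ≤ ℓ z := le_trans (le_trans (le_max_left _ _) (le_max_left _ _)) h3
        have hz2 : 2 * ℓ s0 ≤ ℓ z := le_trans (le_trans (le_max_right _ _) (le_max_left _ _)) h3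
        have hzW : W ≤ ℓ z := le_trans (le_max_right _ _) h3
        have hQ := hQt h1 h2 (by omega)
        rw [← hd] at hQ
        obtain ⟨P, hP⟩ := hN z hz1
        have hminor : CliqueMinor (cay (π '' S)) 6 := by
          apply hP.minor hQ
          decide
        exact Had.of_le (colorable_four hRg hQ hz2 ht0 hu0 hut.symm ht2 hu2 hallQ hB') hminor
          le_rfl

end Pool.Agent.H55.AC
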