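import Pool.Agent.H55.AC.Rank1

/-!
# Groups of rank at least two: unbounded clique minors
-/

namespace Pool.Agent.H55.AC

open Relation Pool.Agent.H55.SC

variable {G : Type} [AddCommGroup G] {S : Set G}

/-- greedy colouring -/
lemma colorable_greedy {V : Type} [Finite V] (H : SimpleGraph V) (D : ℕ)
    (h : ∀ v, ∃ N : Finset V, N.card ≤ D ∧ ∀ w, H.Adj v w → w ∈ N) : H.Colorable (D + 1) := by
  classical
  have : Fintype V := Fintype.ofFinite V
  have key : ∀ s : Finset V, ∃ c : V → Fin (D + 1), ∀ u ∈ s, ∀ v ∈ s, H.Adj u v → c u ≠ c v := by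
    intro s
    induction s using Finset.induction_on with
    | empty => exact ⟨fun _ => 0, by simp⟩
    | insert a s ha ih =>
      obtain ⟨c, hc⟩ := ih
      obtain ⟨N, hN1, hN2⟩ := h a
      obtain ⟨x, hx⟩ : ∃ x : Fin (D + 1), x ∉ N.image c := by
        by_contra hno
        have h1 : (Finset.univ : Finset (Fin (D + 1))) ⊆ N.image c := by
          intro x _
          by_contra hx
          exact hno ⟨x, hx⟩
        have h2 := Finset.card_le_card h1
        have h3 : (N.image c).card ≤ N.card := Finset.card_image_le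
        rw [Finset.card_univ, Fintype.card_fin] at h2
        omega
      refine ⟨Function.update c a x, ?_⟩
      have hxN : ∀ w, H.Adj a w → c w ≠ x := by
        intro w hw hcw
        exact hx (Finset.mem_image.2 ⟨w, hN2 w hw, hcw⟩)
      intro u hu v hv huv
      rcases Finset.mem_insert.1 hu with rfl | hu'
      · rcases Finset.mem_insert.1 hv with rfl | hv'
        · exact absurd huv (H.irrefl)
        · rw [Function.update_self, Function.update_of_ne huv.ne']
          exact (hxN v huv).symm
      · rcases Finset.mem_insert.1 hv with rfl | hv'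
        · rw [Function.update_self, Function.update_of_ne huv.ne]
          exact hxN u huv.symm
        · have h1 : u ≠ a := fun h => ha (h ▸ hu')
          have h2 : v ≠ a := fun h => ha (h ▸ hv')
          rw [Function.update_of_ne h1, Function.update_of_ne h2]
          exact hc u hu' v hv' huv
  obtain ⟨c, hc⟩ := key Finset.univ
  exact ⟨SimpleGraph.Coloring.mk c fun {u v} huv => hc u (Finset.mem_univ _) v (Finset.mem_univ _)
    huv⟩

lemma colorable_cay {Γ : Type} [AddCommGroup Γ] [Finite Γ] {π : G →+ Γ} (hS : S.Finite) :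
    (cay (π '' S)).Colorable (2 * hS.toFinset.card + 1) := by
  classical
  apply colorable_greedy
  intro v
  refine ⟨hS.toFinset.image (fun s => v + π s) ∪ hS.toFinset.image (fun s => v - π s), ?_, ?_⟩
  · refine (Finset.card_union_le _ _).trans ?_
    have h1 : (hS.toFinset.image (fun s => v + π s)).card ≤ hS.toFinset.card :=
      Finset.card_image_le
    have h2 : (hS.toFinset.image (fun s => v - π s)).card ≤ hS.toFinset.card :=
      Finset.card_image_le
    omega
  · intro w hw
    rw [cay_adj] at hw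
    obtain ⟨_, s, ⟨_, hs | hs⟩, h1⟩ := hw
    · rw [Finset.mem_union]
      left
      exact Finset.mem_image.2 ⟨s, (Set.Finite.mem_toFinset hS).2 hs, by rw [← h1]; abel⟩
    · rw [Finset.mem_union]
      right
      refine Finset.mem_image.2 ⟨-s, (Set.Finite.mem_toFinset hS).2 hs, ?_⟩
      simp only [map_neg]
      rw [← h1]; abel

/-- the graph induced by `φ` -/
def gr {V : Type} (S : Set G) (φ : V → G) : SimpleGraph V where
  Adj u v := φ v - φ u ∈ ES S
  symm := ⟨fun u v h => by
    have := ES_symm _ h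
    rwa [neg_sub] at this⟩
  loopless := ⟨fun u h => h.1 (sub_self _)⟩

/-- finite graphs in the limit graph survive in the quotients -/
lemma minor_quot {V : Type} {φ : V → G} (hφ : Function.Injective φ) {t : ℕ}
    (h : CliqueMinor (gr S φ) t) {Γ : Type} [AddCommGroup Γ] {π : G →+ Γ}
    (hπ : ∀ x ∈ {x | x ≠ 0 ∧ ∃ u v, φ u - φ v = x}, π x ≠ 0) :
    CliqueMinor (cay (π '' S)) t := by
  have hinj : Function.Injective fun v => π (φ v) := by
    intro u v huv
    by_contra hne
    apply hπ (φ u - φ v) ⟨sub_ne_zero.2 fun h => hne (hφ h), u, v, rfl⟩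
    rw [map_sub]
    exact sub_eq_zero.2 huv
  apply h.map (fun v => π (φ v)) hinj
  intro u v huv
  rw [cay_adj]
  refine ⟨fun h0 => ?_, φ v - φ u, huv, by rw [map_sub]⟩
  have := hinj h0
  subst this
  exact (gr S φ).irrefl huv

lemma good_of_minors (hS : S.Finite)
    (h : ∀ t : ℕ, ∃ (V : Type) (_ : Finite V) (φ : V → G), Function.Injective φ ∧
      CliqueMinor (gr S φ) t) : Good S := by
  obtain ⟨V, hV, φ, hφ, hm⟩ := h (2 * hS.toFinset.card + 1)
  refine ⟨{x | x ≠ 0 ∧ ∃ u v, φ u - φ v = x}, ?_, ?_, ?_⟩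
  · apply (Set.finite_range fun c : V × V => φ c.1 - φ c.2).subset
    rintro x ⟨_, u, v, rfl⟩
    exact ⟨(u, v), rfl⟩
  · rintro ⟨h0, _⟩; exact h0 rfl
  · intro Γ _ _ π _ hF
    exact Had.of_le (colorable_cay hS) (minor_quot hφ hm hF) le_rfl

/-- independent elements -/
def Ind (a b : G) : Prop := ∀ i j : ℤ, i • a + j • b = 0 → i = 0 ∧ j = 0

lemma Ind.swap {a b : G} (h : Ind a b) : Ind b a := by
  intro i j hij
  rw [add_comm] at hij
  exact (h j i hij).symm

/-- **A third direction.** Two transversal families of lines give all clique minors. -/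
theorem good_of_three (hS : S.Finite) {a b c : G} (ha : a ∈ ES S) (hb : b ∈ ES S) (hc : c ∈ ES S)
    (hab : Ind a b) (hcab : ∀ i j : ℤ, c ≠ i • a + j • b) : Good S := by
  apply good_of_minors hS
  intro t
  let φ : Bool × Fin t × Fin t → G := fun v =>
    (if v.1 then c else 0) + ((v.2.1.val : ℤ) • a + (v.2.2.val : ℤ) • b)
  have hφf : ∀ i j, φ (false, i, j) = (i.val : ℤ) • a + (j.val : ℤ) • b := by
    intro i j; simp [φ]
  have hφt : ∀ i j, φ (true, i, j) = c + ((i.val : ℤ) • a + (j.val : ℤ) • b) := by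
    intro i j; simp [φ]
  have hij : ∀ i j i' j' : ℤ, i • a + j • b = i' • a + j' • b → i = i' ∧ j = j' := by
    intro i j i' j' h
    have h1 : (i - i') • a + (j - j') • b = 0 := by
      rw [sub_smul, sub_smul]
      have := sub_eq_zero.2 h
      rw [← this]; abel
    have := hab _ _ h1
    omega
  refine ⟨Bool × Fin t × Fin t, inferInstance, φ, ?_, ?_⟩
  · rintro ⟨β, i, j⟩ ⟨β', i', j'⟩ h
    cases β <;> cases β'
    · rw [hφf, hφf] at h
      have := hij _ _ _ _ h
      have h1 : i = i' := Fin.ext (by omega)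
      have h2 : j = j' := Fin.ext (by omega)
      rw [h1, h2]
    · exfalso
      rw [hφf, hφt] at h
      apply hcab ((i.val : ℤ) - i'.val) ((j.val : ℤ) - j'.val)
      rw [sub_smul, sub_smul]
      rw [← sub_eq_iff_eq_add] at h
      rw [← h]; abel
    · exfalso
      rw [hφf, hφt] at h
      apply hcab ((i'.val : ℤ) - i.val) ((j'.val : ℤ) - j.val)
      rw [sub_smul, sub_smul]
      have h' := eq_sub_iff_add_eq.2 h
      rw [h']; abel
    · rw [hφt, hφt] at h
      have := hij _ _ _ _ (add_left_cancel h)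
      have h1 : i = i' := Fin.ext (by omega)
      have h2 : j = j' := Fin.ext (by omega)
      rw [h1, h2]
  · -- the branch sets
    let f : Fin t → Set (Bool × Fin t × Fin t) := fun k =>
      {v | (v.1 = false ∧ v.2.2 = k) ∨ (v.1 = true ∧ v.2.1 = k)}
    have hcross : ∀ i j, (gr S φ).Adj (false, i, j) (true, i, j) := by
      intro i j
      show φ (true, i, j) - φ (false, i, j) ∈ ES S
      rw [hφt, hφf, add_sub_cancel_right]; exact hc
    have hrow : ∀ (k : Fin t) (m : ℕ) (hm : m < t) (hm0 : 0 < t),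
        ReflTransGen (fun u v => u ∈ f k ∧ v ∈ f k ∧ (gr S φ).Adj u v)
          (false, ⟨0, hm0⟩, k) (false, ⟨m, hm⟩, k) := by
      intro k m
      induction m with
      | zero => intro _ _; exact ReflTransGen.refl
      | succ m ih =>
        intro hm hm0
        refine (ih (by omega) hm0).tail ⟨Or.inl ⟨rfl, rfl⟩, Or.inl ⟨rfl, rfl⟩, ?_⟩
        show φ (false, ⟨m + 1, hm⟩, k) - φ (false, ⟨m, by omega⟩, k) ∈ ES S
        rw [hφf, hφf]
        have : (((⟨m + 1, hm⟩ : Fin t).val : ℕ) : ℤ) • a + ((k.val : ℕ) : ℤ) • b -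
            ((((⟨m, by omega⟩ : Fin t).val : ℕ) : ℤ) • a + ((k.val : ℕ) : ℤ) • b) = a := by
          simp only
          push_cast
          rw [add_smul, one_smul]; abel
        rw [this]; exact ha
    have hcol : ∀ (k : Fin t) (m : ℕ) (hm : m < t) (hm0 : 0 < t),
        ReflTransGen (fun u v => u ∈ f k ∧ v ∈ f k ∧ (gr S φ).Adj u v)
          (true, k, ⟨0, hm0⟩) (true, k, ⟨m, hm⟩) := by
      intro k m
      induction m with
      | zero => intro _ _; exact ReflTransGen.refl
      | succ m ih =>
        intro hm hm0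
        refine (ih (by omega) hm0).tail ⟨Or.inr ⟨rfl, rfl⟩, Or.inr ⟨rfl, rfl⟩, ?_⟩
        show φ (true, k, ⟨m + 1, hm⟩) - φ (true, k, ⟨m, by omega⟩) ∈ ES S
        rw [hφt, hφt]
        have : c + (((k.val : ℕ) : ℤ) • a + (((⟨m + 1, hm⟩ : Fin t).val : ℕ) : ℤ) • b) -
            (c + (((k.val : ℕ) : ℤ) • a + (((⟨m, by omega⟩ : Fin t).val : ℕ) : ℤ) • b)) = b := by
          simp only
          push_cast
          rw [add_smul, one_smul]; abel
        rw [this]; exact hb
    have hsymm : ∀ {k : Fin t} {u v : Bool × Fin t × Fin t},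
        ReflTransGen (fun u v => u ∈ f k ∧ v ∈ f k ∧ (gr S φ).Adj u v) u v →
        ReflTransGen (fun u v => u ∈ f k ∧ v ∈ f k ∧ (gr S φ).Adj u v) v u := by
      intro k u v h
      induction h with
      | refl => exact ReflTransGen.refl
      | tail _ h2 ih => exact ReflTransGen.head ⟨h2.2.1, h2.1, h2.2.2.symm⟩ ih
    refine ⟨f, ?_, ?_, ?_⟩
    · intro k
      have ht0 : 0 < t := by have := k.2; omega
      apply connected_of_rtg ⟨(false, k, k), Or.inl ⟨rfl, rfl⟩⟩
      -- every vertex is connected to the crossing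
      have key : ∀ v ∈ f k, ReflTransGen (fun u v => u ∈ f k ∧ v ∈ f k ∧ (gr S φ).Adj u v)
          (false, k, k) v := by
        rintro ⟨β, i, j⟩ (⟨h1, h2⟩ | ⟨h1, h2⟩)
        · simp only at h1 h2
          subst h1; subst h2
          exact (hsymm (hrow j j.val j.2 ht0)).trans (hrow j i.val i.2 ht0)
        · simp only at h1 h2
          subst h1; subst h2
          refine ReflTransGen.head ⟨Or.inl ⟨rfl, rfl⟩, Or.inr ⟨rfl, rfl⟩, hcross i i⟩ ?_
          exact (hsymm (hcol i i.val i.2 ht0)).trans (hcol i j.val j.2 ht0)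
      intro x hx y hy
      exact (hsymm (key x hx)).trans (key y hy)
    · intro k l hkl
      rw [Set.disjoint_left]
      rintro ⟨β, i, j⟩ (⟨h1, h2⟩ | ⟨h1, h2⟩) (⟨h3, h4⟩ | ⟨h3, h4⟩)
      · exact hkl (h2.symm.trans h4)
      · simp only at h1 h3
        rw [h1] at h3
        exact absurd h3 (by decide)
      · simp only at h1 h3
        rw [h1] at h3
        exact absurd h3 (by decide)
      · exact hkl (h2.symm.trans h4)
    · intro k l _
      exact ⟨(false, l, k), Or.inl ⟨rfl, rfl⟩, (true, l, k), Or.inr ⟨rfl, rfl⟩, hcross l k⟩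

end Pool.Agent.H55.AC
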