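import Mathlib

/-!
# Carriers on the tracks of a ring-like abelian Cayley graph

`G` is an abelian group with a height function `ℓ : G → ℤ`. The ring is `G / ⟨z⟩`, its vertices are
represented by the elements of height between `0` and `ℓ z`. The tracks are the cosets of `s0`, an
edge difference of greatest height.
-/

namespace Pool.Agent.H55.AC

open Relation

variable {G Q : Type} [AddCommGroup G] [AddCommGroup Q]

/-- adjacency in the ring, for representatives -/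
def A (ℓ : G →+ ℤ) (E : Set G) (z : G) (a b : G) : Prop :=
  (0 ≤ ℓ a ∧ ℓ a < ℓ z) ∧ (0 ≤ ℓ b ∧ ℓ b < ℓ z) ∧ a ≠ b ∧
    (b - a ∈ E ∨ b - a + z ∈ E ∨ b - a - z ∈ E)

/-- connected within the set `P` -/
def RP (ℓ : G →+ ℤ) (E : Set G) (z : G) (P : G → Prop) (x y : G) : Prop :=
  ReflTransGen (fun a b => P a ∧ P b ∧ A ℓ E z a b) x y

/-- the block of a vertex of height `x` -/
def blk (T L : ℕ) (x : ℤ) : ℕ := min (x.toNat / L) T

lemma blk_mono {T L : ℕ} {x y : ℤ} (h : x ≤ y) : blk T L x ≤ blk T L y :=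
  min_le_min_right _ (Nat.div_le_div_right (Int.toNat_le_toNat h))

/-- the data of a ring with blocks of length `L` -/
structure Dat (ℓ : G →+ ℤ) (E : Set G) (tr : G →+ Q) (s0 z : G) (T L : ℕ) : Prop where
  symm : ∀ x ∈ E, -x ∈ E
  ne0 : ∀ x ∈ E, x ≠ 0
  sE : s0 ∈ E
  d0 : 0 < ℓ s0
  hE : ∀ x ∈ E, ℓ x ≤ ℓ s0
  htr : ∀ x, tr x = 0 ↔ ∃ k : ℤ, x = k • s0
  surj : Function.Surjective tr
  hL : 2 * ℓ s0 ≤ L
  hn : (L : ℤ) * (T + 1) ≤ ℓ z

/-- adjacency of tracks -/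
def Hadj (E : Set G) (tr : G →+ Q) (r r' : Q) : Prop := ∃ s ∈ E, r' = r + tr s

section
variable {ℓ : G →+ ℤ} {E : Set G} {tr : G →+ Q} {s0 z : G} {T L : ℕ}

lemma Dat.Hsymm (h : Dat ℓ E tr s0 z T L) {r r' : Q} (hr : Hadj E tr r r') : Hadj E tr r' r := by
  obtain ⟨s, hs, rfl⟩ := hr
  exact ⟨-s, h.symm s hs, by rw [map_neg, add_neg_cancel_right]⟩

lemma Dat.Asymm (h : Dat ℓ E tr s0 z T L) {a b : G} (hab : A ℓ E z a b) : A ℓ E z b a := by
  obtain ⟨h1, h2, h3, h4⟩ := hab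
  refine ⟨h2, h1, h3.symm, ?_⟩
  rcases h4 with h4 | h4 | h4
  · left
    have := h.symm _ h4
    rwa [neg_sub] at this
  · right; right
    have := h.symm _ h4
    rwa [show -(b - a + z) = a - b - z by abel] at this
  · right; left
    have := h.symm _ h4
    rwa [show -(b - a - z) = a - b + z by abel] at this

lemma Dat.RPsymm (h : Dat ℓ E tr s0 z T L) {P : G → Prop} {x y : G} (hxy : RP ℓ E z P x y) :
    RP ℓ E z P y x := by
  unfold RP at *
  induction hxy with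
  | refl => exact ReflTransGen.refl
  | tail _ h2 ih => exact ReflTransGen.head ⟨h2.2.1, h2.1, h.Asymm h2.2.2⟩ ih

lemma RP.trans {P : G → Prop} {x y w : G} (h : RP ℓ E z P x y)
    (h' : RP ℓ E z P y w) : RP ℓ E z P x w := ReflTransGen.trans h h'

lemma RP.single {P : G → Prop} {x y : G} (hx : P x) (hy : P y)
    (h : A ℓ E z x y) : RP ℓ E z P x y := ReflTransGen.single ⟨hx, hy, h⟩

lemma RP.mono {P R : G → Prop} (hPR : ∀ x, P x → R x) {x y : G}
    (h : RP ℓ E z P x y) : RP ℓ E z R x y := by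
  unfold RP at *
  induction h with
  | refl => exact ReflTransGen.refl
  | tail _ h2 ih => exact ih.tail ⟨hPR _ h2.1, hPR _ h2.2.1, h2.2.2⟩

lemma Dat.L0 (h : Dat ℓ E tr s0 z T L) : 0 < L := by
  have h1 := h.hL; have h2 := h.d0; omega

lemma Dat.Ld (h : Dat ℓ E tr s0 z T L) : ℓ s0 ≤ L := by
  have h1 := h.hL; have h2 := h.d0; omega

lemma Dat.blk_eq (h : Dat ℓ E tr s0 z T L) {b : ℕ} {x : ℤ} (hb : b ≤ T) (h1 : (L : ℤ) * b ≤ x)
    (h2 : x < L * (b + 1)) : blk T L x = b ∧ 0 ≤ x ∧ x < ℓ z := by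
  have hL := h.L0
  have h0 : 0 ≤ x := le_trans (by positivity) h1
  have hn := h.hn
  refine ⟨?_, h0, ?_⟩
  · lift x to ℕ using h0
    unfold blk
    have h1' : L * b ≤ x := by exact_mod_cast h1
    have h2' : x < L * (b + 1) := by exact_mod_cast h2
    have : x / L = b := by
      apply Nat.div_eq_of_lt_le
      · rw [mul_comm]; exact h1'
      · rw [mul_comm]; exact h2'
    rw [Int.toNat_natCast, this]
    exact min_eq_left hb
  · have h3 : (L : ℤ) * (b + 1) ≤ L * (T + 1) := by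
      apply mul_le_mul_of_nonneg_left _ (by positivity)
      have : (b : ℤ) ≤ T := by exact_mod_cast hb
      linarith
    linarith

lemma Dat.blk_last (h : Dat ℓ E tr s0 z T L) {x : ℤ} (h1 : (L : ℤ) * T ≤ x) : blk T L x = T := by
  have hL := h.L0
  have h0 : 0 ≤ x := le_trans (by positivity) h1
  lift x to ℕ using h0
  have h1' : L * T ≤ x := by exact_mod_cast h1
  unfold blk
  apply min_eq_right
  rw [Int.toNat_natCast, Nat.le_div_iff_mul_le hL, mul_comm]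
  exact h1'

/-- a vertex of given track in a window of length `ℓ s0` -/
lemma Dat.exists_track (h : Dat ℓ E tr s0 z T L) (B : ℤ) (r : Q) :
    ∃ x, B ≤ ℓ x ∧ ℓ x < B + ℓ s0 ∧ tr x = r := by
  obtain ⟨y, rfl⟩ := h.surj r
  have hd := h.d0
  refine ⟨y - ((ℓ y - B) / ℓ s0) • s0, ?_, ?_, ?_⟩
  · rw [map_sub, map_zsmul, smul_eq_mul]
    have h1 := Int.emod_add_mul_ediv (ℓ y - B) (ℓ s0)
    have h2 := Int.emod_nonneg (ℓ y - B) hd.ne'
    nlinarith
  · rw [map_sub, map_zsmul, smul_eq_mul]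
    have h1 := Int.emod_add_mul_ediv (ℓ y - B) (ℓ s0)
    have h2 := Int.emod_lt_of_pos (ℓ y - B) hd
    nlinarith
  · rw [map_sub, (h.htr _).2 ⟨_, rfl⟩, sub_zero]

lemma Dat.tr_s0 (h : Dat ℓ E tr s0 z T L) : tr s0 = 0 := (h.htr _).2 ⟨1, by simp⟩

lemma Dat.tr_eq (h : Dat ℓ E tr s0 z T L) {x y : G} (hxy : tr x = tr y) :
    ∃ k : ℤ, y = x + k • s0 := by
  have h1 : tr (y - x) = 0 := by rw [map_sub, hxy, sub_self]
  obtain ⟨k, hk⟩ := (h.htr _).1 h1
  exact ⟨k, by rw [← hk]; abel⟩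

/-- representatives of the same track and height are equal -/
lemma Dat.eq_of_tr (h : Dat ℓ E tr s0 z T L) {x y : G} (hxy : tr x = tr y) (hℓ : ℓ x = ℓ y) :
    x = y := by
  obtain ⟨k, rfl⟩ := h.tr_eq hxy
  rw [map_add, map_zsmul, smul_eq_mul] at hℓ
  have hd := h.d0
  have : k * ℓ s0 = 0 := by linarith
  rcases mul_eq_zero.1 this with h0 | h0
  · rw [h0, zero_smul, add_zero]
  · omega

lemma Dat.rung (h : Dat ℓ E tr s0 z T L) {P : G → Prop} {x : G} : ∀ {k : ℕ},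
    0 ≤ ℓ x → ℓ (x + k • s0) < ℓ z →
    (∀ w, ℓ x ≤ ℓ w → ℓ w ≤ ℓ (x + k • s0) → tr w = tr x → P w) →
    RP ℓ E z P x (x + k • s0) := by
  intro k
  have hd := h.d0
  induction k with
  | zero => intro _ _ _; rw [zero_smul, add_zero]; exact ReflTransGen.refl
  | succ k ih =>
    intro hx hlt hP
    have hk : ℓ (x + k • s0) = ℓ x + k * ℓ s0 := by
      rw [map_add, map_nsmul, nsmul_eq_mul]
    have hk1 : ℓ (x + (k + 1) • s0) = ℓ x + k * ℓ s0 + ℓ s0 := by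
      rw [map_add, map_nsmul, nsmul_eq_mul]; push_cast; ring
    have hk0 : 0 ≤ (k : ℤ) * ℓ s0 := by positivity
    have htr : ∀ j : ℕ, tr (x + j • s0) = tr x := by
      intro j
      rw [map_add, map_nsmul, h.tr_s0, smul_zero, add_zero]
    have h1 := ih hx (by omega) (fun w hw1 hw2 hw3 => hP w hw1 (by omega) hw3)
    refine h1.trans (RP.single (hP _ (by omega) (by omega) (htr k))
      (hP _ (by omega) le_rfl (htr (k + 1))) ?_)
    refine ⟨⟨by omega, by omega⟩, ⟨by omega, hlt⟩, ?_, Or.inl ?_⟩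
    · intro heq
      have := congrArg ℓ heq
      omega
    · rw [succ_nsmul]
      rw [show x + (k • s0 + s0) - (x + k • s0) = s0 by abel]
      exact h.sE

/-- two vertices of the same block in the same track are connected in that block and track -/
lemma Dat.rung' (h : Dat ℓ E tr s0 z T L) {P : G → Prop} {x y : G} (hx0 : 0 ≤ ℓ x)
    (hx : ℓ x < ℓ z) (hy0 : 0 ≤ ℓ y) (hy : ℓ y < ℓ z)
    (hb : blk T L (ℓ x) = blk T L (ℓ y)) (hr : tr x = tr y)
    (hP : ∀ w, 0 ≤ ℓ w → ℓ w < ℓ z → blk T L (ℓ w) = blk T L (ℓ x) → tr w = tr x → P w) :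
    RP ℓ E z P x y := by
  have key : ∀ {x y : G}, 0 ≤ ℓ x → ℓ x < ℓ z → 0 ≤ ℓ y → ℓ y < ℓ z →
      blk T L (ℓ x) = blk T L (ℓ y) → tr x = tr y → ℓ x ≤ ℓ y →
      (∀ w, 0 ≤ ℓ w → ℓ w < ℓ z → blk T L (ℓ w) = blk T L (ℓ x) → tr w = tr x → P w) →
      RP ℓ E z P x y := by
    intro x y hx0 hx hy0 hy hb hr hle hP
    obtain ⟨k, rfl⟩ := h.tr_eq hr
    have hd := h.d0
    rw [map_add, map_zsmul, smul_eq_mul] at hle
    have hk : 0 ≤ k := by
      by_contra hneg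
      have : k * ℓ s0 < 0 := mul_neg_of_neg_of_pos (by omega) hd
      linarith
    lift k to ℕ using hk
    rw [natCast_zsmul] at *
    apply h.rung hx0 hy
    intro w h1 h2 h3
    apply hP w (by omega) (by omega) _ h3
    have := blk_mono (T := T) (L := L) h1
    have := blk_mono (T := T) (L := L) h2
    omega
  rcases le_total (ℓ x) (ℓ y) with hxy | hxy
  · exact key hx0 hx hy0 hy hb hr hxy hP
  · apply h.RPsymm
    apply key hy0 hy hx0 hx hb.symm hr.symm hxy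
    intro w h1 h2 h3 h4
    exact hP w h1 h2 (h3.trans hb.symm) (h4.trans hr.symm)

/-- adjacent tracks are joined by an edge in every block -/
lemma Dat.hstep (h : Dat ℓ E tr s0 z T L) {b : ℕ} (hb : b ≤ T) {r r' : Q}
    (hr : Hadj E tr r r') :
    ∃ x y, blk T L (ℓ x) = b ∧ blk T L (ℓ y) = b ∧ tr x = r ∧ tr y = r' ∧ A ℓ E z x y := by
  have key : ∀ {r r' : Q} {s : G}, s ∈ E → 0 ≤ ℓ s → r' = r + tr s →
      ∃ x y, blk T L (ℓ x) = b ∧ blk T L (ℓ y) = b ∧ tr x = r ∧ tr y = r' ∧ A ℓ E z x y := by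
    intro r r' s hs hs0 hrr
    obtain ⟨x, hx1, hx2, hx3⟩ := h.exists_track ((L : ℤ) * b) r
    have h1 := h.hE s hs
    have h2 := h.hL
    have e1 : (L : ℤ) * (b + 1) = L * b + L := by ring
    have e2 : ℓ (x + s) = ℓ x + ℓ s := map_add _ _ _
    have b1 := h.blk_eq hb hx1 (by omega)
    have b2 := h.blk_eq hb (x := ℓ (x + s)) (by omega) (by omega)
    refine ⟨x, x + s, b1.1, b2.1, hx3, ?_, b1.2, b2.2, ?_, Or.inl ?_⟩
    · rw [map_add, hx3, hrr]
    · intro heq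
      exact h.ne0 s hs (by simpa using heq.symm)
    · rw [add_sub_cancel_left]; exact hs
  obtain ⟨s, hs, hrr⟩ := hr
  rcases le_total 0 (ℓ s) with hs0 | hs0
  · exact key hs hs0 hrr
  · obtain ⟨x, y, h1, h2, h3, h4, h5⟩ := key (r := r') (r' := r) (h.symm s hs)
      (by rw [map_neg]; omega) (by rw [hrr, map_neg, add_neg_cancel_right])
    exact ⟨y, x, h2, h1, h4, h3, h.Asymm h5⟩

/-- a track runs from each block to the next one -/
lemma Dat.next (h : Dat ℓ E tr s0 z T L) {b : ℕ} (hb : b < T) (r : Q) :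
    ∃ x y, blk T L (ℓ x) = b ∧ blk T L (ℓ y) = b + 1 ∧ tr x = r ∧ tr y = r ∧ A ℓ E z x y := by
  have h2 := h.hL
  have hd := h.d0
  have e1 : (L : ℤ) * ((b : ℕ) + 1) = L * b + L := by ring
  have e2 : (L : ℤ) * (((b + 1 : ℕ) : ℤ) + 1) = L * b + L + L := by push_cast; ring
  have e3 : (L : ℤ) * ((b + 1 : ℕ) : ℤ) = L * b + L := by push_cast; ring
  obtain ⟨x, hx1, hx2, hx3⟩ := h.exists_track ((L : ℤ) * (b + 1) - ℓ s0) r
  have e4 : ℓ (x + s0) = ℓ x + ℓ s0 := map_add _ _ _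
  have b1 := h.blk_eq hb.le (x := ℓ x) (by omega) (by omega)
  have b2 := h.blk_eq (b := b + 1) hb (x := ℓ (x + s0)) (by omega) (by omega)
  refine ⟨x, x + s0, b1.1, b2.1, hx3, ?_, b1.2, b2.2, ?_, Or.inl ?_⟩
  · rw [map_add, h.tr_s0, add_zero, hx3]
  · intro heq
    exact h.ne0 s0 h.sE (by simpa using heq.symm)
  · rw [add_sub_cancel_left]; exact h.sE

/-- a track runs from the last block to the first one, shifted by `z` -/
lemma Dat.closing (h : Dat ℓ E tr s0 z T L) (hT : 0 < T) (r : Q) :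
    ∃ x y, blk T L (ℓ x) = T ∧ blk T L (ℓ y) = 0 ∧ tr x = r ∧ tr y = r - tr z ∧
      A ℓ E z x y := by
  have h2 := h.hL
  have hd := h.d0
  have hn := h.hn
  have e1 : (L : ℤ) * (T + 1) = L * T + L := by ring
  have e2 : (L : ℤ) ≤ L * T := by
    have : (1 : ℤ) ≤ T := by exact_mod_cast hT
    nlinarith
  obtain ⟨x, hx1, hx2, hx3⟩ := h.exists_track (ℓ z - ℓ s0) r
  have e4 : ℓ (x + s0 - z) = ℓ x + ℓ s0 - ℓ z := by rw [map_sub, map_add]
  have b2 := h.blk_eq (b := 0) (by omega) (x := ℓ (x + s0 - z)) (by push_cast; omega)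
    (by push_cast; omega)
  refine ⟨x, x + s0 - z, h.blk_last (by omega), b2.1, hx3, ?_, ⟨by omega, by omega⟩, b2.2, ?_,
    Or.inr (Or.inl ?_)⟩
  · rw [map_sub, map_add, h.tr_s0, add_zero, hx3]
  · intro heq
    have := congrArg ℓ heq
    omega
  · rw [show x + s0 - z - x + z = s0 by abel]; exact h.sE

variable {Λ : Type}

/-- the part of the carrier `i` in the blocks `s ≤ b < e` -/
def Car (ℓ : G →+ ℤ) (tr : G →+ Q) (z : G) (T L : ℕ) (g : ℕ → Λ → Q → Prop) (i : Λ) (s e : ℕ)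
    (x : G) : Prop :=
  (0 ≤ ℓ x ∧ ℓ x < ℓ z) ∧ s ≤ blk T L (ℓ x) ∧ blk T L (ℓ x) < e ∧ g (blk T L (ℓ x)) i (tr x)

/-- the track sets of the carriers: `o` is a label without a carrier -/
structure Frm (E : Set G) (tr : G →+ Q) (T : ℕ) (o : Λ) (g : ℕ → Λ → Q → Prop) : Prop where
  dis : ∀ b, b ≤ T → ∀ i j, i ≠ o → j ≠ o → i ≠ j → ∀ r, g b i r → ¬ g b j r
  con : ∀ b, b ≤ T → ∀ i, i ≠ o → ∀ r r', g b i r → g b i r' →
    ReflTransGen (fun a c => g b i a ∧ g b i c ∧ Hadj E tr a c) r r'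
  nxt : ∀ b, b < T → ∀ i, i ≠ o → ∃ r, g b i r ∧ g (b + 1) i r

variable {o : Λ} {g : ℕ → Λ → Q → Prop}

lemma car_block (h : Dat ℓ E tr s0 z T L) (F : Frm E tr T o g) {i : Λ} (hi : i ≠ o) {s e : ℕ}
    {x y : G} (hx : Car ℓ tr z T L g i s e x) (hy : Car ℓ tr z T L g i s e y)
    (hb : blk T L (ℓ x) = blk T L (ℓ y)) :
    RP ℓ E z (Car ℓ tr z T L g i s e) x y := by
  have hbT : blk T L (ℓ x) ≤ T := min_le_right _ _
  have key : ∀ r', ReflTransGen (fun a c => g (blk T L (ℓ x)) i a ∧ g (blk T L (ℓ x)) i c ∧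
      Hadj E tr a c) (tr x) r' → ∀ y, (0 ≤ ℓ y ∧ ℓ y < ℓ z) → blk T L (ℓ y) = blk T L (ℓ x) →
      tr y = r' → RP ℓ E z (Car ℓ tr z T L g i s e) x y := by
    intro r' hr'
    induction hr' with
    | refl =>
      intro y hy1 hy2 hy3
      apply h.rung' hx.1.1 hx.1.2 hy1.1 hy1.2 hy2.symm hy3.symm
      intro w hw0 hw1 hw2 hw3
      refine ⟨⟨hw0, hw1⟩, ?_, ?_, ?_⟩
      · rw [hw2]; exact hx.2.1
      · rw [hw2]; exact hx.2.2.1
      · rw [hw2, hw3]; exact hx.2.2.2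
    | tail _ h2 ih =>
      intro y hy1 hy2 hy3
      obtain ⟨x', y', e1, e2, e3, e4, e5⟩ := h.hstep hbT h2.2.2
      have hcar : ∀ w, (0 ≤ ℓ w ∧ ℓ w < ℓ z) → blk T L (ℓ w) = blk T L (ℓ x) →
          g (blk T L (ℓ x)) i (tr w) → Car ℓ tr z T L g i s e w := by
        intro w h1 h2 h3
        refine ⟨h1, ?_, ?_, ?_⟩
        · rw [h2]; exact hx.2.1
        · rw [h2]; exact hx.2.2.1
        · rw [h2]; exact h3
      have c1 := ih x' e5.1 e1 e3
      have c2 : RP ℓ E z (Car ℓ tr z T L g i s e) x' y' :=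
        RP.single (hcar x' e5.1 e1 (e3 ▸ h2.1)) (hcar y' e5.2.1 e2 (e4 ▸ h2.2.1)) e5
      refine (c1.trans c2).trans (h.rung' e5.2.1.1 e5.2.1.2 hy1.1 hy1.2 (e2.trans hy2.symm)
        (e4.trans hy3.symm) ?_)
      intro w hw0 hw1 hw2 hw3
      exact hcar w ⟨hw0, hw1⟩ (hw2.trans e2) (by rw [hw3, e4]; exact h2.2.1)
  exact key _ (F.con _ hbT i hi _ _ hx.2.2.2 (hb ▸ hy.2.2.2)) y hy.1 hb.symm rfl

lemma car_conn (h : Dat ℓ E tr s0 z T L) (F : Frm E tr T o g) {i : Λ} (hi : i ≠ o) {s e : ℕ}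
    {x y : G} (hx : Car ℓ tr z T L g i s e x) (hy : Car ℓ tr z T L g i s e y) :
    RP ℓ E z (Car ℓ tr z T L g i s e) x y := by
  have key : ∀ k x y, Car ℓ tr z T L g i s e x → Car ℓ tr z T L g i s e y →
      blk T L (ℓ y) = blk T L (ℓ x) + k → RP ℓ E z (Car ℓ tr z T L g i s e) x y := by
    intro k
    induction k with
    | zero =>
      intro x y hx hy hb
      exact car_block h F hi hx hy hb.symm
    | succ k ih =>
      intro x y hx hy hb
      have hyT : blk T L (ℓ y) ≤ T := min_le_right _ _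
      have hbT : blk T L (ℓ x) + k < T := by omega
      obtain ⟨r, hr1, hr2⟩ := F.nxt _ hbT i hi
      obtain ⟨x', y', e1, e2, e3, e4, e5⟩ := h.next hbT r
      have c1 : Car ℓ tr z T L g i s e x' := by
        refine ⟨e5.1, ?_, ?_, ?_⟩
        · rw [e1]; have := hx.2.1; omega
        · rw [e1]; have := hy.2.2.1; omega
        · rw [e1, e3]; exact hr1
      have c2 : Car ℓ tr z T L g i s e y' := by
        refine ⟨e5.2.1, ?_, ?_, ?_⟩
        · rw [e2]; have := hx.2.1; omega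
        · rw [e2]; have := hy.2.2.1; omega
        · rw [e2, e4]; exact hr2
      exact ((ih x x' hx c1 e1).trans (RP.single c1 c2 e5)).trans
        (car_block h F hi c2 hy (by omega))
  rcases le_total (blk T L (ℓ x)) (blk T L (ℓ y)) with hle | hle
  · exact key (blk T L (ℓ y) - blk T L (ℓ x)) x y hx hy (by omega)
  · exact h.RPsymm (key (blk T L (ℓ x) - blk T L (ℓ y)) y x hy hx (by omega))

/-- two carriers which use adjacent tracks in a common block are adjacent -/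
lemma car_adj (h : Dat ℓ E tr s0 z T L) {i j : Λ} {s e s' e' b : ℕ} (hb : b ≤ T)
    (h1 : s ≤ b) (h2 : b < e) (h3 : s' ≤ b) (h4 : b < e') {r r' : Q} (hr : g b i r)
    (hr' : g b j r') (hH : Hadj E tr r r') :
    ∃ x y, Car ℓ tr z T L g i s e x ∧ Car ℓ tr z T L g j s' e' y ∧ A ℓ E z x y := by
  obtain ⟨x, y, e1, e2, e3, e4, e5⟩ := h.hstep hb hH
  refine ⟨x, y, ⟨e5.1, ?_, ?_, ?_⟩, ⟨e5.2.1, ?_, ?_, ?_⟩, e5⟩
  · rw [e1]; exact h1
  · rw [e1]; exact h2
  · rw [e1, e3]; exact hr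
  · rw [e2]; exact h3
  · rw [e2]; exact h4
  · rw [e2, e4]; exact hr'

/-- the parts of a carrier before and after a cut are adjacent -/
lemma car_cut (h : Dat ℓ E tr s0 z T L) (F : Frm E tr T o g) {i : Λ} (hi : i ≠ o)
    {s m e : ℕ} (h1 : s < m) (h2 : m < e) (h3 : m ≤ T) :
    ∃ x y, Car ℓ tr z T L g i s m x ∧ Car ℓ tr z T L g i m e y ∧ A ℓ E z x y := by
  obtain ⟨b, rfl⟩ : ∃ b, m = b + 1 := ⟨m - 1, by omega⟩
  obtain ⟨r, hr1, hr2⟩ := F.nxt b (by omega) i hi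
  obtain ⟨x, y, e1, e2, e3, e4, e5⟩ := h.next (b := b) (by omega) r
  refine ⟨x, y, ⟨e5.1, ?_, ?_, ?_⟩, ⟨e5.2.1, ?_, ?_, ?_⟩, e5⟩
  · rw [e1]; omega
  · rw [e1]; omega
  · rw [e1, e3]; exact hr1
  · rw [e2]
  · rw [e2]; omega
  · rw [e2, e4]; exact hr2

lemma car_dis (F : Frm E tr T o g) {i j : Λ} (hi : i ≠ o) (hj : j ≠ o) {s e s' e' : ℕ} {x : G}
    (h1 : i ≠ j ∨ e ≤ s' ∨ e' ≤ s) (hx : Car ℓ tr z T L g i s e x)
    (hy : Car ℓ tr z T L g j s' e' x) : False := by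
  have hbT : blk T L (ℓ x) ≤ T := min_le_right _ _
  rcases h1 with h1 | h1 | h1
  · exact F.dis _ hbT i j hi hj h1 _ hx.2.2.2 hy.2.2.2
  · have := hx.2.2.1; have := hy.2.1; omega
  · have := hy.2.2.1; have := hx.2.1; omega

lemma car_ne (h : Dat ℓ E tr s0 z T L) (F : Frm E tr T o g) {i : Λ} (hi : i ≠ o) {s e : ℕ}
    (h1 : s < e) (h2 : s < T) : ∃ x, Car ℓ tr z T L g i s e x := by
  obtain ⟨r, hr1, hr2⟩ := F.nxt s h2 i hi
  obtain ⟨x, y, e1, e2, e3, e4, e5⟩ := h.next h2 r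
  refine ⟨x, e5.1, ?_, ?_, ?_⟩
  · rw [e1]
  · rw [e1]; exact h1
  · rw [e1, e3]; exact hr1

end

end Pool.Agent.H55.AC
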