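import Pool.Agent.H55.AC.Compact

/-!
# Generating sets of subgroups
-/

namespace Pool.Agent.H55.AC

open Relation Pool.Agent.H55.SC

/-- The Cayley graph of `Γ` with connection set `S` consists of copies of the Cayley graph of the
subgroup generated by `S`. -/
lemma had_of_closure {Γ : Type} [AddCommGroup Γ] (S : Set Γ)
    (h : Had (cay ((↑) ⁻¹' S : Set (AddSubgroup.closure S)))) : Had (cay S) := by
  classical
  set H := AddSubgroup.closure S with hH
  intro k hk
  have h1 : ¬ (cay ((↑) ⁻¹' S : Set H)).Colorable k := by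
    rintro ⟨c⟩
    apply hk
    -- coset representatives
    have hrep : ∀ x : Γ, x - (QuotientAddGroup.mk x : Γ ⧸ H).out ∈ H := by
      intro x
      have h2 : (QuotientAddGroup.mk ((QuotientAddGroup.mk x : Γ ⧸ H).out) : Γ ⧸ H) =
          QuotientAddGroup.mk x := Quotient.out_eq' _
      have h3 := QuotientAddGroup.eq.1 h2
      rw [sub_eq_neg_add]
      exact h3
    refine ⟨SimpleGraph.Coloring.mk
      (fun x => c ⟨x - (QuotientAddGroup.mk x : Γ ⧸ H).out, hrep x⟩) ?_⟩
    intro u v huv
    have hq : (QuotientAddGroup.mk u : Γ ⧸ H) = QuotientAddGroup.mk v := by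
      rw [QuotientAddGroup.eq]
      rw [SimpleGraph.circulantGraph_adj] at huv
      rcases huv.2 with h4 | h4
      · have := H.neg_mem (AddSubgroup.subset_closure h4)
        rw [neg_sub] at this
        rw [neg_add_eq_sub]
        exact this
      · rw [neg_add_eq_sub]
        exact AddSubgroup.subset_closure h4
    apply c.valid
    rw [SimpleGraph.circulantGraph_adj] at huv ⊢
    refine ⟨?_, ?_⟩
    · intro h5
      have h6 := congrArg Subtype.val h5
      simp only [hq, sub_left_inj] at h6
      exact huv.1 h6
    · simp only [Set.mem_preimage, AddSubgroup.coe_sub, hq, sub_sub_sub_cancel_right]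
      exact huv.2
  refine CliqueMinor.map (h k h1) (fun x : H => (x : Γ)) ?_ ?_
  · exact Subtype.val_injective
  · intro u v huv
    rw [SimpleGraph.circulantGraph_adj] at huv ⊢
    refine ⟨fun h5 => huv.1 (Subtype.ext h5), ?_⟩
    simpa using huv.2

/-- Hadwiger's conjecture for all Cayley graphs of finite abelian groups with few generators and
large components. -/
theorem hadwiger_abelian (s : ℕ) : ∃ N : ℕ, ∀ (Γ : Type) [AddCommGroup Γ] [Finite Γ]
    (S : Finset Γ), S.card ≤ s → N ≤ Nat.card (AddSubgroup.closure (S : Set Γ)) →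
    Had (cay (S : Set Γ)) := by
  classical
  obtain ⟨N, hN⟩ := compact s
  refine ⟨N, fun Γ _ _ S hcard hlarge => ?_⟩
  apply had_of_closure
  set H := AddSubgroup.closure (S : Set Γ) with hH
  have h1 : ((S.subtype (· ∈ H) : Finset H) : Set H) = (↑) ⁻¹' (S : Set Γ) := by
    ext x
    simp
  have h2 : AddSubgroup.closure ((S.subtype (· ∈ H) : Finset H) : Set H) = ⊤ := by
    rw [h1]
    exact AddSubgroup.closure_closure_coe_preimage
  rw [← h1]
  apply hN H _ h2 _ hlarge
  rw [Finset.card_subtype]
  exact (Finset.card_filter_le _ _).trans hcard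

end Pool.Agent.H55.AC
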